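import Pool.Agent.TH841.SH.Sel
import Pool.Agent.N875.X15.Two

/-!
# The local Kummer classes form a group
-/

set_option autoImplicit false

namespace Pool.Agent.N809.D21

open Pool.Agent.N875.X15 (sq_cancel)
open Pool.Agent.TH841.SH (LocC)
open Polynomial (C X)
open scoped Topology

section

variable {p : ℕ} [hp : Fact p.Prime]

lemma sq_one_add {w : ℚ_[p]} (hw : ‖w‖ ≤ 1 / 8) : IsSquare (1 + w) := by
  by_cases hp2 : p = 2
  · subst hp2
    exact Pool.Agent.Y667.RP.sq_near_one hw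
  · exact Pool.Agent.W22.RK.isSquare_one_add hp2 w (by linarith)

/-- squares near a given point -/
lemma near (x e : ℚ_[p]) (hx : x - e ≠ 0) :
    {t : ℚ_[p] | IsSquare ((t - e) * (x - e)) ∧ t - e ≠ 0} ∈ 𝓝 x := by
  have hpos : 0 < ‖x - e‖ / 8 := by
    have := norm_pos_iff.2 hx
    linarith
  filter_upwards [Metric.ball_mem_nhds x hpos] with t ht
  rw [Metric.mem_ball, dist_eq_norm] at ht
  constructor
  · have h1 : ‖(t - x) / (x - e)‖ ≤ 1 / 8 := by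
      rw [norm_div, div_le_iff₀ (norm_pos_iff.2 hx)]
      linarith
    obtain ⟨r, hr⟩ := sq_one_add h1
    refine ⟨r * (x - e), ?_⟩
    have e1 : r * (x - e) * (r * (x - e)) = (r * r) * ((x - e) * (x - e)) := by ring
    rw [e1, ← hr]
    field_simp
    ring
  · intro h0
    have h2 : t - x = -(x - e) := by linear_combination h0
    rw [h2, norm_neg] at ht
    linarith

/-- finitely many bad points -/
lemma bad_fin {K : Type} [Field K] {a b c k l : K} (hl : l ≠ 0) (hab : a ≠ b) :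
    {t : K | (t - b) * (t - c) * k = l * (t - a)}.Finite := by
  set P : Polynomial K := (X - C b) * (X - C c) * C k - C l * (X - C a) with hP
  have hP0 : P ≠ 0 := by
    intro h
    have h1 : P.eval b = 0 := by rw [h, Polynomial.eval_zero]
    rw [hP] at h1
    simp only [Polynomial.eval_sub, Polynomial.eval_mul, Polynomial.eval_X, Polynomial.eval_C,
      sub_self, zero_mul, zero_sub, neg_eq_zero, mul_eq_zero] at h1
    rcases h1 with h1 | h1
    · exact hl h1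
    · exact hab (sub_eq_zero.1 h1).symm
  refine (Polynomial.finite_setOf_isRoot hP0).subset fun t ht => ?_
  show P.eval t = 0
  rw [hP]
  simp only [Polynomial.eval_sub, Polynomial.eval_mul, Polynomial.eval_X, Polynomial.eval_C]
  exact sub_eq_zero.2 ht

/-- **The classes of the local points form a group.** -/
theorem locC_mul {a b c : ℤ} (hab : a ≠ b) (hac : a ≠ c) (hbc : b ≠ c) {d1 d2 f1 f2 : ℤ}
    (h : LocC ℚ_[p] a b c d1 d2) (h' : LocC ℚ_[p] a b c f1 f2) :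
    LocC ℚ_[p] a b c (d1 * f1) (d2 * f2) := by
  obtain ⟨x1, y1, hy1, hc1, ha1, hb1⟩ := h
  obtain ⟨x2, y2, hy2, hc2, ha2, hb2⟩ := h'
  have nz1 : (x1 - a) * (x1 - b) * (x1 - c) ≠ 0 := by rw [← hc1]; exact pow_ne_zero 2 hy1
  have nz2 : (x2 - a) * (x2 - b) * (x2 - c) ≠ 0 := by rw [← hc2]; exact pow_ne_zero 2 hy2
  have na1 := left_ne_zero_of_mul (left_ne_zero_of_mul nz1)
  have nb1 := right_ne_zero_of_mul (left_ne_zero_of_mul nz1)
  have nc1 := right_ne_zero_of_mul nz1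
  have na2 := left_ne_zero_of_mul (left_ne_zero_of_mul nz2)
  have nb2 := right_ne_zero_of_mul (left_ne_zero_of_mul nz2)
  have nc2 := right_ne_zero_of_mul nz2
  have qab : (a : ℚ_[p]) ≠ b := by exact_mod_cast hab
  have qac : (a : ℚ_[p]) ≠ c := by exact_mod_cast hac
  have qbc : (b : ℚ_[p]) ≠ c := by exact_mod_cast hbc
  have hU := Filter.inter_mem (near x2 a na2) (Filter.inter_mem (near x2 b nb2) (near x2 c nc2))
  have hinf := infinite_of_mem_nhds x2 hU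
  have hl : y1 ^ 2 ≠ 0 := pow_ne_zero 2 hy1
  have hB : ({x1} ∪ ({t : ℚ_[p] | (t - b) * (t - c) * (x1 - a) ^ 2 = y1 ^ 2 * (t - a)} ∪
      ({t : ℚ_[p] | (t - a) * (t - c) * (x1 - b) ^ 2 = y1 ^ 2 * (t - b)} ∪
      {t : ℚ_[p] | (t - a) * (t - b) * (x1 - c) ^ 2 = y1 ^ 2 * (t - c)}))).Finite :=
    (Set.finite_singleton x1).union ((bad_fin hl qab).union ((bad_fin hl qab.symm).union
      (bad_fin hl qac.symm)))
  obtain ⟨t, htU, htB⟩ := (hinf.diff hB).nonempty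
  obtain ⟨⟨sa, ta⟩, ⟨sb, tb⟩, ⟨sc, tc⟩⟩ := htU
  simp only [Set.mem_union, Set.mem_singleton_iff, Set.mem_setOf_eq, not_or] at htB
  obtain ⟨h1t, ba, bb, bc⟩ := htB
  -- the second point
  have hsq : IsSquare ((t - a) * (t - b) * (t - c)) := by
    have h1 := (sa.mul sb).mul sc
    have e1 : (t - a) * (x2 - a) * ((t - b) * (x2 - b)) * ((t - c) * (x2 - c)) =
        ((x2 - a) * (x2 - b) * (x2 - c)) * ((t - a) * (t - b) * (t - c)) := by ring
    rw [e1, ← hc2] at h1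
    exact sq_cancel (pow_ne_zero 2 hy2) ⟨y2, by ring⟩ h1
  obtain ⟨y, hy⟩ := hsq
  have hy0 : y ≠ 0 := by
    rintro rfl
    rw [mul_zero] at hy
    exact mul_ne_zero (mul_ne_zero ta tb) tc hy
  have hD : x1 - t ≠ 0 := sub_ne_zero.2 (Ne.symm h1t)
  set l : ℚ_[p] := (y1 - y) / (x1 - t) with hl'
  have hlD : l * (x1 - t) = y1 - y := div_mul_cancel₀ _ hD
  set x3 : ℚ_[p] := l ^ 2 + a + b + c - x1 - t with hx3
  have D2 : (x1 - t) ^ 2 ≠ 0 := pow_ne_zero 2 hD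
  have key : ∀ u v w : ℚ_[p], (u = a ∧ v = b ∧ w = c) ∨ (u = b ∧ v = a ∧ w = c) ∨
      (u = c ∧ v = a ∧ w = b) →
      (x3 - u) * (x1 - u) * (t - u) = (y1 - l * (x1 - u)) ^ 2 := by
    intro u v w huvw
    have h1 : y1 ^ 2 = (x1 - u) * (x1 - v) * (x1 - w) := by
      rcases huvw with ⟨rfl, rfl, rfl⟩ | ⟨rfl, rfl, rfl⟩ | ⟨rfl, rfl, rfl⟩ <;> rw [hc1] <;> ring
    have h2 : y ^ 2 = (t - u) * (t - v) * (t - w) := by
      rcases huvw with ⟨rfl, rfl, rfl⟩ | ⟨rfl, rfl, rfl⟩ | ⟨rfl, rfl, rfl⟩ <;> rw [pow_two, ← hy] <;>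
        ring
    have h3 : x3 = l ^ 2 + u + v + w - x1 - t := by
      rcases huvw with ⟨rfl, rfl, rfl⟩ | ⟨rfl, rfl, rfl⟩ | ⟨rfl, rfl, rfl⟩ <;> rw [hx3] <;> ring
    have h4 : (l * (x1 - t)) ^ 2 = (y1 - y) ^ 2 := by rw [hlD]
    apply mul_left_cancel₀ D2
    have e1 : (x1 - t) ^ 2 * ((x3 - u) * (x1 - u) * (t - u)) =
        ((y1 - y) ^ 2 + (u + v + w - x1 - t - u) * (x1 - t) ^ 2) * ((x1 - u) * (t - u)) := by
      rw [h3]
      linear_combination ((x1 - u) * (t - u)) * h4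
    have e2 : (x1 - t) ^ 2 * (y1 - l * (x1 - u)) ^ 2 =
        (y1 * (x1 - t) - (y1 - y) * (x1 - u)) ^ 2 := by
      rw [← hlD]
      ring
    rw [e1, e2]
    linear_combination (x1 - t) * (t - u) * h1 - (x1 - t) * (x1 - u) * h2
  have ka := key a b c (Or.inl ⟨rfl, rfl, rfl⟩)
  have kb := key b a c (Or.inr (Or.inl ⟨rfl, rfl, rfl⟩))
  have kc := key c a b (Or.inr (Or.inr ⟨rfl, rfl, rfl⟩))
  -- the third point is not a 2-torsion point
  have nb : ∀ u v w : ℚ_[p], (u = a ∧ v = b ∧ w = c) ∨ (u = b ∧ v = a ∧ w = c) ∨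
      (u = c ∧ v = a ∧ w = b) → t - u ≠ 0 →
      ¬ ((t - v) * (t - w) * (x1 - u) ^ 2 = y1 ^ 2 * (t - u)) → y1 - l * (x1 - u) ≠ 0 := by
    intro u v w huvw htu hbad h0
    apply hbad
    have h2 : y ^ 2 = (t - u) * (t - v) * (t - w) := by
      rcases huvw with ⟨rfl, rfl, rfl⟩ | ⟨rfl, rfl, rfl⟩ | ⟨rfl, rfl, rfl⟩ <;> rw [pow_two, ← hy] <;>
        ring
    have h3 : y * (x1 - u) = y1 * (t - u) := by
      linear_combination (x1 - t) * h0 + (x1 - u) * hlD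
    apply mul_left_cancel₀ htu
    have h4 : (y * (x1 - u)) ^ 2 = (y1 * (t - u)) ^ 2 := by rw [h3]
    linear_combination h4 - (x1 - u) ^ 2 * h2
  have ma := nb a b c (Or.inl ⟨rfl, rfl, rfl⟩) ta ba
  have mb := nb b a c (Or.inr (Or.inl ⟨rfl, rfl, rfl⟩)) tb bb
  have mc := nb c a b (Or.inr (Or.inr ⟨rfl, rfl, rfl⟩)) tc bc
  refine ⟨x3, (y1 - l * (x1 - a)) * (y1 - l * (x1 - b)) * (y1 - l * (x1 - c)) / (y1 * y), ?_, ?_,
    ?_, ?_⟩
  · exact div_ne_zero (mul_ne_zero (mul_ne_zero ma mb) mc) (mul_ne_zero hy1 hy0)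
  · rw [div_pow, div_eq_iff (pow_ne_zero 2 (mul_ne_zero hy1 hy0)), mul_pow, mul_pow, ← ka, ← kb,
      ← kc, mul_pow, hc1, pow_two y, ← hy]
    ring
  · push_cast
    have h1 : IsSquare ((x3 - a) * (x1 - a) * (t - a)) := by rw [ka]; exact ⟨_, pow_two _⟩
    have h2 := ((h1.mul ha1).mul ha2).mul sa
    have e1 : (x3 - a) * (x1 - a) * (t - a) * ((x1 - a) * d1) * ((x2 - a) * f1) *
        ((t - a) * (x2 - a)) = (((x1 - a) * (t - a) * (x2 - a)) * ((x1 - a) * (t - a) * (x2 - a))) *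
          ((x3 - a) * (d1 * f1)) := by ring
    rw [e1] at h2
    have h0 : (x1 - (a : ℚ_[p])) * (t - a) * (x2 - a) ≠ 0 := mul_ne_zero (mul_ne_zero na1 ta) na2
    exact sq_cancel (mul_ne_zero h0 h0) (IsSquare.mul_self _) h2
  · push_cast
    have h1 : IsSquare ((x3 - b) * (x1 - b) * (t - b)) := by rw [kb]; exact ⟨_, pow_two _⟩
    have h2 := ((h1.mul hb1).mul hb2).mul sb
    have e1 : (x3 - b) * (x1 - b) * (t - b) * ((x1 - b) * d2) * ((x2 - b) * f2) *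
        ((t - b) * (x2 - b)) = (((x1 - b) * (t - b) * (x2 - b)) * ((x1 - b) * (t - b) * (x2 - b))) *
          ((x3 - b) * (d2 * f2)) := by ring
    rw [e1] at h2
    have h0 : (x1 - (b : ℚ_[p])) * (t - b) * (x2 - b) ≠ 0 := mul_ne_zero (mul_ne_zero nb1 tb) nb2
    exact sq_cancel (mul_ne_zero h0 h0) (IsSquare.mul_self _) h2

end

end Pool.Agent.N809.D21
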