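import Pool.Agent.N809.D21.Loc
import Pool.Agent.N809.D21.Two

/-!
# Necessary local conditions on `y² = x (x - 9 m) (x + 7 m)`
-/

set_option autoImplicit false

namespace Pool.Agent.N809.D21

open Pool.Agent.N875.X15
open Pool.Agent.N875.P17 (sq_of sqp val_neg)
open Pool.Agent.TH841.SH (LocC SelG)

section

variable {p : ℕ} [hp : Fact p.Prime]

/-- **Multiplicative reduction**: two differences of the roots are units. -/
theorem node (hp2 : p ≠ 2) {A B C : ℚ_[p]} (hA : A ≠ 0) (hB : B ≠ 0) (hC : C ≠ 0)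
    (hs : IsSquare (A * B * C)) (hAB : B - A ≠ 0) (hCA : C - A ≠ 0) {n : ℤ} (hn : 0 < n)
    (h1 : (B - A).valuation = n) (h2 : (C - A).valuation = 0) :
    (IsSquare C ∧ Even A.valuation) ∨
      (IsSquare (C * (C - A)) ∧ (¬ IsSquare (C - A) → Even (A.valuation + n))) := by
  have hsum : Even (A.valuation + B.valuation + C.valuation) := by
    have := even_val (mul_ne_zero (mul_ne_zero hA hB) hC) hs
    rwa [Padic.valuation_mul (mul_ne_zero hA hB) hC, Padic.valuation_mul hA hB] at this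
  have hBA : A - B ≠ 0 := by rwa [← neg_ne_zero, neg_sub]
  have h1' : (A - B).valuation = n := by rw [← neg_sub, val_neg, h1]
  have sqC : IsSquare (B * A) → IsSquare C := fun h => by
    have e : A * B * C = (B * A) * C := by ring
    rw [e] at hs
    exact sq_cancel (mul_ne_zero hB hA) h hs
  rcases lt_trichotomy A.valuation 0 with c | c | c
  · left
    obtain ⟨a1, -⟩ := closeV hp2 hB hA hAB (by omega)
    obtain ⟨a2, -⟩ := closeV hp2 hC hA hCA (by omega)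
    have hC' := sqC a1
    exact ⟨hC', even_val hA (sq_cancel hC hC' a2)⟩
  · left
    obtain ⟨a1, -⟩ := closeV hp2 hB hA hAB (by omega)
    exact ⟨sqC a1, by rw [c]; exact Even.zero⟩
  · right
    obtain ⟨a1, a2⟩ := closeV hp2 hC hCA (by rwa [sub_sub_cancel]) (by
      rw [sub_sub_cancel, h2]; exact c)
    rw [h2] at a2
    refine ⟨a1, fun hns => ?_⟩
    have hnC : ¬ IsSquare C := fun h => hns (sq_cancel hC h a1)
    have hnBA : ¬ IsSquare (B * A) := fun h => hnC (sqC h)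
    have c1 : n ≤ A.valuation := by
      by_contra hcon
      exact hnBA (closeV hp2 hB hA hAB (by omega)).1
    rcases eq_or_lt_of_le c1 with c2 | c2
    · rw [← c2]
      exact ⟨n, rfl⟩
    · obtain ⟨-, b2⟩ := closeV hp2 hB hAB (by rwa [sub_sub_cancel]) (by
        rw [sub_sub_cancel, h1]; exact c2)
      rw [h1] at b2
      rw [a2, b2, add_zero] at hsum
      exact hsum

lemma n2 (hp2 : p ≠ 2) : ¬ (p : ℤ) ∣ (2 : ℤ) := not_dvd_of_prime Nat.prime_two hp2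

lemma ndm {a b : ℤ} (ha : ¬ (p : ℤ) ∣ a) (hb : ¬ (p : ℤ) ∣ b) : ¬ (p : ℤ) ∣ a * b := by
  have hpr : Prime (p : ℤ) := Nat.prime_iff_prime_int.1 hp.out
  intro h
  rcases hpr.dvd_or_dvd h with h3 | h3
  · exact ha h3
  · exact hb h3

lemma n16 (hp2 : p ≠ 2) : ¬ (p : ℤ) ∣ (16 : ℤ) := by
  have h4 := ndm (n2 hp2) (n2 hp2)
  have := ndm h4 h4
  norm_num at this
  exact this

lemma n3 (hp3 : p ≠ 3) : ¬ (p : ℤ) ∣ (3 : ℤ) := by
  have := not_dvd_of_prime (p := p) Nat.prime_three hp3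
  exact_mod_cast this

lemma n9 (hp3 : p ≠ 3) : ¬ (p : ℤ) ∣ (9 : ℤ) := by
  have := ndm (n3 hp3) (n3 hp3)
  norm_num at this
  exact this

lemma n7 (hp7 : p ≠ 7) : ¬ (p : ℤ) ∣ (7 : ℤ) := by
  have := not_dvd_of_prime (p := p) (by norm_num : Nat.Prime 7) hp7
  exact_mod_cast this

lemma v_unit {m : ℤ} (hm : m ≠ 0) {a : ℤ} (ha : ¬ (p : ℤ) ∣ a) :
    ((a : ℚ_[p]) * m).valuation = (m : ℚ_[p]).valuation := val_mul_unit a ha hm

/-- the four cases in terms of `x` -/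
lemma four {m w u : ℤ} (hm : m ≠ 0) {x : ℚ_[p]} (h0 : x ≠ 0) (h9 : x - 9 * m ≠ 0)
    (h7 : x + 7 * m ≠ 0) (hs : IsSquare (x * (x - 9 * m) * (x + 7 * m)))
    (hw : IsSquare (x * w)) (hu : IsSquare ((x - 9 * m) * u))
    (h : (IsSquare x ∧ IsSquare (x - 9 * (m : ℚ_[p]))) ∨
      (IsSquare ((x - 9 * m) * (-9 * (m : ℚ_[p]))) ∧ IsSquare ((x + 7 * m) * (7 * (m : ℚ_[p])))) ∨
      (IsSquare (x * (9 * (m : ℚ_[p]))) ∧ IsSquare ((x + 7 * m) * (16 * (m : ℚ_[p])))) ∨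
      (IsSquare (x * (-7 * (m : ℚ_[p]))) ∧ IsSquare ((x - 9 * m) * (-16 * (m : ℚ_[p]))))) :
    ∃ α β : ZMod 2, TC ℚ_[p] m w u α β := by
  have hm' : (m : ℚ_[p]) ≠ 0 := by exact_mod_cast hm
  have q3 : (3 : ℚ_[p]) ≠ 0 := by norm_num
  have q4 : (4 : ℚ_[p]) ≠ 0 := by norm_num
  unfold TC
  rcases h with ⟨a, b⟩ | ⟨a, b⟩ | ⟨a, b⟩ | ⟨a, b⟩
  · refine ⟨0, 0, ?_, ?_⟩ <;> simp only [val0, pow_zero, mul_one]
    · exact sq_cancel h0 a hw
    · exact sq_cancel h9 b hu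
  · refine ⟨0, 1, ?_, ?_⟩ <;> simp only [val0, val1, pow_zero, pow_one, mul_one] <;> push_cast
    · refine sq_of ((hs.mul (a.mul b)).mul hw) (z := 3 * m * x * (x - 9 * m) * (x + 7 * m))
        (mul_ne_zero (mul_ne_zero (mul_ne_zero (mul_ne_zero q3 hm') h0) h9) h7) ?_
      ring
    · refine sq_of (a.mul hu) (z := 3 * (x - 9 * m)) (mul_ne_zero q3 h9) ?_
      ring
  · refine ⟨1, 0, ?_, ?_⟩ <;> simp only [val0, val1, pow_zero, pow_one, mul_one] <;> push_cast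
    · refine sq_of (a.mul hw) (z := 3 * x) (mul_ne_zero q3 h0) ?_
      ring
    · refine sq_of ((hs.mul (a.mul b)).mul hu) (z := 12 * m * x * (x - 9 * m) * (x + 7 * m))
        (mul_ne_zero (mul_ne_zero (mul_ne_zero (mul_ne_zero (by norm_num) hm') h0) h9) h7) ?_
      ring
  · refine ⟨1, 1, ?_, ?_⟩ <;> simp only [val1, pow_one] <;> push_cast
    · refine sq_of (a.mul hw) (z := x) h0 ?_
      ring
    · refine sq_of (b.mul hu) (z := 4 * (x - 9 * m)) (mul_ne_zero q4 h9) ?_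
      ring

/-- **The local condition at the odd primes dividing `m`.** -/
theorem ram (hp2 : p ≠ 2) {m w u : ℤ} (hm : Squarefree m) (hpm : (p : ℤ) ∣ m)
    (h : LocC ℚ_[p] 0 (9 * m) (-7 * m) w u) : ∃ α β : ZMod 2, TC ℚ_[p] m w u α β := by
  obtain ⟨x, h0, h9, h7, hs, hw, hu⟩ := unmk h
  have hm0 : m ≠ 0 := hm.ne_zero
  have hm' : (m : ℚ_[p]) ≠ 0 := by exact_mod_cast hm0
  have vm := val_one hpm hm
  have v16 : (16 * (m : ℚ_[p])).valuation = 1 := by
    have := v_unit hm0 (n16 hp2)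
    push_cast at this
    rw [this, vm]
  have E1 : x - 9 * (m : ℚ_[p]) - x = -(9 * m) := by ring
  have E2 : x + 7 * (m : ℚ_[p]) - x = 7 * m := by ring
  have E3 : x + 7 * (m : ℚ_[p]) - (x - 9 * m) = 16 * m := by ring
  have E1' : x - (x - 9 * (m : ℚ_[p])) = 9 * m := by ring
  have E2' : x - (x + 7 * (m : ℚ_[p])) = -(7 * m) := by ring
  have E3' : x - 9 * (m : ℚ_[p]) - (x + 7 * m) = -(16 * m) := by ring
  have q9 : (9 * (m : ℚ_[p])) ≠ 0 := mul_ne_zero (by norm_num) hm'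
  have q7 : (7 * (m : ℚ_[p])) ≠ 0 := mul_ne_zero (by norm_num) hm'
  have q16 : (16 * (m : ℚ_[p])) ≠ 0 := mul_ne_zero (by norm_num) hm'
  refine four hm0 h0 h9 h7 hs hw hu ?_
  have F9 : -9 * (m : ℚ_[p]) = -(9 * m) := by ring
  have F7 : -7 * (m : ℚ_[p]) = -(7 * m) := by ring
  have F16 : -16 * (m : ℚ_[p]) = -(16 * m) := by ring
  rw [F9, F7, F16]
  by_cases h77 : p = 7
  · have v9 : (9 * (m : ℚ_[p])).valuation = 1 := by
      have := v_unit (p := p) hm0 (n9 (by omega))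
      push_cast at this
      rw [this, vm]
    have v7 : (7 * (m : ℚ_[p])).valuation = 2 := by
      have h5' : (7 : ℚ_[p]) = ((p : ℕ) : ℚ_[p]) := by
        have := congrArg (Nat.cast : ℕ → ℚ_[p]) h77
        rw [this]
        norm_num
      rw [Padic.valuation_mul (by norm_num) hm', vm, h5', val_p]
      norm_num
    have hs' : IsSquare (x * (x + 7 * (m : ℚ_[p])) * (x - 9 * m)) := by
      have e : x * (x + 7 * (m : ℚ_[p])) * (x - 9 * m) = x * (x - 9 * m) * (x + 7 * m) := by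
        ring
      rwa [e]
    have := loc_ram hp2 (u := x) (v := x + 7 * (m : ℚ_[p])) (w := x - 9 * m) h0 h7 h9 hs'
      (by rw [E2]; exact q7) (by rw [E1]; exact neg_ne_zero.2 q9)
      (by rw [E3']; exact neg_ne_zero.2 q16) (l := 2) (k := 1) (by rw [E2, v7])
      (by rw [E1, val_neg, v9]) (by rw [E3', val_neg, v16]) (by norm_num) (by decide)
    rw [E2, E1, E2', E3', E1', E3] at this
    rcases this with ⟨a, b⟩ | ⟨a, b⟩ | ⟨a, b⟩ | ⟨a, b⟩
    · left
      refine ⟨a, sq_cancel (mul_ne_zero h0 h7) (a.mul b) hs'⟩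
    · right; left
      exact ⟨b, a⟩
    · right; right; right
      exact ⟨a, b⟩
    · right; right; left
      exact ⟨a, b⟩
  · have v7 : (7 * (m : ℚ_[p])).valuation = 1 := by
      have := v_unit (p := p) hm0 (n7 h77)
      push_cast at this
      rw [this, vm]
    obtain ⟨l, hl, v9⟩ : ∃ l : ℤ, 1 ≤ l ∧ (9 * (m : ℚ_[p])).valuation = l := by
      refine ⟨_, ?_, rfl⟩
      rw [Padic.valuation_mul (by norm_num) hm', vm]
      have : 0 ≤ (9 : ℚ_[p]).valuation := by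
        have e : (9 : ℚ_[p]) = ((9 : ℤ) : ℚ_[p]) := by norm_num
        rw [e, Padic.valuation_intCast]
        exact Int.natCast_nonneg _
      omega
    have := loc_ram hp2 (u := x) (v := x - 9 * (m : ℚ_[p])) (w := x + 7 * m) h0 h9 h7 hs
      (by rw [E1]; exact neg_ne_zero.2 q9) (by rw [E2]; exact q7)
      (by rw [E3]; exact q16) (l := l) (k := 1) (by rw [E1, val_neg, v9])
      (by rw [E2, v7]) (by rw [E3, v16]) hl (by decide)
    rw [E1, E2, E1', E3, E2', E3'] at this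
    exact this

/-- **The local condition at the good odd primes.** -/
theorem unr (hp2 : p ≠ 2) (hp3 : p ≠ 3) (hp7 : p ≠ 7) {m w u : ℤ} (hm0 : m ≠ 0)
    (hpm : ¬ (p : ℤ) ∣ m) (hd1 : Squarefree w) (hd2 : Squarefree u)
    (h : LocC ℚ_[p] 0 (9 * m) (-7 * m) w u) : ¬ (p : ℤ) ∣ w ∧ ¬ (p : ℤ) ∣ u := by
  obtain ⟨x, h0, h9, h7, hs, hw, hu⟩ := unmk h
  have hm' : (m : ℚ_[p]) ≠ 0 := by exact_mod_cast hm0
  have vm := val_zero hpm
  have v16 : (16 * (m : ℚ_[p])).valuation = 0 := by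
    have := v_unit hm0 (n16 hp2)
    push_cast at this
    rw [this, vm]
  have v9 : (9 * (m : ℚ_[p])).valuation = 0 := by
    have := v_unit hm0 (n9 hp3)
    push_cast at this
    rw [this, vm]
  have v7 : (7 * (m : ℚ_[p])).valuation = 0 := by
    have := v_unit hm0 (n7 hp7)
    push_cast at this
    rw [this, vm]
  have E1 : x - 9 * (m : ℚ_[p]) - x = -(9 * m) := by ring
  have E2 : x + 7 * (m : ℚ_[p]) - x = 7 * m := by ring
  have E3 : x + 7 * (m : ℚ_[p]) - (x - 9 * m) = 16 * m := by ring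
  have q9 : (9 * (m : ℚ_[p])) ≠ 0 := mul_ne_zero (by norm_num) hm'
  have q7 : (7 * (m : ℚ_[p])) ≠ 0 := mul_ne_zero (by norm_num) hm'
  have q16 : (16 * (m : ℚ_[p])) ≠ 0 := mul_ne_zero (by norm_num) hm'
  have := loc_unr hp2 (u := x) (v := x - 9 * (m : ℚ_[p])) (w := x + 7 * m) h0 h9 h7 hs
    (by rw [E1]; exact neg_ne_zero.2 q9) (by rw [E2]; exact q7)
    (by rw [E3]; exact q16) (l := 0) (k := 0) (by rw [E1, val_neg, v9])
    (by rw [E2, v7]) (by rw [E3, v16]) (by norm_num) (by decide) (by decide)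
    (fun h => absurd h (by norm_num))
  exact ⟨not_dvd_of_even h0 this.1 hd1 hw, not_dvd_of_even h9 this.2.1 hd2 hu⟩

end

instance f3 : Fact (Nat.Prime 3) := ⟨by norm_num⟩
instance f7 : Fact (Nat.Prime 7) := ⟨by norm_num⟩

lemma v93 {m : ℤ} (hm0 : m ≠ 0) (hpm : ¬ (3 : ℤ) ∣ m) : (9 * (m : ℚ_[3])).valuation = 2 := by
  have hm' : (m : ℚ_[3]) ≠ 0 := by exact_mod_cast hm0
  have e : 9 * (m : ℚ_[3]) = ((3 : ℕ) : ℚ_[3]) ^ 2 * m := by push_cast; ring
  rw [e, Padic.valuation_mul (by norm_num) hm', Padic.valuation_pow, val_p,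
    val_zero (p := 3) (n := m) (by exact_mod_cast hpm)]
  norm_num

lemma v73 {m : ℤ} (hm0 : m ≠ 0) (hpm : ¬ (3 : ℤ) ∣ m) : (7 * (m : ℚ_[3])).valuation = 0 := by
  have := v_unit (p := 3) hm0 (n7 (by norm_num))
  push_cast at this
  rw [this, val_zero (p := 3) (n := m) (by exact_mod_cast hpm)]

lemma v163 {m : ℤ} (hm0 : m ≠ 0) (hpm : ¬ (3 : ℤ) ∣ m) : (16 * (m : ℚ_[3])).valuation = 0 := by
  have := v_unit (p := 3) hm0 (n16 (by norm_num))
  push_cast at this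
  rw [this, val_zero (p := 3) (n := m) (by exact_mod_cast hpm)]

lemma dec3 : IsSquare ((1 : ZMod 3)) := ⟨1, rfl⟩

/-- **The prime `3`, nonsplit.** -/
theorem at3n {m w u : ℤ} (h3 : m % 3 = 2) (hd1 : Squarefree w) (hd2 : Squarefree u)
    (h : LocC ℚ_[3] 0 (9 * m) (-7 * m) w u) : ¬ (3 : ℤ) ∣ w ∧ ¬ (3 : ℤ) ∣ u := by
  obtain ⟨x, h0, h9, h7, hs, hw, hu⟩ := unmk h
  have hpm : ¬ (3 : ℤ) ∣ m := by omega
  have hm0 : m ≠ 0 := by omega
  have hm' : (m : ℚ_[3]) ≠ 0 := by exact_mod_cast hm0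
  have E1 : x - 9 * (m : ℚ_[3]) - x = -(9 * m) := by ring
  have E2 : x + 7 * (m : ℚ_[3]) - x = 7 * m := by ring
  have E3 : x + 7 * (m : ℚ_[3]) - (x - 9 * m) = 16 * m := by ring
  have q9 : (9 * (m : ℚ_[3])) ≠ 0 := mul_ne_zero (by norm_num) hm'
  have q7 : (7 * (m : ℚ_[3])) ≠ 0 := mul_ne_zero (by norm_num) hm'
  have q16 : (16 * (m : ℚ_[3])) ≠ 0 := mul_ne_zero (by norm_num) hm'
  have := loc_unr (p := 3) (by norm_num) (u := x) (v := x - 9 * (m : ℚ_[3])) (w := x + 7 * m)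
    h0 h9 h7 hs
    (by rw [E1]; exact neg_ne_zero.2 q9) (by rw [E2]; exact q7)
    (by rw [E3]; exact q16) (l := 2) (k := 0) (by rw [E1, val_neg, v93 hm0 hpm])
    (by rw [E2, v73 hm0 hpm]) (by rw [E3, v163 hm0 hpm]) (by norm_num) (by decide) (by decide)
    (fun _ hsq => by
      rw [E2] at hsq
      have h5 : IsSquare (((7 * m : ℤ)) : ℚ_[3]) := by push_cast; exact hsq
      have h6 := zmod_of_sq (p := 3) (n := 7 * m) h5
      have h7 : ((7 * m : ℤ) : ZMod 3) = 2 := by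
        have : ((7 * m : ℤ) : ZMod 3) = ((2 : ℤ) : ZMod 3) := by
          rw [ZMod.intCast_eq_intCast_iff]
          show (7 * m) % 3 = 2 % 3
          omega
        rw [this]
        rfl
      rw [h7] at h6
      revert h6
      decide)
  exact ⟨by exact_mod_cast not_dvd_of_even h0 this.1 hd1 hw,
    by exact_mod_cast not_dvd_of_even h9 this.2.1 hd2 hu⟩

/-- **The prime `3`, split.** -/
theorem at3s {m w u : ℤ} (h3 : m % 3 = 1) (h : LocC ℚ_[3] 0 (9 * m) (-7 * m) w u) :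
    IsSquare (((w * u : ℤ)) : ℚ_[3]) := by
  obtain ⟨x, h0, h9, h7, hs, hw, hu⟩ := unmk h
  have hpm : ¬ (3 : ℤ) ∣ m := by omega
  have hm0 : m ≠ 0 := by omega
  have hm' : (m : ℚ_[3]) ≠ 0 := by exact_mod_cast hm0
  have E1 : x - 9 * (m : ℚ_[3]) - x = -(9 * m) := by ring
  have E2 : x + 7 * (m : ℚ_[3]) - x = 7 * m := by ring
  have q9 : (9 * (m : ℚ_[3])) ≠ 0 := mul_ne_zero (by norm_num) hm'
  have q7 : (7 * (m : ℚ_[3])) ≠ 0 := mul_ne_zero (by norm_num) hm'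
  have sq7 : IsSquare (7 * (m : ℚ_[3])) := by
    have h5 : IsSquare (((7 * m : ℤ)) : ℚ_[3]) := sq_of_zmod (p := 3) (by norm_num)
      (by push_cast; omega) (by
        have : ((7 * m : ℤ) : ZMod 3) = ((1 : ℤ) : ZMod 3) := by
          rw [ZMod.intCast_eq_intCast_iff]
          show (7 * m) % 3 = 1 % 3
          omega
        rw [this]
        exact ⟨1, by norm_num⟩)
    push_cast at h5
    exact h5
  have hC : IsSquare (x + 7 * (m : ℚ_[3])) := by
    rcases node (p := 3) (by norm_num) h0 h9 h7 hs (by rw [E1]; exact neg_ne_zero.2 q9)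
      (by rw [E2]; exact q7) (n := 2) (by norm_num) (by rw [E1, val_neg, v93 hm0 hpm])
      (by rw [E2, v73 hm0 hpm]) with ⟨a, -⟩ | ⟨a, -⟩
    · exact a
    · rw [E2, mul_comm] at a
      exact sq_cancel q7 sq7 a
  push_cast
  refine sq_of (((hs.mul hC).mul hw).mul hu) (z := x * (x - 9 * m) * (x + 7 * m))
    (mul_ne_zero (mul_ne_zero h0 h9) h7) ?_
  ring

/-- **The prime `7`.** -/
theorem at7 {m w u : ℤ} (h7m : ¬ (7 : ℤ) ∣ m) (hw0 : w ≠ 0)
    (h : LocC ℚ_[7] 0 (9 * m) (-7 * m) w u) :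
    (IsSquare (u : ℚ_[7]) ∧ Even (w : ℚ_[7]).valuation) ∨
      (IsSquare (((u * -m : ℤ)) : ℚ_[7]) ∧
        (¬ IsSquare (((-m : ℤ)) : ℚ_[7]) → Odd (w : ℚ_[7]).valuation)) := by
  obtain ⟨x, h0, h9, h7, hs, hw, hu⟩ := unmk h
  have hm0 : m ≠ 0 := by omega
  have hm' : (m : ℚ_[7]) ≠ 0 := by exact_mod_cast hm0
  have hw' : (w : ℚ_[7]) ≠ 0 := by exact_mod_cast hw0
  have E1 : x - 9 * (m : ℚ_[7]) - x = -(9 * m) := by ring
  have E2 : x + 7 * (m : ℚ_[7]) - x = 7 * m := by ring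
  have q9 : (9 * (m : ℚ_[7])) ≠ 0 := mul_ne_zero (by norm_num) hm'
  have q7 : (7 * (m : ℚ_[7])) ≠ 0 := mul_ne_zero (by norm_num) hm'
  have vm := val_zero (p := 7) (n := m) (by exact_mod_cast h7m)
  have v9 : (9 * (m : ℚ_[7])).valuation = 0 := by
    have := v_unit (p := 7) hm0 (n9 (by norm_num))
    push_cast at this
    rw [this, vm]
  have v7 : (7 * (m : ℚ_[7])).valuation = 1 := by
    have e : 7 * (m : ℚ_[7]) = ((7 : ℕ) : ℚ_[7]) * m := by push_cast; ring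
    rw [e, Padic.valuation_mul (by norm_num) hm', val_p, vm]
    norm_num
  have hs' : IsSquare (x * (x + 7 * (m : ℚ_[7])) * (x - 9 * m)) := by
    have e : x * (x + 7 * (m : ℚ_[7])) * (x - 9 * m) = x * (x - 9 * m) * (x + 7 * m) := by
      ring
    rwa [e]
  have hev := even_val (mul_ne_zero h0 hw') hw
  rw [Padic.valuation_mul h0 hw'] at hev
  rcases node (p := 7) (by norm_num) h0 h7 h9 hs' (by rw [E2]; exact q7)
      (by rw [E1]; exact neg_ne_zero.2 q9) (n := 1) (by norm_num) (by rw [E2, v7])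
      (by rw [E1, val_neg, v9]) with ⟨a, b⟩ | ⟨a, b⟩
  · left
    refine ⟨sq_cancel h9 a hu, ?_⟩
    rwa [Int.even_add, iff_true_left b] at hev
  · right
    constructor
    · push_cast
      refine sq_of (a.mul hu) (z := 3 * (x - 9 * m)) (mul_ne_zero (by norm_num) h9) ?_
      ring
    · intro hns
      have h1 := b (by
        intro h2
        rw [E1] at h2
        apply hns
        push_cast
        refine sq_of h2 (z := 3) (by norm_num) ?_
        ring)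
      obtain ⟨r, hr⟩ := h1
      obtain ⟨s, hs⟩ := hev
      exact ⟨s - r, by omega⟩

end Pool.Agent.N809.D21
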