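import Pool.Agent.N809.PQ.P21
import Pool.Agent.N809.D21.Nod
import Pool.Agent.N875.P17.Cn1

/-!
# Square classes at the odd primes as additive functions
-/

set_option autoImplicit false

open Finset

namespace Pool.Agent.N809.D21

open Pool.Agent.N875.X15
open Pool.Agent.N875.P17
open Pool.Agent.TH841.SH (LocC SelG)

/-- additive on products -/
def Hom (F : ℤ → ZMod 2) : Prop := ∀ a b : ℤ, a ≠ 0 → b ≠ 0 → F (a * b) = F a + F b

section hom

variable {F : ℤ → ZMod 2} (hF : Hom F)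

include hF

lemma Hom.one : F 1 = 0 := by
  have h := hF 1 1 one_ne_zero one_ne_zero
  rw [mul_one] at h
  generalize F 1 = a at h
  revert a
  decide

lemma Hom.pw {a : ℤ} (ha : a ≠ 0) (e : ZMod 2) : F (a ^ e.val) = F a * e := by
  rcases z2 e with rfl | rfl
  · rw [val0, pow_zero, hF.one, mul_zero]
  · rw [val1, pow_one, mul_one]

lemma Hom.prod (s : Finset ℕ) (f : ℕ → ℤ) (e : ℕ → ZMod 2) (h : ∀ i ∈ s, f i ≠ 0) :
    F (∏ i ∈ s, f i ^ (e i).val) = ∑ i ∈ s, F (f i) * e i := by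
  classical
  induction s using Finset.induction_on with
  | empty => rw [Finset.prod_empty, Finset.sum_empty, hF.one]
  | insert a s ha ih =>
    have h1 := h a (Finset.mem_insert_self _ _)
    have h2 := fun i hi => h i (Finset.mem_insert_of_mem hi)
    rw [Finset.prod_insert ha, Finset.sum_insert ha, hF _ _ (pow_ne_zero _ h1)
      (Finset.prod_ne_zero_iff.2 fun i hi => pow_ne_zero _ (h2 i hi)), ih h2, hF.pw h1]

lemma Hom.prod1 (s : Finset ℕ) (f : ℕ → ℤ) (h : ∀ i ∈ s, f i ≠ 0) :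
    F (∏ i ∈ s, f i) = ∑ i ∈ s, F (f i) := by
  classical
  induction s using Finset.induction_on with
  | empty => rw [Finset.prod_empty, Finset.sum_empty, hF.one]
  | insert a s ha ih =>
    have h1 := h a (Finset.mem_insert_self _ _)
    have h2 := fun i hi => h i (Finset.mem_insert_of_mem hi)
    rw [Finset.prod_insert ha, Finset.sum_insert ha, hF _ _ h1
      (Finset.prod_ne_zero_iff.2 fun i hi => h2 i hi), ih h2]

end hom

/-- the parity of the valuation -/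
def vz (p : ℕ) (a : ℤ) : ZMod 2 := (padicValInt p a : ZMod 2)

/-- the class of the unit part -/
def rz (p : ℕ) (a : ℤ) : ZMod 2 := ra p (a / (p : ℤ) ^ (padicValInt p a))

section

variable {p : ℕ} [hp : Fact p.Prime]

lemma pvi {a a' : ℤ} {k : ℕ} (h : a = (p : ℤ) ^ k * a') (ha' : ¬ (p : ℤ) ∣ a') :
    padicValInt p a = k := by
  have ha0 : a' ≠ 0 := by rintro rfl; simp at ha'
  have hp0 : ((p : ℤ) ^ k) ≠ 0 := pow_ne_zero _ (by exact_mod_cast hp.out.ne_zero)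
  have h1 : padicValInt p a' = 0 := padicValInt.eq_zero_of_not_dvd ha'
  rw [h, padicValInt.mul hp0 ha0, h1, add_zero]
  unfold padicValInt
  rw [Int.natAbs_pow, Int.natAbs_natCast, padicValNat.prime_pow]

lemma dec {a : ℤ} (ha : a ≠ 0) : ∃ a' : ℤ, a = (p : ℤ) ^ (padicValInt p a) * a' ∧
    ¬ (p : ℤ) ∣ a' := by
  obtain ⟨a', ha'⟩ := padicValInt_dvd (p := p) a
  refine ⟨a', ha', ?_⟩
  rintro ⟨k, hk⟩
  have h1 : (p : ℤ) ^ (padicValInt p a + 1) ∣ a := ⟨k, by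
    rw [pow_succ, mul_assoc, ← hk]
    exact ha'⟩
  rcases (padicValInt_dvd_iff _ _).1 h1 with h2 | h2
  · exact ha h2
  · omega

lemma rz_of {a a' : ℤ} {k : ℕ} (h : a = (p : ℤ) ^ k * a') (ha' : ¬ (p : ℤ) ∣ a') :
    rz p a = ra p a' := by
  have hp0 : ((p : ℤ) ^ k) ≠ 0 := pow_ne_zero _ (by exact_mod_cast hp.out.ne_zero)
  unfold rz
  rw [pvi h ha', h, Int.mul_ediv_cancel_left _ hp0]

lemma vz_of {a a' : ℤ} {k : ℕ} (h : a = (p : ℤ) ^ k * a') (ha' : ¬ (p : ℤ) ∣ a') :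
    vz p a = (k : ZMod 2) := by
  unfold vz
  rw [pvi h ha']

lemma vz_hom : Hom (vz p) := by
  intro a b ha hb
  unfold vz
  rw [padicValInt.mul ha hb]
  push_cast
  rfl

lemma rz_hom (hp2 : p ≠ 2) : Hom (rz p) := by
  intro a b ha hb
  obtain ⟨a', h1, h2⟩ := dec (p := p) ha
  obtain ⟨b', h3, h4⟩ := dec (p := p) hb
  have h5 : a * b = (p : ℤ) ^ (padicValInt p a + padicValInt p b) * (a' * b') := by
    rw [pow_add]
    calc a * b = ((p : ℤ) ^ (padicValInt p a) * a') * ((p : ℤ) ^ (padicValInt p b) * b') := by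
          rw [← h1, ← h3]
      _ = _ := by ring
  rw [rz_of h5 (ndm h2 h4), rz_of h1 h2, rz_of h3 h4]
  exact ra_mul hp.out ((gd_odd hp2 _).2 h2) ((gd_odd hp2 _).2 h4)

lemma rz_unit {a : ℤ} (ha : ¬ (p : ℤ) ∣ a) : rz p a = ra p a :=
  rz_of (k := 0) (by rw [pow_zero, one_mul]) ha

lemma vz_unit {a : ℤ} (ha : ¬ (p : ℤ) ∣ a) : vz p a = 0 := by
  rw [vz_of (k := 0) (by rw [pow_zero, one_mul]) ha]
  rfl

lemma nd1 : ¬ (p : ℤ) ∣ 1 := by
  intro h
  have h3 : p ∣ 1 := by exact_mod_cast h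
  exact hp.out.one_lt.ne' (Nat.dvd_one.1 h3)

lemma vz_p : vz p (p : ℤ) = 1 := by
  rw [vz_of (p := p) (k := 1) (a' := 1) (by rw [pow_one, mul_one]) nd1]
  rfl

lemma rz_p : rz p (p : ℤ) = 0 := by
  rw [rz_of (p := p) (k := 1) (a' := 1) (by rw [pow_one, mul_one]) nd1]
  exact (ra_iff (gd_one hp.out)).2 ⟨1, by push_cast; ring⟩

lemma nd_neg {a : ℤ} (ha : ¬ (p : ℤ) ∣ a) : ¬ (p : ℤ) ∣ -a := by rwa [dvd_neg]

lemma vz_neg {a : ℤ} (ha : a ≠ 0) : vz p (-a) = vz p a := by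
  have e : -a = -1 * a := by ring
  rw [e, vz_hom _ _ (by norm_num) ha, vz_unit (nd_neg nd1), zero_add]

lemma val_pvi (a : ℤ) : (a : ℚ_[p]).valuation = (padicValInt p a : ℤ) := Padic.valuation_intCast a

lemma vz_even {a : ℤ} : vz p a = 0 ↔ Even (a : ℚ_[p]).valuation := by
  unfold vz
  rw [val_pvi]
  have h := ZMod.natCast_eq_zero_iff_even (n := padicValInt p a)
  rw [h]
  exact (Int.even_coe_nat _).symm

lemma vz_odd {a : ℤ} : vz p a = 1 ↔ Odd (a : ℚ_[p]).valuation := by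
  rw [← Int.not_even_iff_odd, ← vz_even]
  rcases z2 (vz p a) with h | h <;> rw [h] <;> decide

/-- squares -/
theorem sq_iff (hp2 : p ≠ 2) {a : ℤ} (ha : a ≠ 0) :
    IsSquare (a : ℚ_[p]) ↔ vz p a = 0 ∧ rz p a = 0 := by
  obtain ⟨a', h1, h2⟩ := dec (p := p) ha
  have ha' : (a : ℚ_[p]) ≠ 0 := by exact_mod_cast ha
  have hp0 : (p : ℚ_[p]) ≠ 0 := by exact_mod_cast hp.out.ne_zero
  have key : vz p a = 0 → (IsSquare (a : ℚ_[p]) ↔ rz p a = 0) := by
    intro h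
    rw [vz_even, val_pvi] at h
    obtain ⟨r, hr⟩ := h
    have hr0 : 0 ≤ r := by omega
    obtain ⟨n, rfl⟩ := Int.eq_ofNat_of_zero_le hr0
    have hn : padicValInt p a = n + n := by exact_mod_cast hr
    rw [rz_of h1 h2, ra_iff ((gd_odd hp2 _).2 h2)]
    have e : (a : ℚ_[p]) = ((p : ℚ_[p]) ^ n * (p : ℚ_[p]) ^ n) * (a' : ℚ_[p]) := by
      have h3 : a = ((p : ℤ) ^ n * (p : ℤ) ^ n) * a' := by
        rw [← pow_add, ← hn]
        exact h1
      have h4 := congrArg (Int.cast : ℤ → ℚ_[p]) h3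
      push_cast at h4
      exact h4
    have hn0 : (p : ℚ_[p]) ^ n ≠ 0 := pow_ne_zero _ hp0
    rw [e]
    constructor
    · exact sq_cancel (mul_ne_zero hn0 hn0) (IsSquare.mul_self _)
    · exact fun h => (IsSquare.mul_self _).mul h
  constructor
  · intro h
    have h0 : vz p a = 0 := vz_even.2 (even_val ha' h)
    exact ⟨h0, (key h0).1 h⟩
  · rintro ⟨h3, h4⟩
    exact (key h3).2 h4

/-- the torsion classes as linear equations -/
theorem TC_iff (hp2 : p ≠ 2) {m w u : ℤ} (hm : m ≠ 0) (hw : w ≠ 0) (hu : u ≠ 0) (α β : ZMod 2) :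
    TC ℚ_[p] m w u α β ↔
      (vz p w + vz p m * α + vz p (-7) * β = 0 ∧ rz p w + rz p m * α + rz p (-7) * β = 0) ∧
      (vz p u + vz p m * β = 0 ∧ rz p u + rz p (-m) * β = 0) := by
  have h7 : (-7 : ℤ) ≠ 0 := by norm_num
  have hm' : -m ≠ 0 := neg_ne_zero.2 hm
  have hv := vz_hom (p := p)
  have hr := rz_hom hp2
  unfold TC
  rw [sq_iff hp2 (mul_ne_zero (mul_ne_zero hw (pow_ne_zero _ hm)) (pow_ne_zero _ h7)),
    sq_iff hp2 (mul_ne_zero hu (pow_ne_zero _ hm')),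
    hv _ _ (mul_ne_zero hw (pow_ne_zero _ hm)) (pow_ne_zero _ h7), hv _ _ hw (pow_ne_zero _ hm),
    hr _ _ (mul_ne_zero hw (pow_ne_zero _ hm)) (pow_ne_zero _ h7), hr _ _ hw (pow_ne_zero _ hm),
    hv _ _ hu (pow_ne_zero _ hm'), hr _ _ hu (pow_ne_zero _ hm'), hv.pw hm, hv.pw h7, hr.pw hm,
    hr.pw h7, hv.pw hm', hr.pw hm', vz_neg hm]

end

end Pool.Agent.N809.D21
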