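import Pool.Agent.N875.P17.Cn4
import Pool.Agent.N809.PQ.Def

/-!
# The curves `E_m : y² = x (x - 9 m) (x + 7 m)`: rank zero and `Ш[2] = 0` and the number of the
# everywhere locally soluble classes
-/

set_option autoImplicit false

open Finset

namespace Pool.Agent.N809.D21

open WeierstrassCurve
open Pool.Agent.N875.X15 hiding Em EQm T4 T4_card T4_two nonsing isR WS Em_Δ EQm_Δ_ne vrS
open Pool.Agent.N875.P17 (cls_sq int_eq_of_sq sqf_neg q_even sq_of_int)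
open Pool.Agent.TH841.SH (LocC SelG selHom IsR IsX toSha)
open Pool.Agent.W262.SH (Sha QB Pt)
open Pool.Agent.H437R2.Man.MW (crv pt_fg)
open Pool.Agent.Y214.SX (card_ker card_two index_double)
open Pool.Agent.Y700 (VR)
open Pool.Agent.Z702 (S_TRN)

open scoped Classical

/-- `y² = x (x - 9 m) (x + 7 m)` -/
def Em (m : ℤ) : WeierstrassCurve ℤ := ⟨0, -2 * m, 0, -63 * m ^ 2, 0⟩

/-- the curve over `ℚ` -/
abbrev EQm (m : ℤ) : WeierstrassCurve ℚ := (Em m).map (Int.castRingHom ℚ)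

lemma isR (m : ℤ) : IsR (EQm m) ((0 : ℤ) : ℚ) ((9 * m : ℤ) : ℚ) ((-7 * m : ℤ) : ℚ) := by
  refine ⟨?_, ?_, ?_, ?_, ?_⟩ <;> simp [Em] <;> ring

/-- a point of order two -/
lemma nonsing {m : ℤ} (hm : m ≠ 0) {x : ℚ} (hx : x * (x - 9 * m) * (x + 7 * m) = 0) :
    (EQm m).toAffine.Nonsingular x 0 := by
  have hm' : (m : ℚ) ≠ 0 := by exact_mod_cast hm
  rw [Affine.nonsingular_iff, Affine.equation_iff]
  simp only [Em, map_a₁, map_a₂, map_a₃, map_a₄, map_a₆, eq_intCast]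
  push_cast
  constructor
  · linear_combination -hx
  · left
    intro h
    rcases mul_eq_zero.1 hx with h1 | h1
    · rcases mul_eq_zero.1 h1 with h2 | h2
      · rw [h2] at h
        apply hm'
        have h3 : (m : ℚ) ^ 2 = 0 := by linear_combination (1 / 63 : ℚ) * h
        exact pow_eq_zero_iff (two_ne_zero) |>.1 h3
      · have h4 : x = 9 * m := by linear_combination h2
        rw [h4] at h
        apply hm'
        have h3 : (m : ℚ) ^ 2 = 0 := by linear_combination (-1 / 144 : ℚ) * h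
        exact pow_eq_zero_iff (two_ne_zero) |>.1 h3
    · have h4 : x = -7 * m := by linear_combination h1
      rw [h4] at h
      apply hm'
      have h3 : (m : ℚ) ^ 2 = 0 := by linear_combination (-1 / 112 : ℚ) * h
      exact pow_eq_zero_iff (two_ne_zero) |>.1 h3

/-- the points of order two -/
noncomputable def T4 {m : ℤ} (hm : m ≠ 0) : Finset (EQm m).toAffine.Point :=
  {0, .some 0 0 (nonsing hm (by simp)), .some (9 * m) 0 (nonsing hm (by ring)),
    .some (-7 * m) 0 (nonsing hm (by ring))}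

lemma T4_card {m : ℤ} (hm : m ≠ 0) : (T4 hm).card = 4 := by
  classical
  have hm' : (m : ℚ) ≠ 0 := by exact_mod_cast hm
  unfold T4
  have e : ∀ (x y : ℚ) (h : (EQm m).toAffine.Nonsingular x 0)
      (h' : (EQm m).toAffine.Nonsingular y 0), (Affine.Point.some x 0 h : (EQm m).toAffine.Point) =
      .some y 0 h' → x = y := by
    intro x y h h' h1
    injection h1
  rw [Finset.card_insert_of_notMem, Finset.card_insert_of_notMem, Finset.card_insert_of_notMem,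
    Finset.card_singleton]
  · rw [Finset.mem_singleton]
    intro h
    have h1 := e _ _ _ _ h
    apply hm'
    linear_combination (1 / 16 : ℚ) * h1
  · rw [Finset.mem_insert, Finset.mem_singleton]
    rintro (h | h)
    · have h1 := e _ _ _ _ h
      apply hm'
      linear_combination (-1 / 9 : ℚ) * h1
    · have h1 := e _ _ _ _ h
      apply hm'
      linear_combination (1 / 7 : ℚ) * h1
  · rw [Finset.mem_insert, Finset.mem_insert, Finset.mem_singleton]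
    rintro (h | h | h)
    · exact absurd h.symm (Affine.Point.some_ne_zero _)
    · exact absurd h.symm (Affine.Point.some_ne_zero _)
    · exact absurd h.symm (Affine.Point.some_ne_zero _)

lemma T4_two {m : ℤ} (hm : m ≠ 0) : ∀ g ∈ T4 hm, g + g = 0 := by
  classical
  intro g hg
  unfold T4 at hg
  have key : ∀ (x : ℚ) (h : (EQm m).toAffine.Nonsingular x 0),
      (Affine.Point.some x 0 h : (EQm m).toAffine.Point) + .some x 0 h = 0 := by
    intro x h
    refine Affine.Point.add_of_Y_eq rfl ?_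
    rw [Affine.negY]
    simp [Em]
  rw [Finset.mem_insert, Finset.mem_insert, Finset.mem_insert, Finset.mem_singleton] at hg
  rcases hg with rfl | rfl | rfl | rfl
  · exact add_zero 0
  · exact key _ _
  · exact key _ _
  · exact key _ _

/-- **Rank zero and `Ш[2^∞] = 0`.** -/
theorem rank_sha {m : ℤ} (hm : Squarefree m) (hfin : (SelG 0 (9 * m) (-7 * m)).Finite)
    (hcard : (SelG 0 (9 * m) (-7 * m)).ncard ≤ 4) :
    Module.finrank ℤ (EQm m).toAffine.Point = 0 ∧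
    ∀ (k : ℕ) (x : Pool.Agent.TH841.SH.D.Sha (EQm m)), (2 ^ k : ℕ) • x = 0 → x = 0 := by
  have hm0 : m ≠ 0 := hm.ne_zero
  obtain ⟨h1, h2⟩ := Pool.Agent.Y667.SHA.main4 (EQm m) 0 (9 * m) (-7 * m) (isR m)
    (by omega) (by omega) (by omega) hfin (T4 hm0) (T4_card hm0).ge (T4_two hm0)
  have h3 := h2.trans hcard
  have hpos : 0 < Nat.card {x : Sha (EQm m) // x + x = 0} := by
    have : Nonempty {x : Sha (EQm m) // x + x = 0} := ⟨⟨0, add_zero 0⟩⟩
    exact Nat.card_pos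
  have h5 : 2 ^ (Module.finrank ℤ (EQm m).toAffine.Point + 2) ≤ 2 ^ 2 :=
    (Nat.le_mul_of_pos_right _ hpos).trans h3
  have h6 := (Nat.pow_le_pow_iff_right (by norm_num : 1 < 2)).1 h5
  have h7 : Module.finrank ℤ (EQm m).toAffine.Point = 0 := by omega
  refine ⟨h7, ?_⟩
  rw [h7] at h3
  have h8 : Nat.card {x : Sha (EQm m) // x + x = 0} ≤ 1 := by omega
  have h9 : ∀ x : Sha (EQm m), x + x = 0 → x = 0 := by
    intro x hx
    have h10 : Subsingleton {x : Sha (EQm m) // x + x = 0} := by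
      rw [← Finite.card_le_one_iff_subsingleton]
      exact h8
    have := h10.elim ⟨x, hx⟩ ⟨0, add_zero 0⟩
    exact congrArg Subtype.val this
  refine fun k => Pool.Agent.Y667.SHA.no_tor (fun x hx => ?_) k
  have h11 := h9 (Pool.Agent.TH841.SH.D.eSha (EQm m) x) (by rw [← map_add, hx, map_zero])
  rwa [EmbeddingLike.map_eq_zero_iff] at h11

lemma fg_E {m : ℤ} (hm : m ≠ 0) : AddGroup.FG (EQm m).toAffine.Point := by
  have h := isR m
  have hm' : (m : ℚ) ≠ 0 := by exact_mod_cast hm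
  have hW : EQm m = crv (-(((0 : ℤ)) : ℚ)) (-((9 * m : ℤ) : ℚ)) (-((-7 * m : ℤ) : ℚ)) := by
    apply WeierstrassCurve.ext
    · rw [h.h1]
      rfl
    · rw [h.h2]
      show _ = -(((0 : ℤ)) : ℚ) + -((9 * m : ℤ) : ℚ) + -((-7 * m : ℤ) : ℚ)
      ring
    · rw [h.h3]
      rfl
    · rw [h.h4]
      show _ = -(((0 : ℤ)) : ℚ) * -((9 * m : ℤ) : ℚ) + -(((0 : ℤ)) : ℚ) * -((-7 * m : ℤ) : ℚ) +
        -((9 * m : ℤ) : ℚ) * -((-7 * m : ℤ) : ℚ)
      ring
    · rw [h.h6]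
      show _ = -(((0 : ℤ)) : ℚ) * -((9 * m : ℤ) : ℚ) * -((-7 * m : ℤ) : ℚ)
      ring
  rw [hW]
  refine pt_fg ?_ ?_ ?_
  · intro h1
    apply hm'
    push_cast at h1
    linear_combination (1 / 9 : ℚ) * h1
  · intro h1
    apply hm'
    push_cast at h1
    linear_combination (-1 / 7 : ℚ) * h1
  · intro h1
    apply hm'
    push_cast at h1
    linear_combination (-1 / 16 : ℚ) * h1

/-- at most four Selmer classes -/
theorem fin2_of_sel {m : ℤ} (hm : Squarefree m) (hfin : (SelG 0 (9 * m) (-7 * m)).Finite)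
    (hcard : (SelG 0 (9 * m) (-7 * m)).ncard ≤ 4) : Fin2 (EQm m) := by
  obtain ⟨h1, h2⟩ := rank_sha hm hfin hcard
  exact ⟨fin_of_rank (fg_E hm.ne_zero) h1, fun x hx => h2 1 x (by rwa [pow_one, two_nsmul])⟩

/-- the short equation of the twist by `m` -/
def WS (m : ℤ) : WeierstrassCurve ℚ :=
  ⟨0, 0, 0, ((-5211 * m ^ 2 : ℤ) : ℚ), ((-31050 * m ^ 3 : ℤ) : ℚ)⟩

theorem Em_Δ (m : ℤ) : (Em m).Δ = 2 ^ 12 * 3 ^ 4 * 7 ^ 2 * m ^ 6 := by
  simp only [Em, WeierstrassCurve.Δ, WeierstrassCurve.b₂, WeierstrassCurve.b₄,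
    WeierstrassCurve.b₆, WeierstrassCurve.b₈]
  ring

theorem EQm_Δ_ne {m : ℤ} (hm : m ≠ 0) : (EQm m).Δ ≠ 0 := by
  rw [WeierstrassCurve.map_Δ, Em_Δ]
  show ((2 ^ 12 * 3 ^ 4 * 7 ^ 2 * m ^ 6 : ℤ) : ℚ) ≠ 0
  have : (2 ^ 12 * 3 ^ 4 * 7 ^ 2 * m ^ 6 : ℤ) ≠ 0 := mul_ne_zero (by norm_num) (pow_ne_zero 6 hm)
  exact_mod_cast this

theorem vrS (m : ℤ) : VR (WS m) (EQm m) 3 (-6 * m) 0 0 := by
  refine ⟨by norm_num, ?_, ?_, ?_, ?_, ?_⟩
  · show (3 : ℚ) * (((0 : ℤ)) : ℚ) = 0 + 2 * 0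
    norm_num
  · show (3 : ℚ) ^ 2 * (((-2 * m : ℤ)) : ℚ) = 0 - 0 * 0 + 3 * (-6 * m) - 0 ^ 2
    push_cast
    ring
  · show (3 : ℚ) ^ 3 * (((0 : ℤ)) : ℚ) = 0 + (-6 * m) * 0 + 2 * 0
    norm_num
  · show (3 : ℚ) ^ 4 * (((-63 * m ^ 2 : ℤ)) : ℚ) = ((-5211 * m ^ 2 : ℤ) : ℚ) - 0 * 0 +
      2 * (-6 * m) * 0 - (0 + -6 * m * 0) * 0 + 3 * (-6 * m) ^ 2 - 2 * 0 * 0
    push_cast
    ring
  · show (3 : ℚ) ^ 6 * (((0 : ℤ)) : ℚ) = ((-31050 * m ^ 3 : ℤ) : ℚ) +
      (-6 * m) * ((-5211 * m ^ 2 : ℤ) : ℚ) +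
      (-6 * m) ^ 2 * 0 + (-6 * m) ^ 3 - 0 * 0 - 0 ^ 2 - (-6 * m) * 0 * 0
    push_cast
    ring

/-- transport between the equations -/
theorem fin2_S {m : ℤ} (hm : m ≠ 0) : Fin2 (WS m) ↔ Fin2 (EQm m) := by
  have hT : S_TRN := Pool.Agent.Z932.Z702.t_TRN
  obtain ⟨h1, h2, -⟩ := hT _ _ _ _ _ _ (vrS m) (EQm_Δ_ne hm)
  exact and_congr h1 h2

/-- the number of the Selmer homomorphisms -/
theorem card_selHom {m : ℤ} (hm : m ≠ 0) (hf : Fin2 (EQm m)) : Nat.card (selHom (EQm m)) = 4 := by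
  obtain ⟨hfin, hsha⟩ := hf
  have hm' : (m : ℚ) ≠ 0 := by exact_mod_cast hm
  have q12 : (((0 : ℤ)) : ℚ) ≠ ((9 * m : ℤ) : ℚ) := by
    push_cast
    intro h
    apply hm'
    linear_combination (-1 / 9 : ℚ) * h
  have q13 : (((0 : ℤ)) : ℚ) ≠ ((-7 * m : ℤ) : ℚ) := by
    push_cast
    intro h
    apply hm'
    linear_combination (1 / 7 : ℚ) * h
  have q23 : ((9 * m : ℤ) : ℚ) ≠ ((-7 * m : ℤ) : ℚ) := by
    push_cast
    intro h
    apply hm'
    linear_combination (1 / 16 : ℚ) * h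
  have hR := isR m
  have hsha' : ∀ x : Pool.Agent.W262.SH.Sha (EQm m), x + x = 0 → x = 0 := by
    intro x hx
    have h1 := hsha ((Pool.Agent.TH841.SH.D.eSha (EQm m)).symm x) (by
      rw [← map_add, hx, map_zero])
    rwa [EmbeddingLike.map_eq_zero_iff] at h1
  have hker : (toSha hR).ker = ⊤ := by
    rw [AddSubgroup.eq_top_iff']
    intro f
    rw [AddMonoidHom.mem_ker]
    apply hsha'
    rw [← map_add]
    have : f + f = 0 := by
      apply Subtype.ext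
      funext σ
      exact f.2.2.1 σ
    rw [this, map_zero]
  have h1 := card_ker hR q12 q13 q23
  rw [hker, Nat.card_congr AddSubgroup.topEquiv.toEquiv, index_double] at h1
  rw [h1, ← card_two hR q12 q13 q23]
  refine Nat.card_congr (Equiv.subtypeEquivRight fun x => ?_)
  rw [AddMonoidHom.mem_ker, nsmulAddMonoidHom_apply, two_nsmul]

/-- everywhere locally soluble -/
def EL (m : ℤ) (d : ℤ × ℤ) : Prop := d.1 ≠ 0 ∧ d.2 ≠ 0 ∧
  LocC ℝ 0 (9 * m) (-7 * m) d.1 d.2 ∧ ∀ (p : ℕ) [Fact p.Prime], LocC ℚ_[p] 0 (9 * m) (-7 * m) d.1 d.2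

/-- four classes at most -/
theorem not_five {m : ℤ} (hm : m ≠ 0) (hf : Fin2 (EQm m)) (d : Fin 5 → ℤ × ℤ)
    (hd : ∀ i, EL m (d i)) (hne : ∀ i j, i < j → ¬ (IsSquare (((d i).1 : ℚ) * (d j).1) ∧
      IsSquare (((d i).2 : ℚ) * (d j).2))) : False := by
  have hR := isR m
  have hex : ∀ i, ∃ f : selHom (EQm m), (∀ s : QB, s ^ 2 = ((d i).1 : ℤ) →
      ∀ σ : QB ≃ₐ[ℚ] QB, σ s = s ↔
        IsX ((EQm m).baseChange QB) (algebraMap ℚ QB ((0 : ℤ) : ℚ)) (f.1 σ)) ∧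
      ∀ s : QB, s ^ 2 = ((d i).2 : ℤ) → ∀ σ : QB ≃ₐ[ℚ] QB, σ s = s ↔
        IsX ((EQm m).baseChange QB) (algebraMap ℚ QB ((9 * m : ℤ) : ℚ)) (f.1 σ) := by
    intro i
    obtain ⟨n1, n2, h1, h2⟩ := hd i
    obtain ⟨f, hf, f1, f2⟩ := Pool.Agent.Z864.SX.exists_hom hR (by omega) (by omega) (by omega)
      n1 n2 h1 (fun p _ => h2 p)
    exact ⟨⟨f, hf⟩, f1, f2⟩
  choose Ψ h1 h2 using hex
  have hinj : Function.Injective Ψ := by
    have key : ∀ i j, Ψ i = Ψ j → IsSquare (((d i).1 : ℚ) * (d j).1) ∧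
        IsSquare (((d i).2 : ℚ) * (d j).2) := by
      intro i j hij
      constructor
      · apply cls_sq
        intro s t hs ht σ
        rw [h1 i s hs σ, h1 j t ht σ, hij]
      · apply cls_sq
        intro s t hs ht σ
        rw [h2 i s hs σ, h2 j t ht σ, hij]
    intro i j hij
    rcases lt_trichotomy i j with h | h | h
    · exact absurd (key i j hij) (hne i j h)
    · exact h
    · exact absurd (key j i hij.symm) (hne j i h)
  have hc := card_selHom hm hf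
  have hfin : Finite (selHom (EQm m)) := Nat.finite_of_card_ne_zero (by rw [hc]; norm_num)
  have h5 := Nat.card_le_card_of_injective Ψ hinj
  rw [hc, Nat.card_eq_fintype_card, Fintype.card_fin] at h5
  omega

end Pool.Agent.N809.D21
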