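import Pool.Agent.N809.D21.Lw
import Pool.Agent.N809.D21.Crv

/-!
# Rank zero and `Ш[2] = 0` imply that the symmetric system of level 21 has only the trivial solutions
-/

set_option autoImplicit false

open Finset

namespace Pool.Agent.N809.D21

open Pool.Agent.N875.X15 hiding Em EQm T4 T4_card T4_two nonsing isR WS Em_Δ EQm_Δ_ne vrS
open Pool.Agent.N875.P17 (ra_two oz al Lm hz cases5 sq_of)
open Pool.Agent.N809.PQ (ra3 ra7 ps7 al7 Lm7 Lm7_two ra_m3 ra_m7 prime_PR dvd_PR PR_of_dvd C3 C7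
  Sol21 Sg21)
open Pool.Agent.TH841.SH (LocC SelG)

/-- the sign -/
def sgn (n : ℤ) : ZMod 2 := if n < 0 then 1 else 0

lemma sgn_hom : Hom sgn := by
  intro a b ha hb
  unfold sgn
  rcases lt_or_gt_of_ne ha with h1 | h1 <;> rcases lt_or_gt_of_ne hb with h2 | h2
  · rw [if_pos h1, if_pos h2, if_neg (not_lt.2 (mul_pos_of_neg_of_neg h1 h2).le)]
    rfl
  · rw [if_pos h1, if_neg (not_lt.2 h2.le), if_pos (mul_neg_of_neg_of_pos h1 h2)]
    rfl
  · rw [if_neg (not_lt.2 h1.le), if_pos h2, if_pos (mul_neg_of_pos_of_neg h1 h2)]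
    rfl
  · rw [if_neg (not_lt.2 h1.le), if_neg (not_lt.2 h2.le), if_neg (not_lt.2 (mul_pos h1 h2).le)]
    rfl

lemma sgn_zero {n : ℤ} (hn : n ≠ 0) : sgn n = 0 ↔ 0 < n := by
  unfold sgn
  by_cases h : n < 0
  · rw [if_pos h]
    constructor
    · intro h2
      exact absurd h2 (by decide)
    · intro h2
      omega
  · rw [if_neg h]
    constructor
    · intro _
      omega
    · intro _
      rfl

section

variable {m : ℤ} {x y : ℕ → ZMod 2} {s a c : ZMod 2}

lemma sgn_W (hs : Squarefree m) : sgn (Wp m y a c) = a + c + ∑ q ∈ PR m, al m q * y q := by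
  rw [F_W hs sgn_hom]
  have e1 : sgn (-3) = 1 := by decide
  have e2 : sgn (-7) = 1 := by decide
  rw [e1, e2, one_mul, one_mul]
  rfl

lemma sgn_U (hs : Squarefree m) : sgn (Up m x s a) = s := by
  rw [F_U hs sgn_hom]
  have e1 : sgn (-1) = 1 := by decide
  have e2 : sgn 3 = 0 := by decide
  have e3 : ∑ q ∈ PR m, sgn ((q : ℕ) : ℤ) * x q = 0 := by
    refine Finset.sum_eq_zero fun q _ => ?_
    have : sgn ((q : ℕ) : ℤ) = 0 := if_neg (by omega)
    rw [this, zero_mul]
  rw [e1, e2, e3]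
  ring

/-- **The solutions of the system are everywhere locally soluble classes.** -/
theorem el_of_sol (hs : Squarefree m) (h : Sol21 m x y s a c) :
    EL m (Wp m y a c, Up m x s a) := by
  have hm0 := hs.ne_zero
  have hW := Wp_ne (m := m) (y := y) (a := a) (c := c) hs
  have hU := Up_ne (m := m) (x := x) (s := s) (a := a) hs
  refine ⟨hW, hU, ?_, ?_⟩
  · show LocC ℝ 0 (9 * m) (-7 * m) (Wp m y a c) (Up m x s a)
    refine (real_iff hm0 hW hU).2 ⟨fun hm => ?_, fun hm => ?_⟩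
    · rw [← sgn_zero (mul_ne_zero hW hU), sgn_hom _ _ hW hU, sgn_W hs, sgn_U hs]
      linear_combination h.sgn hm
    · rw [← sgn_zero hU, sgn_U hs]
      exact h.s0 hm
  · intro p hp
    show LocC ℚ_[p] 0 (9 * m) (-7 * m) (Wp m y a c) (Up m x s a)
    by_cases hp2 : p = 2
    · subst hp2
      exact suff2 hs (h.row 2) (h.col 2)
    · by_cases hpP : p ∈ PR m
      · refine (ram_iff hp2 hs (dvd_PR hs hpP hp2) hW hU).2 ⟨?_, ?_⟩
        · rw [col_eq hs hp2 hpP h.a0]
          exact h.col p hpP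
        · rw [row_eq hs hp2 hpP h.a0 h.c0]
          exact h.row p hpP
      · have hpm : ¬ (p : ℤ) ∣ m := fun h => hpP (PR_of_dvd hs hp.out h)
        have v1 := vz_W_out (y := y) (a := a) (c := c) hs hp2 hpP
        have v2 := vz_U_out (x := x) (s := s) (a := a) hs hp2 hpP
        by_cases hp3 : p = 3
        · subst hp3
          have hm3 : ¬ (3 : ℤ) ∣ m := by exact_mod_cast hpm
          rw [if_pos rfl, if_neg (by norm_num), add_zero] at v1
          rw [if_pos rfl] at v2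
          rcases (by omega : m % 3 = 1 ∨ m % 3 = 2) with h3 | h3
          · refine (three_s h3 hW hU).2 ⟨?_, ?_⟩
            · rw [v1, v2]
              linear_combination a * h20
            · rw [at3_eq hs hm3]
              exact h.at3 h3
          · have ha : a = 0 := h.a0 (by unfold C3; omega)
            exact three_n h3 hW hU (by rw [v1, ha]) (by rw [v2, ha])
        · by_cases hp7 : p = 7
          · subst hp7
            have hm7 : ¬ (7 : ℤ) ∣ m := by exact_mod_cast hpm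
            rw [if_neg (by norm_num), if_pos rfl, zero_add] at v1
            rw [if_neg (by norm_num)] at v2
            have h7 := h.at7 hm7
            have e7 := at7_eq (x := x) (s := s) (a := a) hs hm7
            by_cases hC : C7 m
            · rw [if_pos hC, add_zero] at h7
              exact (seven_s hC hW hU).2 ⟨v2, by rw [e7]; exact h7⟩
            · rw [if_neg hC] at h7
              refine (seven_n (by unfold C7 at hC; omega) hW hU).2 ⟨v2, ?_⟩
              rw [e7, v1]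
              linear_combination h7 - c * h20
          · rw [if_neg hp3, if_neg hp7, add_zero] at v1
            rw [if_neg hp3] at v2
            exact good_z hp2 hp3 hp7 hpm hW hU v1 v2

/-- additive functions vanish on squares -/
lemma hom_sq {F : ℤ → ZMod 2} (hF : Hom F) {n : ℤ} (hn : n ≠ 0) (h : IsSquare (n : ℚ)) :
    F n = 0 := by
  rw [Rat.isSquare_intCast_iff] at h
  obtain ⟨r, hr⟩ := h
  have hr0 : r ≠ 0 := by
    rintro rfl
    exact hn (by rw [hr, mul_zero])
  rw [hr, hF _ _ hr0 hr0]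
  linear_combination F r * h20

lemma vz2_m (hs : Squarefree m) : vz 2 m = if ((2 : ℕ) : ℤ) ∣ m then 1 else 0 := by
  by_cases h : ((2 : ℕ) : ℤ) ∣ m
  · rw [if_pos h]
    exact vz_m (p := 2) hs h
  · rw [if_neg h]
    exact vz_unit (p := 2) h

/-- **The solutions whose classes are the classes of the torsion points** -/
theorem triv (hs : Squarefree m) (h : Sol21 m x y s a c) (α β : ZMod 2)
    (h1 : IsSquare (((Wp m y a c * m ^ α.val * (-7) ^ β.val : ℤ)) : ℚ))
    (h2 : IsSquare (((Up m x s a * (-m) ^ β.val : ℤ)) : ℚ)) :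
    a = 0 ∧ s = (if 0 < m then β else 0) ∧ c = (if (7 : ℤ) ∣ m then 0 else β) ∧
    (∀ p ∈ PR m, x p = if (p : ℤ) ∣ m then β else 0) ∧
    ∀ q ∈ PR m, y q = α + if q = 7 then β else 0 := by
  have hm0 := hs.ne_zero
  have hm1 : -m ≠ 0 := neg_ne_zero.2 hm0
  have hW := Wp_ne (m := m) (y := y) (a := a) (c := c) hs
  have hU := Up_ne (m := m) (x := x) (s := s) (a := a) hs
  have h7 : (-7 : ℤ) ≠ 0 := by norm_num
  have FW : ∀ F : ℤ → ZMod 2, Hom F → F (Wp m y a c) + F m * α + F (-7) * β = 0 := by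
    intro F hF
    have h3 := hom_sq hF (mul_ne_zero (mul_ne_zero hW (pow_ne_zero _ hm0)) (pow_ne_zero _ h7)) h1
    rwa [hF _ _ (mul_ne_zero hW (pow_ne_zero _ hm0)) (pow_ne_zero _ h7),
      hF _ _ hW (pow_ne_zero _ hm0), hF.pw hm0, hF.pw h7] at h3
  have FU : ∀ F : ℤ → ZMod 2, Hom F → F (Up m x s a) + F (-m) * β = 0 := by
    intro F hF
    have h3 := hom_sq hF (mul_ne_zero hU (pow_ne_zero _ hm1)) h2
    rwa [hF _ _ hU (pow_ne_zero _ hm1), hF.pw hm1] at h3
  refine ⟨?_, ?_, ?_, ?_, ?_⟩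
  · by_cases h3 : (3 : ℤ) ∣ m
    · exact h.a0 (by unfold C3; omega)
    · have h4 := FU _ (vz_hom (p := 3))
      rw [vz_U_out (p := 3) hs (by norm_num) (out3 hs h3), if_pos rfl, vz_neg (p := 3) hm0,
        vz_unit (p := 3) h3, zero_mul, add_zero] at h4
      exact h4
  · have h4 := FU _ sgn_hom
    rw [sgn_U hs] at h4
    by_cases hm : 0 < m
    · have e : sgn (-m) = 1 := if_pos (by omega)
      rw [e] at h4
      rw [if_pos hm]
      linear_combination h4 - β * h20
    · rw [if_neg hm]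
      exact h.s0 (by omega)
  · by_cases h3 : (7 : ℤ) ∣ m
    · rw [if_pos h3]
      exact h.c0 h3
    · rw [if_neg h3]
      have h4 := FW _ (vz_hom (p := 7))
      rw [vz_W_out (p := 7) hs (by norm_num) (out7 hs h3), if_neg (by norm_num), if_pos rfl,
        vz_unit (p := 7) h3, v7_7] at h4
      linear_combination h4 - β * h20
  · intro p hpP
    have hp := prime_PR hs hpP
    have : Fact p.Prime := ⟨hp⟩
    by_cases hp2 : p = 2
    · subst hp2
      have h4 := FU _ (vz_hom (p := 2))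
      have e3 : ∑ q ∈ PR m, vz 2 ((q : ℕ) : ℤ) * x q = x 2 := by
        rw [← Finset.add_sum_erase _ _ hpP, Finset.sum_eq_zero, add_zero]
        · have e : vz 2 ((2 : ℕ) : ℤ) = 1 := vz_p (p := 2)
          rw [e, one_mul]
        · intro q hq
          rw [vz2_odd (odd_q (prime_PR hs (Finset.mem_of_mem_erase hq))
            (Finset.ne_of_mem_erase hq)), zero_mul]
      rw [F_U hs (vz_hom (p := 2)), e3, vz2_odd (by norm_num), vz2_odd (by norm_num),
        vz_neg (p := 2) hm0, vz2_m hs] at h4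
      by_cases hd : ((2 : ℕ) : ℤ) ∣ m
      · rw [if_pos hd] at h4 ⊢
        linear_combination h4 - β * h20
      · rw [if_neg hd] at h4 ⊢
        linear_combination h4
    · have hpm := dvd_PR hs hpP hp2
      have h4 := FU _ (vz_hom (p := p))
      rw [vz_U hs hp2 hpP h.a0, vz_neg hm0, vz_m hs hpm] at h4
      rw [if_pos hpm]
      linear_combination h4 - β * h20
  · intro q hqP
    have hq := prime_PR hs hqP
    have : Fact q.Prime := ⟨hq⟩
    by_cases hq2 : q = 2
    · subst hq2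
      have h4 := FW _ (vz_hom (p := 2))
      have h5 := FW _ (H_hom (Or.inl rfl))
      obtain ⟨w1, w2⟩ := W_two (m := m) (y := y) (a := a) (c := c) hs hqP
      obtain ⟨m1, m2⟩ := m_two hs hqP
      obtain ⟨-, k⟩ := H_ps2 hs hqP
      have e5 : H (-1) (-7) = 0 := by
        rw [H_odd (by norm_num), hz_m1]
        norm_num
      rw [w1, m1, vz2_odd (n := -7) (by norm_num)] at h4
      rw [w2, m2, e5] at h5
      have h6 := k (y 2 + α) (by linear_combination h4) (by linear_combination h5)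
      rw [if_neg (by norm_num)]
      linear_combination h6 - α * h20
    · have hqm := dvd_PR hs hqP hq2
      have h4 := FW _ (vz_hom (p := q))
      rw [vz_W hs hq2 hqP h.a0 h.c0, vz_m hs hqm] at h4
      by_cases hq7 : q = 7
      · subst hq7
        rw [v7_7] at h4
        rw [if_pos rfl]
        linear_combination h4 - (α + β) * h20
      · rw [vz_unit (nd_neg (n7 hq7))] at h4
        rw [if_neg hq7]
        linear_combination h4 - α * h20

end

/-- the classes of the torsion points -/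
lemma el_tor {m : ℤ} (hm : m ≠ 0) (α β : ZMod 2) :
    EL m (m ^ α.val * (-7) ^ β.val, (-m) ^ β.val) := by
  have hT : ∀ (K : Type) [Field K], TC K m (m ^ α.val * (-7) ^ β.val) ((-m) ^ β.val) α β := by
    intro K _
    constructor
    · refine ⟨((m ^ α.val * (-7) ^ β.val : ℤ) : K), ?_⟩
      rw [← Int.cast_mul]
      congr 1
      ring
    · refine ⟨(((-m) ^ β.val : ℤ) : K), ?_⟩
      rw [← Int.cast_mul]
  refine ⟨mul_ne_zero (pow_ne_zero _ hm) (pow_ne_zero _ (by norm_num)),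
    pow_ne_zero _ (neg_ne_zero.2 hm), of_TC hm (one_real m) (hT ℝ), fun p _ =>
    of_TC hm (one_p p m) (hT _)⟩

lemma q7 : ¬ IsSquare (7 : ℚ) := by
  intro h
  have h1 : IsSquare (((7 : ℤ)) : ℚ) := by exact_mod_cast h
  rw [Rat.isSquare_intCast_iff] at h1
  obtain ⟨r, hr⟩ := h1
  have h2 : r < 3 := by nlinarith
  have h3 : -3 < r := by nlinarith
  interval_cases r <;> omega

lemma qneg {x : ℚ} (h : IsSquare x) (hx : x < 0) : False := by
  obtain ⟨r, hr⟩ := h
  have := mul_self_nonneg r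
  rw [← hr] at this
  exact absurd hx (not_lt.2 this)

lemma qm {m : ℤ} (hs : Squarefree m) (h1 : m ≠ 1) : ¬ IsSquare (m : ℚ) := by
  intro h
  rw [Rat.isSquare_intCast_iff] at h
  obtain ⟨r, hr⟩ := h
  have h2 := hs r ⟨1, by rw [hr, mul_one]⟩
  rcases Int.isUnit_iff.1 h2 with h3 | h3
  · rw [h3] at hr
    exact h1 (by rw [hr]; norm_num)
  · rw [h3] at hr
    exact h1 (by rw [hr]; norm_num)

/-- the torsion classes are different -/
lemma tor_ne {m : ℤ} (hs : Squarefree m) (h1 : m ≠ 1) {α β : ZMod 2} (hne : ¬ (α = 0 ∧ β = 0))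
    (q1 : IsSquare (((m ^ α.val * (-7) ^ β.val : ℤ)) : ℚ))
    (q2 : IsSquare ((((-m) ^ β.val : ℤ)) : ℚ)) : False := by
  have hm : (m : ℚ) ≠ 0 := by exact_mod_cast hs.ne_zero
  rcases z2 α with rfl | rfl <;> rcases z2 β with rfl | rfl <;>
    simp only [val0, val1, pow_zero, pow_one, mul_one, one_mul] at q1 q2
  · exact hne ⟨rfl, rfl⟩
  · exact qneg q1 (by norm_num)
  · exact qm hs h1 q1
  · push_cast at q1 q2
    have h3 := q1.mul q2
    have e : (m : ℚ) * -7 * -m = (m * m) * 7 := by ring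
    rw [e] at h3
    exact q7 (sq_cancel (mul_ne_zero hm hm) (IsSquare.mul_self _) h3)

/-- **`Fin2` implies `Sg21`.** -/
theorem sg_of_fin2 {m : ℤ} (hs : Squarefree m) (h1 : m ≠ 1) (hf : Fin2 (EQm m)) : Sg21 m := by
  classical
  have hm0 := hs.ne_zero
  have hm1 : -m ≠ 0 := neg_ne_zero.2 hm0
  intro x y s a c h
  by_contra hcon
  have hW := Wp_ne (m := m) (y := y) (a := a) (c := c) hs
  have hU := Up_ne (m := m) (x := x) (s := s) (a := a) hs
  let d : Fin 5 → ℤ × ℤ := ![(m ^ (0 : ZMod 2).val * (-7) ^ (0 : ZMod 2).val, (-m) ^ (0 : ZMod 2).val),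
    (m ^ (1 : ZMod 2).val * (-7) ^ (0 : ZMod 2).val, (-m) ^ (0 : ZMod 2).val),
    (m ^ (0 : ZMod 2).val * (-7) ^ (1 : ZMod 2).val, (-m) ^ (1 : ZMod 2).val),
    (m ^ (1 : ZMod 2).val * (-7) ^ (1 : ZMod 2).val, (-m) ^ (1 : ZMod 2).val),
    (Wp m y a c, Up m x s a)]
  have hEL : ∀ i, EL m (d i) := by
    intro i
    fin_cases i
    · exact el_tor hm0 0 0
    · exact el_tor hm0 1 0
    · exact el_tor hm0 0 1
    · exact el_tor hm0 1 1
    · exact el_of_sol hs h
  have last : ∀ α β : ZMod 2,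
      ¬ (IsSquare ((((m ^ α.val * (-7) ^ β.val : ℤ)) : ℚ) * ((Wp m y a c : ℤ) : ℚ)) ∧
        IsSquare (((((-m) ^ β.val : ℤ)) : ℚ) * ((Up m x s a : ℤ) : ℚ))) := by
    rintro α β ⟨q1, q2⟩
    apply hcon
    obtain ⟨t1, t2, t3, t4, t5⟩ := triv hs h α β (by
      rw [← Int.cast_mul] at q1
      have e : Wp m y a c * m ^ α.val * (-7) ^ β.val = m ^ α.val * (-7) ^ β.val * Wp m y a c := by
        ring
      rwa [e]) (by
      rw [← Int.cast_mul] at q2
      rwa [mul_comm])
    exact ⟨t1, β, α, t2, t3, t4, t5⟩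
  have tor : ∀ α β α' β' : ZMod 2, ¬ (α + α' = 0 ∧ β + β' = 0) →
      ¬ (IsSquare ((((m ^ α.val * (-7) ^ β.val : ℤ)) : ℚ) *
          ((m ^ α'.val * (-7) ^ β'.val : ℤ) : ℚ)) ∧
        IsSquare (((((-m) ^ β.val : ℤ)) : ℚ) * (((-m) ^ β'.val : ℤ) : ℚ))) := by
    rintro α β α' β' hne ⟨q1, q2⟩
    have hmQ : (m : ℚ) ≠ 0 := by exact_mod_cast hm0
    have key : ∀ (n : ℤ) (hn : n ≠ 0) (e e' : ZMod 2), ∃ t : ℚ, t ≠ 0 ∧
        ((n ^ e.val : ℤ) : ℚ) * ((n ^ e'.val : ℤ) : ℚ) = t * t * ((n ^ (e + e').val : ℤ) : ℚ) := by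
      intro n hn e e'
      have hn' : (n : ℚ) ≠ 0 := by exact_mod_cast hn
      rcases z2 e with rfl | rfl <;> rcases z2 e' with rfl | rfl
      · exact ⟨1, one_ne_zero, by rw [add_zero, val0]; push_cast; ring⟩
      · exact ⟨1, one_ne_zero, by rw [zero_add, val0, val1]; push_cast; ring⟩
      · exact ⟨1, one_ne_zero, by rw [add_zero, val0, val1]; push_cast; ring⟩
      · refine ⟨n, hn', ?_⟩
        have e : (1 : ZMod 2) + 1 = 0 := rfl
        rw [e, val0, val1]
        push_cast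
        ring
    obtain ⟨t1, n1, k1⟩ := key m hm0 α α'
    obtain ⟨t2, n2, k2⟩ := key (-7) (by norm_num) β β'
    obtain ⟨t3, n3, k3⟩ := key (-m) hm1 β β'
    refine tor_ne hs h1 hne ?_ ?_
    · refine sq_of q1 (z := t1 * t2) (mul_ne_zero n1 n2) ?_
      rw [Int.cast_mul, Int.cast_mul, Int.cast_mul]
      linear_combination (((-7) ^ β.val : ℤ) : ℚ) * (((-7) ^ β'.val : ℤ) : ℚ) * k1 +
        t1 * t1 * ((m ^ (α + α').val : ℤ) : ℚ) * k2
    · rw [k3] at q2
      exact sq_cancel (mul_ne_zero n3 n3) (IsSquare.mul_self _) q2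
  refine not_five hm0 hf d hEL ?_
  intro i j hij
  rcases cases5 i j hij with ⟨rfl, rfl⟩ | ⟨rfl, rfl⟩ | ⟨rfl, rfl⟩ | ⟨rfl, rfl⟩ | ⟨rfl, rfl⟩ | ⟨rfl, rfl⟩ |
    ⟨rfl, rfl⟩ | ⟨rfl, rfl⟩ | ⟨rfl, rfl⟩ | ⟨rfl, rfl⟩
  · exact tor 0 0 1 0 (by decide)
  · exact tor 0 0 0 1 (by decide)
  · exact tor 0 0 1 1 (by decide)
  · exact last 0 0
  · exact tor 1 0 0 1 (by decide)
  · exact tor 1 0 1 1 (by decide)
  · exact last 1 0
  · exact tor 0 1 1 1 (by decide)
  · exact last 0 1
  · exact last 1 1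

end Pool.Agent.N809.D21
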