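import Pool.Agent.N809.D21.Cn

/-!
# The 2-Selmer group of level 21 from the symmetric system
-/

set_option autoImplicit false

open Finset

namespace Pool.Agent.N809.D21

open Pool.Agent.N875.X15 hiding Em EQm T4 T4_card T4_two nonsing isR WS Em_Δ EQm_Δ_ne vrS
open Pool.Agent.N875.P17 (ra_two oz al Lm hz sq_of row_sum total)
open Pool.Agent.N809.PQ (ra3 ra7 ps7 al7 Lm7 Lm7_two ra_m3 ra_m7 prime_PR dvd_PR PR_of_dvd C3 C7
  Sol21 Sg21)
open Pool.Agent.TH841.SH (LocC SelG)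
open Pool.Agent.Y667.RP (mod_of_sq)

section

variable {m w u : ℤ}

/-- the coordinate `x` at `2` -/
lemma nec2_w (hm : Squarefree m) (hw : Squarefree w)
    (h : LocC ℚ_[2] 0 (9 * m) (-7 * m) w u) :
    (IsSquare (w : ℚ_[2]) ∨ IsSquare (((m * w : ℤ)) : ℚ_[2])) ∨ (m % 8 = 1 ∧ w % 4 = 1) := by
  obtain ⟨x, h0, h9, h7, hs, h1, h2⟩ := unmk h
  have hm0 : m ≠ 0 := hm.ne_zero
  have hm' : (m : ℚ_[2]) ≠ 0 := by exact_mod_cast hm0
  have e9 : x - 9 * (m : ℚ_[2]) + 9 * m = x := by ring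
  have e16 : x - 9 * (m : ℚ_[2]) + 16 * m = x + 7 * m := by ring
  have h3 := two_x (u := x - 9 * (m : ℚ_[2])) hm0 h9 (by rwa [e9]) (by rwa [e16]) (by
    rw [e9, e16]
    have e : (x - 9 * (m : ℚ_[2])) * x * (x + 7 * m) = x * (x - 9 * m) * (x + 7 * m) := by ring
    rwa [e])
  rw [e9] at h3
  rcases h3 with h3 | h3 | ⟨h3, h4⟩
  · left; left
    exact sq_cancel h0 h3 h1
  · left; right
    have := to_coord h0 h3 h1
    push_cast
    rwa [mul_comm]
  · right
    have h5 := odd_of_sq hm h4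
    refine ⟨h5, ?_⟩
    have h6 : IsSquare ((w : ℚ_[2]) * (5 * m)) := to_coord h0 h3 h1
    have h7 : IsSquare ((m : ℚ_[2]) * (5 * w)) := by
      have e : (m : ℚ_[2]) * (5 * w) = (w : ℚ_[2]) * (5 * m) := by ring
      rwa [e]
    have h8 : IsSquare (((5 * w : ℤ)) : ℚ_[2]) := by
      push_cast
      exact sq_cancel hm' h4 h7
    have h9 : ¬ ((2 : ℕ) : ℤ) ∣ w := by
      have h10 : IsSquare ((5 : ℚ_[2]) * w) := by exact_mod_cast h8
      refine not_dvd_of_even (by norm_num) ?_ hw h10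
      have : ((5 : ℤ) : ℚ_[2]).valuation = 0 := val_zero (by norm_num)
      have h5' : (5 : ℚ_[2]).valuation = 0 := by exact_mod_cast this
      rw [h5']
      exact Even.zero
    have h11 := mod_of_sq (d := 5 * w) (by push_cast at h9; omega) h8
    omega

lemma nec2_14 (hm : Squarefree m) (hm4 : m % 4 = 1) (hw : Squarefree w) (hu : Squarefree u)
    (h : LocC ℚ_[2] 0 (9 * m) (-7 * m) w u) : w % 4 = 1 ∧ ¬ (2 : ℤ) ∣ u := by
  constructor
  · rcases nec2_w hm hw h with (h1 | h1) | h1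
    · have := odd_of_sq hw h1
      omega
    · have hmm : ¬ (2 : ℤ) ∣ m := by omega
      have h9 : ¬ ((2 : ℕ) : ℤ) ∣ w := by
        have h10 : IsSquare ((m : ℚ_[2]) * w) := by exact_mod_cast h1
        have hm' : (m : ℚ_[2]) ≠ 0 := by exact_mod_cast hm.ne_zero
        refine not_dvd_of_even hm' ?_ hw h10
        rw [val_zero (by exact_mod_cast hmm)]
        exact Even.zero
      have h11 := mod_of_sq (d := m * w) (by
        intro h12
        rcases Int.prime_two.dvd_or_dvd h12 with h13 | h13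
        · exact hmm h13
        · exact h9 (by exact_mod_cast h13)) h1
      have h14 : m % 4 * (w % 4) % 4 = 1 := by
        rw [← Int.mul_emod]
        omega
      rw [hm4] at h14
      omega
    · exact h1.2
  · obtain ⟨x, h0, h9, h7, hs, h1, h2⟩ := unmk h
    have e9 : x - 9 * (m : ℚ_[2]) + 9 * m = x := by ring
    have e16 : x - 9 * (m : ℚ_[2]) + 16 * m = x + 7 * m := by ring
    have h3 := two_u (u := x - 9 * (m : ℚ_[2])) hm4 h9 (by rwa [e9]) (by rwa [e16]) (by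
      rw [e9, e16]
      have e : (x - 9 * (m : ℚ_[2])) * x * (x + 7 * m) = x * (x - 9 * m) * (x + 7 * m) := by ring
      rwa [e])
    exact_mod_cast not_dvd_of_even h9 h3 hu h2

end

section

variable {m : ℤ}

/-- the exponents of a divisor -/
def ex (d : ℤ) (p : ℕ) : ZMod 2 := if (p : ℤ) ∣ d then 1 else 0

lemma prod_ex {P : Finset ℕ} (f : ℕ → ℤ) (d : ℤ) :
    ∏ p ∈ P, f p ^ (ex d p).val = ∏ p ∈ P.filter (fun p : ℕ => (p : ℤ) ∣ d), f p := by
  rw [Finset.prod_filter]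
  refine Finset.prod_congr rfl fun p _ => ?_
  unfold ex
  by_cases h : (p : ℤ) ∣ d
  · rw [if_pos h, if_pos h, val1, pow_one]
  · rw [if_neg h, if_neg h, val0, pow_zero]

lemma filter_pf (hs : Squarefree m) {d : ℤ} (hd : d ≠ 0)
    (h : ∀ p : ℕ, p.Prime → (p : ℤ) ∣ d → p ∈ PR m) :
    (PR m).filter (fun p : ℕ => (p : ℤ) ∣ d) = d.natAbs.primeFactors := by
  ext p
  rw [Finset.mem_filter, Nat.mem_primeFactors]
  constructor
  · rintro ⟨h1, h2⟩
    exact ⟨prime_PR hs h1, Int.natCast_dvd.1 h2, Int.natAbs_ne_zero.2 hd⟩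
  · rintro ⟨h1, h2, -⟩
    have h3 := Int.natCast_dvd.2 h2
    exact ⟨h p h1 h3, h3⟩

/-- positive numbers -/
lemma prodU (hs : Squarefree m) {d : ℤ} (hd : Squarefree d) (hpos : 0 < d)
    (h : ∀ p : ℕ, p.Prime → (p : ℤ) ∣ d → p ∈ PR m) :
    ∏ p ∈ PR m, ((p : ℕ) : ℤ) ^ (ex d p).val = d := by
  rw [prod_ex, filter_pf hs hd.ne_zero h]
  have h1 : ∏ p ∈ d.natAbs.primeFactors, p = d.natAbs :=
    Nat.prod_primeFactors_of_squarefree (Int.squarefree_natAbs.2 hd)
  have h3 : (∏ p ∈ d.natAbs.primeFactors, ((p : ℕ) : ℤ)) =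
      ((∏ p ∈ d.natAbs.primeFactors, p : ℕ) : ℤ) := by push_cast; rfl
  rw [h3, h1]
  omega

lemma H_oe (d : ℤ) : vz 2 (oe d) = 0 ∧ H (-1) (oe d) = 0 := by
  have ho := oe_mod d
  exact ⟨vz2_odd (by omega), by rw [H_odd (by omega), hz_m1, if_pos ho]⟩

/-- the four values -/
lemma d2_vals {d : ℤ} (hd : Squarefree d) :
    (d2 d = 1 ∧ vz 2 d = 0 ∧ H (-1) d = 0) ∨ (d2 d = -1 ∧ vz 2 d = 0 ∧ H (-1) d = 1) ∨
    (d2 d = 2 ∧ vz 2 d = 1 ∧ H (-1) d = 0) ∨ (d2 d = -2 ∧ vz 2 d = 1 ∧ H (-1) d = 1) := by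
  obtain ⟨h1, h2⟩ := d2_spec hd
  obtain ⟨o1, o2⟩ := H_oe d
  have ho0 : oe d ≠ 0 := by
    have := oe_mod d
    intro h
    rw [h] at this
    norm_num at this
  have key : d2 d ≠ 0 → vz 2 d = vz 2 (d2 d) ∧ H (-1) d = H (-1) (d2 d) := by
    intro h0
    constructor
    · conv_lhs => rw [h1]
      rw [vz_hom (p := 2) _ _ h0 ho0, o1, add_zero]
    · conv_lhs => rw [h1]
      rw [H_hom (Or.inl rfl) _ _ h0 ho0, o2, add_zero]
  rcases h2 with ⟨-, h | h⟩ | ⟨-, h | h⟩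
  · left
    obtain ⟨k1, k2⟩ := key (by rw [h]; norm_num)
    refine ⟨h, ?_, ?_⟩
    · rw [k1, h, vz2_odd (by norm_num)]
    · rw [k2, h, f_1]
  · right; left
    obtain ⟨k1, k2⟩ := key (by rw [h]; norm_num)
    exact ⟨h, by rw [k1, h, v_m1], by rw [k2, h, f_m1]⟩
  · right; right; left
    obtain ⟨k1, k2⟩ := key (by rw [h]; norm_num)
    exact ⟨h, by rw [k1, h, v_2], by rw [k2, h, f_2]⟩
  · right; right; right
    obtain ⟨k1, k2⟩ := key (by rw [h]; norm_num)
    exact ⟨h, by rw [k1, h, v_m2], by rw [k2, h, f_m2]⟩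

/-- numbers which are products of the prime discriminants -/
lemma prodW (hs : Squarefree m) {d : ℤ} (hd : Squarefree d)
    (h : ∀ p : ℕ, p.Prime → (p : ℤ) ∣ d → p ∈ PR m) (t : ZMod 2) (ht : 2 ∉ PR m → t = 0)
    (hv : vz 2 d = vz 2 m * t) (hH : H (-1) d = H (-1) m * t) :
    ∏ q ∈ PR m, ps m q ^ (if q = 2 then t else ex d q).val = d := by
  have e1 : ∏ q ∈ (PR m).erase 2, ps m q ^ (if q = 2 then t else ex d q).val = oe d := by
    have h1 : ∏ q ∈ (PR m).erase 2, ps m q ^ (if q = 2 then t else ex d q).val =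
        ∏ q ∈ (PR m).erase 2, sgp q ^ (ex d q).val := by
      refine Finset.prod_congr rfl fun q hq => ?_
      have hq2 := Finset.ne_of_mem_erase hq
      rw [if_neg hq2, ps_odd hq2]
    rw [h1, prod_ex, Finset.filter_erase, filter_pf hs hd.ne_zero h]
    rfl
  have e2 : d2 d = (if 2 ∈ PR m then d2 m else 1) ^ t.val := by
    rcases z2 t with rfl | rfl
    · rw [val0, pow_zero]
      rw [mul_zero] at hv hH
      rcases d2_vals hd with ⟨a, b, c⟩ | ⟨a, b, c⟩ | ⟨a, b, c⟩ | ⟨a, b, c⟩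
      · exact a
      · rw [hH] at c
        exact absurd c (by decide)
      · rw [hv] at b
        exact absurd b (by decide)
      · rw [hv] at b
        exact absurd b (by decide)
    · have hP : 2 ∈ PR m := by
        by_contra hcon
        exact absurd (ht hcon) (by decide)
      rw [val1, pow_one, if_pos hP]
      rw [mul_one] at hv hH
      rcases d2_vals hd with ⟨a, b, c⟩ | ⟨a, b, c⟩ | ⟨a, b, c⟩ | ⟨a, b, c⟩ <;>
        rcases d2_vals hs with ⟨a', b', c'⟩ | ⟨a', b', c'⟩ | ⟨a', b', c'⟩ | ⟨a', b', c'⟩ <;>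
        rw [b, b'] at hv <;> rw [c, c'] at hH <;>
        first | exact absurd hv (by decide) | exact absurd hH (by decide) | rw [a, a']
  by_cases hP : 2 ∈ PR m
  · rw [← Finset.mul_prod_erase _ _ hP, e1, if_pos rfl, ps_two]
    rw [if_pos hP] at e2
    rw [← e2]
    exact (d2_spec hd).1.symm
  · rw [Finset.erase_eq_of_notMem hP] at e1
    rw [e1]
    rw [if_neg hP, one_pow] at e2
    have := (d2_spec hd).1
    rw [e2, one_mul] at this
    exact this.symm

lemma vz_dvd {p : ℕ} [hp : Fact p.Prime] {n : ℤ} (hn : Squarefree n) :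
    vz p n = 0 ↔ ¬ (p : ℤ) ∣ n := by
  constructor
  · intro h hd
    rw [vz_m hn hd] at h
    exact absurd h (by decide)
  · exact fun h => vz_unit h

/-- dividing by a prime -/
lemma pull {p : ℕ} [hp : Fact p.Prime] {g n : ℤ} (hg : g = (p : ℤ) ∨ g = -(p : ℤ))
    (hn : Squarefree n) : ∃ n' : ℤ, n = g ^ (vz p n).val * n' ∧ Squarefree n' ∧
      ¬ (p : ℤ) ∣ n' ∧ (0 < g → 0 < n → 0 < n') := by
  by_cases h : (p : ℤ) ∣ n
  · rw [vz_m hn h, val1, pow_one]
    have hgn : g ∣ n := by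
      rcases hg with rfl | rfl
      · exact h
      · exact (neg_dvd).2 h
    obtain ⟨n', hn'⟩ := hgn
    have hs : Squarefree n' := hn.squarefree_of_dvd ⟨g, by rw [hn']; ring⟩
    refine ⟨n', hn', hs, ?_, ?_⟩
    · rintro ⟨k, hk⟩
      have h1 : (p : ℤ) * p ∣ n := by
        rw [hn', hk]
        rcases hg with rfl | rfl
        · exact ⟨k, by ring⟩
        · exact ⟨-k, by ring⟩
      have h2 := Int.isUnit_iff.1 (hn _ h1)
      have h3 := hp.out.one_lt
      omega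
    · intro h1 h2
      rw [hn'] at h2
      exact (mul_pos_iff_of_pos_left h1).1 h2
  · rw [vz_unit h, val0, pow_zero]
    exact ⟨n, by rw [one_mul], hn, h, fun _ h => h⟩

/-- **The classes in the Selmer group are products.** -/
theorem exists_WU {w u : ℤ} (hs : Squarefree m) (h : (w, u) ∈ SelG 0 (9 * m) (-7 * m)) :
    ∃ (x y : ℕ → ZMod 2) (s a c : ZMod 2), w = Wp m y a c ∧ u = Up m x s a ∧
      (¬ C3 m → a = 0) ∧ ((7 : ℤ) ∣ m → c = 0) := by
  obtain ⟨hw, hu, hR, hp⟩ := h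
  simp only at hw hu hR hp
  have hm0 := hs.ne_zero
  have hw0 := hw.ne_zero
  have hu0 := hu.ne_zero
  -- the primes
  have good : ∀ p : ℕ, p.Prime → p ∉ PR m → p ≠ 3 → p ≠ 7 → ¬ (p : ℤ) ∣ w ∧ ¬ (p : ℤ) ∣ u := by
    intro p hpp hpP hp3 hp7
    have : Fact p.Prime := ⟨hpp⟩
    have hpm : ¬ (p : ℤ) ∣ m := fun h => hpP (PR_of_dvd hs hpp h)
    by_cases hp2 : p = 2
    · subst hp2
      have h4 : m % 4 = 1 := by
        by_contra hcon
        exact hpP ((two_mem_PR hm0).2 hcon)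
      obtain ⟨h1, h2⟩ := nec2_14 hs h4 hw hu (hp 2)
      refine ⟨?_, by exact_mod_cast h2⟩
      intro h3
      have : (2 : ℤ) ∣ w := by exact_mod_cast h3
      omega
    · exact unr hp2 hp3 hp7 hm0 hpm hw hu (hp p)
  set a : ZMod 2 := if (3 : ℤ) ∣ m then 0 else vz 3 w with ha
  set c : ZMod 2 := if (7 : ℤ) ∣ m then 0 else vz 7 w with hc
  have a0 : ¬ C3 m → a = 0 := by
    intro h3
    rw [ha]
    by_cases h : (3 : ℤ) ∣ m
    · rw [if_pos h]
    · rw [if_neg h]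
      have h2 : m % 3 = 2 := by unfold C3 at h3; omega
      exact vz_unit (p := 3) (at3n h2 hw hu (hp 3)).1
  have c0 : (7 : ℤ) ∣ m → c = 0 := fun h => by rw [hc, if_pos h]
  -- the valuation of `u` at `3`
  have hau : ¬ (3 : ℤ) ∣ m → vz 3 u = a := by
    intro h
    rw [ha, if_neg h]
    rcases (by omega : m % 3 = 1 ∨ m % 3 = 2) with h3 | h3
    · have h1 := ((three_s h3 hw0 hu0).1 (hp 3)).1
      linear_combination h1 - vz 3 w * h20
    · obtain ⟨h1, h2⟩ := at3n h3 hw hu (hp 3)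
      rw [vz_unit (p := 3) h1, vz_unit (p := 3) h2]
  have hu7 : ¬ (7 : ℤ) ∣ m → ¬ (7 : ℤ) ∣ u := by
    intro h
    have h1 : vz 7 u = 0 := by
      by_cases h7 : m % 7 = 3 ∨ m % 7 = 5 ∨ m % 7 = 6
      · exact ((seven_s h7 hw0 hu0).1 (hp 7)).1
      · exact ((seven_n (by omega) hw0 hu0).1 (hp 7)).1
    exact (vz_dvd (p := 7) hu).1 h1
  -- the number `w'`
  obtain ⟨w', hw', sw', p3, p7⟩ : ∃ w' : ℤ, w = (-3) ^ a.val * (-7) ^ c.val * w' ∧ Squarefree w' ∧
      (¬ (3 : ℤ) ∣ m → ¬ (3 : ℤ) ∣ w') ∧ (¬ (7 : ℤ) ∣ m → ¬ (7 : ℤ) ∣ w') := by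
    obtain ⟨w1, k1, k2, k3⟩ : ∃ w1 : ℤ, w = (-3) ^ a.val * w1 ∧ Squarefree w1 ∧
        (¬ (3 : ℤ) ∣ m → ¬ (3 : ℤ) ∣ w1) := by
      by_cases h : (3 : ℤ) ∣ m
      · refine ⟨w, ?_, hw, fun h' => absurd h h'⟩
        rw [ha, if_pos h, val0, pow_zero, one_mul]
      · obtain ⟨n', a1, a2, a3, -⟩ := pull (p := 3) (g := -3) (Or.inr rfl) hw
        refine ⟨n', ?_, a2, fun _ => by exact_mod_cast a3⟩
        rw [ha, if_neg h]
        exact a1
    have hvw : vz 7 w = vz 7 w1 := by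
      have hw1 : w1 ≠ 0 := k2.ne_zero
      rw [k1, vz_hom (p := 7) _ _ (pow_ne_zero _ (by norm_num)) hw1,
        (vz_hom (p := 7)).pw (by norm_num), vz_unit (p := 7) (by norm_num), zero_mul, zero_add]
    by_cases h : (7 : ℤ) ∣ m
    · refine ⟨w1, ?_, k2, k3, fun h' => absurd h h'⟩
      rw [hc, if_pos h, val0, pow_zero, mul_one]
      exact k1
    · obtain ⟨n', a1, a2, a3, -⟩ := pull (p := 7) (g := -7) (Or.inr rfl) k2
      refine ⟨n', ?_, a2, fun h3 h4 => ?_, fun _ => by exact_mod_cast a3⟩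
      · rw [hc, if_neg h, hvw, k1, mul_assoc]
        congr 1
      · apply k3 h3
        rw [a1]
        exact h4.mul_left _
  have dw' : w' ∣ w := Dvd.intro_left _ hw'.symm
  -- the number `u'`
  obtain ⟨s, u1, hu1, su1, pos1⟩ : ∃ (s : ZMod 2) (u1 : ℤ), u = (-1) ^ s.val * u1 ∧
      Squarefree u1 ∧ 0 < u1 := by
    rcases lt_or_gt_of_ne hu0 with h | h
    · refine ⟨1, -u, ?_, ?_, by omega⟩
      · rw [val1]
        ring
      · exact Pool.Agent.N875.P17.sqf_neg hu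
    · exact ⟨0, u, by rw [val0]; ring, hu, h⟩
  have hd1 : ∀ p : ℤ, p ∣ u1 → p ∣ u := fun p h => by rw [hu1]; exact h.mul_left _
  obtain ⟨u', hu', su', pos', q3⟩ : ∃ u' : ℤ, u1 = 3 ^ a.val * u' ∧ Squarefree u' ∧ 0 < u' ∧
      (¬ (3 : ℤ) ∣ m → ¬ (3 : ℤ) ∣ u') := by
    by_cases h : (3 : ℤ) ∣ m
    · refine ⟨u1, ?_, su1, pos1, fun h' => absurd h h'⟩
      rw [ha, if_pos h, val0, pow_zero, one_mul]
    · obtain ⟨n', a1, a2, a3, a4⟩ := pull (p := 3) (g := 3) (Or.inl rfl) su1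
      have hv : vz 3 u = vz 3 u1 := by
        rw [hu1, vz_hom (p := 3) _ _ (pow_ne_zero _ (by norm_num)) su1.ne_zero,
          (vz_hom (p := 3)).pw (by norm_num), vz_unit (p := 3) (by norm_num), zero_mul, zero_add]
      refine ⟨n', ?_, a2, a4 (by norm_num) pos1, fun _ => by exact_mod_cast a3⟩
      rw [← hau h, hv]
      exact a1
  have du' : u' ∣ u := (Dvd.intro_left _ hu'.symm).trans (Dvd.intro_left _ hu1.symm)
  have supw : ∀ p : ℕ, p.Prime → (p : ℤ) ∣ w' → p ∈ PR m := by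
    intro p hpp hd
    by_contra hpP
    have hpm : ¬ (p : ℤ) ∣ m := fun h => hpP (PR_of_dvd hs hpp h)
    by_cases hp3 : p = 3
    · subst hp3
      exact p3 (by exact_mod_cast hpm) (by exact_mod_cast hd)
    · by_cases hp7 : p = 7
      · subst hp7
        exact p7 (by exact_mod_cast hpm) (by exact_mod_cast hd)
      · exact (good p hpp hpP hp3 hp7).1 (hd.trans dw')
  have supu : ∀ p : ℕ, p.Prime → (p : ℤ) ∣ u' → p ∈ PR m := by
    intro p hpp hd
    by_contra hpP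
    have hpm : ¬ (p : ℤ) ∣ m := fun h => hpP (PR_of_dvd hs hpp h)
    by_cases hp3 : p = 3
    · subst hp3
      exact q3 (by exact_mod_cast hpm) (by exact_mod_cast hd)
    · by_cases hp7 : p = 7
      · subst hp7
        exact hu7 (by exact_mod_cast hpm) (by exact_mod_cast hd.trans du')
      · exact (good p hpp hpP hp3 hp7).2 (hd.trans du')
  -- the values of `w'` at `2`
  have vw : vz 2 w' = vz 2 w ∧ H (-1) w' = H (-1) w := by
    have hw0' := sw'.ne_zero
    have n3 : (-3 : ℤ) ^ a.val ≠ 0 := pow_ne_zero _ (by norm_num)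
    have n7 : (-7 : ℤ) ^ c.val ≠ 0 := pow_ne_zero _ (by norm_num)
    constructor
    · rw [hw', vz_hom (p := 2) _ _ (mul_ne_zero n3 n7) hw0', vz_hom (p := 2) _ _ n3 n7,
        (vz_hom (p := 2)).pw (by norm_num), (vz_hom (p := 2)).pw (by norm_num),
        vz2_odd (n := -3) (by norm_num), vz2_odd (n := -7) (by norm_num)]
      ring
    · have hH := H_hom (c := -1) (Or.inl rfl)
      rw [hw', hH _ _ (mul_ne_zero n3 n7) hw0', hH _ _ n3 n7, hH.pw (by norm_num),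
        hH.pw (by norm_num), H_odd (n := -3) (by norm_num), H_odd (n := -7) (by norm_num), hz_m1,
        hz_m1]
      norm_num
  obtain ⟨t, ht, hv, hH⟩ : ∃ t : ZMod 2, (2 ∉ PR m → t = 0) ∧ vz 2 w' = vz 2 m * t ∧
      H (-1) w' = H (-1) m * t := by
    rw [vw.1, vw.2]
    by_cases h4 : m % 4 = 1
    · obtain ⟨h1, -⟩ := nec2_14 hs h4 hw hu (hp 2)
      refine ⟨0, fun _ => rfl, ?_, ?_⟩
      · rw [vz2_odd (by omega), mul_zero]
      · rw [H_odd (by omega), hz_m1, if_pos h1, mul_zero]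
    · have hP : 2 ∈ PR m := (two_mem_PR hm0).2 h4
      rcases nec2_w hs hw (hp 2) with (h1 | h1) | h1
      · obtain ⟨a1, a2, -⟩ := (sq2_iff hw0).1 h1
        exact ⟨0, fun h => absurd hP h, by rw [a1, mul_zero], by rw [a2, mul_zero]⟩
      · obtain ⟨a1, a2, -⟩ := (sq2_iff (mul_ne_zero hm0 hw0)).1 h1
        rw [vz_hom (p := 2) _ _ hm0 hw0] at a1
        rw [H_hom (Or.inl rfl) _ _ hm0 hw0] at a2
        refine ⟨1, fun h => absurd hP h, ?_, ?_⟩
        · linear_combination a1 - vz 2 m * h20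
        · linear_combination a2 - H (-1) m * h20
      · omega
  refine ⟨ex u', fun q => if q = 2 then t else ex w' q, s, a, c, ?_, ?_, a0, c0⟩
  · unfold Wp
    rw [prodW hs sw' supw t ht hv hH]
    exact hw'
  · unfold Up
    rw [prodU hs su' pos' supu, mul_assoc, ← hu']
    exact hu1

end

end Pool.Agent.N809.D21
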