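import Pool.Agent.N809.D21.Suf

/-!
# The linear equations of the 2-descent of level 21
-/

set_option autoImplicit false

open Finset

namespace Pool.Agent.N809.D21

open Pool.Agent.N875.X15
open Pool.Agent.N875.P17
open Pool.Agent.N809.PQ (ra3 ra7 ps7 al7 Lm7 ra_m3 ra_m7 prime_PR dvd_PR PR_of_dvd C3 C7 Sol21 Sg21)

/-- the class of `x` -/
def Wp (m : ℤ) (y : ℕ → ZMod 2) (a c : ZMod 2) : ℤ :=
  (-3) ^ a.val * (-7) ^ c.val * ∏ q ∈ PR m, ps m q ^ (y q).val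

/-- the class of `x - 9 m` -/
def Up (m : ℤ) (x : ℕ → ZMod 2) (s a : ZMod 2) : ℤ :=
  (-1) ^ s.val * 3 ^ a.val * ∏ p ∈ PR m, ((p : ℕ) : ℤ) ^ (x p).val

section

variable {m : ℤ} {x y : ℕ → ZMod 2} {s a c : ZMod 2}

lemma ps_ne (hs : Squarefree m) {q : ℕ} (hq : q ∈ PR m) : ps m q ≠ 0 := fun h0 => by
  have := prod_PR hs
  rw [Finset.prod_eq_zero hq h0] at this
  exact hs.ne_zero this.symm

lemma nat_ne (hs : Squarefree m) {q : ℕ} (hq : q ∈ PR m) : ((q : ℕ) : ℤ) ≠ 0 := by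
  exact_mod_cast (prime_PR hs hq).ne_zero

lemma Wp_ne (hs : Squarefree m) : Wp m y a c ≠ 0 := by
  unfold Wp
  exact mul_ne_zero (mul_ne_zero (pow_ne_zero _ (by norm_num)) (pow_ne_zero _ (by norm_num)))
    (Finset.prod_ne_zero_iff.2 fun q hq => pow_ne_zero _ (ps_ne hs hq))

lemma Up_ne (hs : Squarefree m) : Up m x s a ≠ 0 := by
  unfold Up
  exact mul_ne_zero (mul_ne_zero (pow_ne_zero _ (by norm_num)) (pow_ne_zero _ (by norm_num)))
    (Finset.prod_ne_zero_iff.2 fun q hq => pow_ne_zero _ (nat_ne hs hq))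

lemma F_W (hs : Squarefree m) {F : ℤ → ZMod 2} (hF : Hom F) :
    F (Wp m y a c) = F (-3) * a + F (-7) * c + ∑ q ∈ PR m, F (ps m q) * y q := by
  unfold Wp
  rw [hF _ _ (mul_ne_zero (pow_ne_zero _ (by norm_num)) (pow_ne_zero _ (by norm_num)))
    (Finset.prod_ne_zero_iff.2 fun q hq => pow_ne_zero _ (ps_ne hs hq)),
    hF _ _ (pow_ne_zero _ (by norm_num)) (pow_ne_zero _ (by norm_num)), hF.pw (by norm_num),
    hF.pw (by norm_num), hF.prod _ _ _ fun q hq => ps_ne hs hq]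

lemma F_U (hs : Squarefree m) {F : ℤ → ZMod 2} (hF : Hom F) :
    F (Up m x s a) = F (-1) * s + F 3 * a + ∑ p ∈ PR m, F ((p : ℕ) : ℤ) * x p := by
  unfold Up
  rw [hF _ _ (mul_ne_zero (pow_ne_zero _ (by norm_num)) (pow_ne_zero _ (by norm_num)))
    (Finset.prod_ne_zero_iff.2 fun q hq => pow_ne_zero _ (nat_ne hs hq)),
    hF _ _ (pow_ne_zero _ (by norm_num)) (pow_ne_zero _ (by norm_num)), hF.pw (by norm_num),
    hF.pw (by norm_num), hF.prod _ _ _ fun q hq => nat_ne hs hq]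

/-! ### the values -/

variable {p : ℕ} [hp : Fact p.Prime]

lemma nd_ps (hs : Squarefree m) (hp2 : p ≠ 2) {q : ℕ} (hq : q ∈ PR m) (hqp : q ≠ p) :
    ¬ (p : ℤ) ∣ ps m q :=
  (gd_odd hp2 _).1 (gd_ps hs (prime_PR hs hq) hp.out hqp)

lemma nd_q (hs : Squarefree m) (hp2 : p ≠ 2) {q : ℕ} (hq : q ∈ PR m) (hqp : q ≠ p) :
    ¬ (p : ℤ) ∣ ((q : ℕ) : ℤ) :=
  (gd_odd hp2 _).1 (gd_nat (prime_PR hs hq) hp.out hp2 hqp)

lemma sgp_pm (q : ℕ) : sgp q = (q : ℤ) ∨ sgp q = -(q : ℤ) := by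
  unfold sgp
  split_ifs
  · exact Or.inl rfl
  · exact Or.inr rfl

lemma vz_ps (hs : Squarefree m) (hp2 : p ≠ 2) {q : ℕ} (hq : q ∈ PR m) :
    vz p (ps m q) = if q = p then 1 else 0 := by
  by_cases hqp : q = p
  · subst hqp
    rw [if_pos rfl, ps_odd hp2]
    rcases sgp_pm q with h | h
    · rw [h]
      exact vz_p
    · rw [h, vz_neg (by exact_mod_cast hp.out.ne_zero)]
      exact vz_p
  · rw [if_neg hqp]
    exact vz_unit (nd_ps hs hp2 hq hqp)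

lemma vz_q (hs : Squarefree m) (hp2 : p ≠ 2) {q : ℕ} (hq : q ∈ PR m) :
    vz p ((q : ℕ) : ℤ) = if q = p then 1 else 0 := by
  by_cases hqp : q = p
  · subst hqp
    rw [if_pos rfl]
    exact vz_p
  · rw [if_neg hqp]
    exact vz_unit (nd_q hs hp2 hq hqp)

lemma rz_m1 (hp2 : p ≠ 2) : rz p (-1) = al m p := by
  rw [rz_unit (nd_neg nd1), ra_neg_one (m := m) hp.out hp2]

lemma rz_ps_self (hp2 : p ≠ 2) : rz p (ps m p) = al m p := by
  rw [ps_odd hp2]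
  rcases sgp_pm p with h | h
  · rw [h, rz_p]
    unfold al
    rw [ps_odd hp2, h, if_neg (by omega)]
  · rw [h, neg_eq_neg_one_mul, rz_hom hp2 _ _ (by norm_num) (by exact_mod_cast hp.out.ne_zero),
      rz_p, add_zero, rz_m1 (m := m) hp2]

lemma rz_ps (hs : Squarefree m) (hp2 : p ≠ 2) {q : ℕ} (hq : q ∈ PR m) (hqp : q ≠ p) :
    rz p (ps m q) = ra p (ps m q) := rz_unit (nd_ps hs hp2 hq hqp)

lemma rz_q (hs : Squarefree m) (hp2 : p ≠ 2) {q : ℕ} (hq : q ∈ PR m) (hqp : q ≠ p) :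
    rz p ((q : ℕ) : ℤ) = ra q (ps m p) := by
  rw [rz_unit (nd_q hs hp2 hq hqp), ra_rec (prime_PR hs hq) hp.out hp2]

/-- the class of `m` -/
lemma rz_m (hs : Squarefree m) (hp2 : p ≠ 2) (hpP : p ∈ PR m) :
    rz p m = Lm m p p + al m p := by
  have h1 := (rz_hom hp2).prod1 (PR m) (ps m) fun q hq => ps_ne hs hq
  rw [prod_PR hs, ← Finset.add_sum_erase _ _ hpP, rz_ps_self hp2] at h1
  have h2 : Lm m p p = ∑ r ∈ (PR m).erase p, ra p (ps m r) := if_pos rfl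
  rw [h1, h2, add_comm]
  congr 1
  exact Finset.sum_congr rfl fun q hq => rz_ps hs hp2 (Finset.mem_of_mem_erase hq)
    (Finset.ne_of_mem_erase hq)

lemma rz_mm (hs : Squarefree m) (hp2 : p ≠ 2) (hpP : p ∈ PR m) : rz p (-m) = Lm m p p := by
  rw [neg_eq_neg_one_mul, rz_hom hp2 _ _ (by norm_num) hs.ne_zero, rz_m hs hp2 hpP,
    rz_m1 (m := m) hp2]
  linear_combination al m p * h20

lemma sum_rW (hs : Squarefree m) (hp2 : p ≠ 2) (hpP : p ∈ PR m) :
    ∑ q ∈ PR m, rz p (ps m q) * y q = ∑ q ∈ PR m, Lm m p q * y q + rz p m * y p := by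
  rw [← Finset.add_sum_erase _ _ hpP, ← Finset.add_sum_erase _ (fun q => Lm m p q * y q) hpP,
    rz_ps_self hp2, rz_m hs hp2 hpP]
  have h1 : ∑ q ∈ (PR m).erase p, rz p (ps m q) * y q = ∑ q ∈ (PR m).erase p, Lm m p q * y q := by
    refine Finset.sum_congr rfl fun q hq => ?_
    have hqp := Finset.ne_of_mem_erase hq
    have e : Lm m p q = ra p (ps m q) := if_neg hqp.symm
    rw [e, rz_ps hs hp2 (Finset.mem_of_mem_erase hq) hqp]
  rw [h1]
  linear_combination (-(Lm m p p * y p)) * h20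

lemma sum_rU (hs : Squarefree m) (hp2 : p ≠ 2) (hpP : p ∈ PR m) :
    ∑ r ∈ PR m, rz p ((r : ℕ) : ℤ) * x r = ∑ r ∈ PR m, Lm m r p * x r + Lm m p p * x p := by
  rw [← Finset.add_sum_erase _ _ hpP, ← Finset.add_sum_erase _ (fun r => Lm m r p * x r) hpP,
    rz_p]
  have h1 : ∑ q ∈ (PR m).erase p, rz p ((q : ℕ) : ℤ) * x q =
      ∑ q ∈ (PR m).erase p, Lm m q p * x q := by
    refine Finset.sum_congr rfl fun q hq => ?_
    have hqp := Finset.ne_of_mem_erase hq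
    have e : Lm m q p = ra q (ps m p) := if_neg hqp
    rw [e, rz_q hs hp2 (Finset.mem_of_mem_erase hq) hqp]
  rw [h1]
  linear_combination (-(Lm m p p * x p)) * h20

lemma a_zero (a0 : ¬ C3 m → a = 0) (h : (p : ℤ) ∣ m) (hp3 : p = 3) : a = 0 := by
  refine a0 fun h3 => ?_
  subst hp3
  unfold C3 at h3
  have : (3 : ℤ) ∣ m := h
  omega

lemma c_zero (c0 : (7 : ℤ) ∣ m → c = 0) (h : (p : ℤ) ∣ m) (hp7 : p = 7) : c = 0 := by
  refine c0 ?_
  subst hp7
  exact h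

lemma vz_W (hs : Squarefree m) (hp2 : p ≠ 2) (hpP : p ∈ PR m) (a0 : ¬ C3 m → a = 0)
    (c0 : (7 : ℤ) ∣ m → c = 0) : vz p (Wp m y a c) = y p := by
  have hpm := dvd_PR hs hpP hp2
  rw [F_W hs vz_hom]
  have h1 : vz p (-3) * a = 0 := by
    by_cases hp3 : p = 3
    · rw [a_zero a0 hpm hp3, mul_zero]
    · rw [vz_unit (nd_neg (n3 hp3)), zero_mul]
  have h2 : vz p (-7) * c = 0 := by
    by_cases hp7 : p = 7
    · rw [c_zero c0 hpm hp7, mul_zero]
    · rw [vz_unit (nd_neg (n7 hp7)), zero_mul]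
  have h3 : ∑ q ∈ PR m, vz p (ps m q) * y q = ∑ q ∈ PR m, if q = p then y q else 0 := by
    refine Finset.sum_congr rfl fun q hq => ?_
    rw [vz_ps hs hp2 hq]
    split_ifs <;> ring
  rw [h1, h2, h3, Finset.sum_ite_eq', if_pos hpP]
  ring

lemma vz_U (hs : Squarefree m) (hp2 : p ≠ 2) (hpP : p ∈ PR m) (a0 : ¬ C3 m → a = 0) :
    vz p (Up m x s a) = x p := by
  have hpm := dvd_PR hs hpP hp2
  rw [F_U hs vz_hom]
  have h1 : vz p 3 * a = 0 := by
    by_cases hp3 : p = 3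
    · rw [a_zero a0 hpm hp3, mul_zero]
    · rw [vz_unit (n3 hp3), zero_mul]
  have h3 : ∑ q ∈ PR m, vz p ((q : ℕ) : ℤ) * x q = ∑ q ∈ PR m, if q = p then x q else 0 := by
    refine Finset.sum_congr rfl fun q hq => ?_
    rw [vz_q hs hp2 hq]
    split_ifs <;> ring
  rw [h1, h3, Finset.sum_ite_eq', if_pos hpP, vz_unit (nd_neg nd1)]
  ring

/-- **The columns.** -/
theorem col_eq (hs : Squarefree m) (hp2 : p ≠ 2) (hpP : p ∈ PR m) (a0 : ¬ C3 m → a = 0) :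
    rz p (Up m x s a) + vz p (Up m x s a) * rz p (-m) =
      ∑ r ∈ PR m, Lm m r p * x r + s * al m p + a * ra 3 (ps m p) := by
  have hpm := dvd_PR hs hpP hp2
  rw [vz_U hs hp2 hpP a0, rz_mm hs hp2 hpP, F_U hs (rz_hom hp2), sum_rU hs hp2 hpP,
    rz_m1 (m := m) hp2]
  have h1 : rz p 3 * a = a * ra 3 (ps m p) := by
    by_cases hp3 : p = 3
    · rw [a_zero a0 hpm hp3, mul_zero, zero_mul]
    · have h3 : ra p ((3 : ℕ) : ℤ) = ra 3 (ps m p) := (ra_rec Nat.prime_three hp.out hp2).symm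
      rw [rz_unit (n3 hp3), ← h3, mul_comm]
      rfl
  rw [h1]
  linear_combination (Lm m p p * x p) * h20

/-- **The rows.** -/
theorem row_eq (hs : Squarefree m) (hp2 : p ≠ 2) (hpP : p ∈ PR m) (a0 : ¬ C3 m → a = 0)
    (c0 : (7 : ℤ) ∣ m → c = 0) :
    rz p (Wp m y a c) + (vz p (Wp m y a c) + vz p (-7) * vz p (Up m x s a)) * rz p m +
        vz p (Up m x s a) * rz p (-7) =
      Lm m p 7 * x p + ∑ q ∈ PR m, Lm m p q * y q + a * ra p (-3) + c * Lm m p 7 := by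
  have hpm := dvd_PR hs hpP hp2
  rw [vz_U hs hp2 hpP a0, vz_W hs hp2 hpP a0 c0, F_W hs (rz_hom hp2), sum_rW hs hp2 hpP]
  have h1 : rz p (-3) * a = a * ra p (-3) := by
    by_cases hp3 : p = 3
    · rw [a_zero a0 hpm hp3, mul_zero, zero_mul]
    · rw [rz_unit (nd_neg (n3 hp3)), mul_comm]
  have h2 : rz p (-7) * c = c * Lm m p 7 := by
    by_cases hp7 : p = 7
    · rw [c_zero c0 hpm hp7, mul_zero, zero_mul]
    · have e : Lm m p 7 = ra p (ps m 7) := if_neg hp7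
      rw [rz_unit (nd_neg (n7 hp7)), e, ps7, mul_comm]
  have h3 : vz p (-7) * x p * rz p m + x p * rz p (-7) = Lm m p 7 * x p := by
    by_cases hp7 : p = 7
    · subst hp7
      rw [v7_7, r7_7, rz_m hs hp2 hpP, al7]
      linear_combination (x 7) * h20
    · have e : Lm m p 7 = ra p (ps m 7) := if_neg hp7
      rw [vz_unit (nd_neg (n7 hp7)), rz_unit (nd_neg (n7 hp7)), e, ps7]
      ring
  rw [h1, h2]
  linear_combination h3 + (rz p m * y p) * h20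

/-- unramified primes -/
lemma vz_W_out (hs : Squarefree m) (hp2 : p ≠ 2) (hpP : p ∉ PR m) :
    vz p (Wp m y a c) = (if p = 3 then a else 0) + (if p = 7 then c else 0) := by
  rw [F_W hs vz_hom]
  have h1 : vz p (-3) * a = if p = 3 then a else 0 := by
    by_cases hp3 : p = 3
    · subst hp3
      have h4 : vz 3 (-3) = 1 := by
        rw [vz_neg (p := 3) (by norm_num)]
        exact vz_p (p := 3)
      rw [if_pos rfl, h4, one_mul]
    · rw [if_neg hp3, vz_unit (nd_neg (n3 hp3)), zero_mul]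
  have h2 : vz p (-7) * c = if p = 7 then c else 0 := by
    by_cases hp7 : p = 7
    · subst hp7
      rw [if_pos rfl, v7_7, one_mul]
    · rw [if_neg hp7, vz_unit (nd_neg (n7 hp7)), zero_mul]
  have h3 : ∑ q ∈ PR m, vz p (ps m q) * y q = 0 := by
    refine Finset.sum_eq_zero fun q hq => ?_
    rw [vz_ps hs hp2 hq, if_neg (by rintro rfl; exact hpP hq), zero_mul]
  rw [h1, h2, h3, add_zero]

lemma vz_U_out (hs : Squarefree m) (hp2 : p ≠ 2) (hpP : p ∉ PR m) :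
    vz p (Up m x s a) = if p = 3 then a else 0 := by
  rw [F_U hs vz_hom]
  have h1 : vz p 3 * a = if p = 3 then a else 0 := by
    by_cases hp3 : p = 3
    · subst hp3
      have h4 : vz 3 3 = 1 := vz_p (p := 3)
      rw [if_pos rfl, h4, one_mul]
    · rw [if_neg hp3, vz_unit (n3 hp3), zero_mul]
  have h3 : ∑ q ∈ PR m, vz p ((q : ℕ) : ℤ) * x q = 0 := by
    refine Finset.sum_eq_zero fun q hq => ?_
    rw [vz_q hs hp2 hq, if_neg (by rintro rfl; exact hpP hq), zero_mul]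
  rw [h1, h3, vz_unit (nd_neg nd1), zero_mul]
  ring

lemma out3 (hs : Squarefree m) (h3 : ¬ (3 : ℤ) ∣ m) : 3 ∉ PR m := fun h =>
  h3 (dvd_PR hs h (by norm_num))

lemma out7 (hs : Squarefree m) (h7 : ¬ (7 : ℤ) ∣ m) : 7 ∉ PR m := fun h =>
  h7 (dvd_PR hs h (by norm_num))

/-- **The equation at `3`.** -/
theorem at3_eq (hs : Squarefree m) (h3 : ¬ (3 : ℤ) ∣ m) :
    rz 3 (Wp m y a c) + rz 3 (Up m x s a) =
      ∑ p ∈ PR m, ra p (-3) * x p + ∑ q ∈ PR m, ra 3 (ps m q) * y q + s + a + c := by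
  have hp2 : (3 : ℕ) ≠ 2 := by norm_num
  have ho := out3 hs h3
  rw [F_W hs (rz_hom (p := 3) hp2), F_U hs (rz_hom (p := 3) hp2)]
  have e1 : rz 3 (-3) = 1 := by
    have e : (-3 : ℤ) = (-1) * ((3 : ℕ) : ℤ) := by norm_num
    rw [e, rz_hom (p := 3) hp2 _ _ (by norm_num) (by norm_num), rz_p (p := 3), add_zero,
      r3_2 (by norm_num)]
  have e2 : rz 3 3 = 0 := rz_p (p := 3)
  have e3 : rz 3 (-1) = 1 := r3_2 (by norm_num)
  have e4 : ∑ q ∈ PR m, rz 3 (ps m q) * y q = ∑ q ∈ PR m, ra 3 (ps m q) * y q :=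
    Finset.sum_congr rfl fun q hq => by
      rw [rz_ps (p := 3) hs hp2 hq (by rintro rfl; exact ho hq)]
  have e5 : ∑ q ∈ PR m, rz 3 ((q : ℕ) : ℤ) * x q = ∑ q ∈ PR m, ra q (-3) * x q :=
    Finset.sum_congr rfl fun q hq => by
      have hq3 : q ≠ 3 := by rintro rfl; exact ho hq
      rw [rz_unit (nd_q (p := 3) hs hp2 hq hq3), ra_m3 (prime_PR hs hq)]
  rw [e1, e2, e3, e4, e5, r3_7]
  ring

/-- **The equation at `7`.** -/
theorem at7_eq (hs : Squarefree m) (h7 : ¬ (7 : ℤ) ∣ m) :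
    rz 7 (Up m x s a) = ∑ p ∈ PR m, Lm m p 7 * x p + s + a := by
  have hp2 : (7 : ℕ) ≠ 2 := by norm_num
  have ho := out7 hs h7
  rw [F_U hs (rz_hom (p := 7) hp2)]
  have e2 : rz 7 3 = 1 := by
    rw [r7u (by norm_num), ra7]
    norm_num
  have e3 : rz 7 (-1) = 1 := by
    rw [r7u (by norm_num), ra7]
    norm_num
  have e5 : ∑ q ∈ PR m, rz 7 ((q : ℕ) : ℤ) * x q = ∑ q ∈ PR m, Lm m q 7 * x q :=
    Finset.sum_congr rfl fun q hq => by
      have hq7 : q ≠ 7 := by rintro rfl; exact ho hq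
      rw [rz_unit (nd_q (p := 7) hs hp2 hq hq7), Lm7 (prime_PR hs hq) hq7]
  rw [e2, e3, e5]
  ring

end

end Pool.Agent.N809.D21
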