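import Pool.Agent.N875.P17.Lo4
import Pool.Agent.N809.D21.Add

/-!
# Local points on `y² = x (x - 9 m) (x + 7 m)`: constructions
-/

set_option autoImplicit false

open Finset

namespace Pool.Agent.N809.D21

open Pool.Agent.N875.X15
open Pool.Agent.N875.P17 (sq_of exists_class sqp sq2 nz2 mod_mul hz oz hz_mul)
open Pool.Agent.TH841.SH (LocC SelG)

section

variable {K : Type} [Field K] [CharZero K] {m w u w' u' : ℤ}

/-- a point gives the local condition -/
lemma mk {x : K} (h0 : x ≠ 0) (h9 : x - 9 * m ≠ 0) (h7 : x + 7 * m ≠ 0)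
    (hs : IsSquare (x * (x - 9 * m) * (x + 7 * m))) (h1 : IsSquare (x * w))
    (h2 : IsSquare ((x - 9 * m) * u)) : LocC K 0 (9 * m) (-7 * m) w u := by
  obtain ⟨y, hy⟩ := hs
  have hy0 : y ≠ 0 := by
    rintro rfl
    rw [mul_zero] at hy
    exact mul_ne_zero (mul_ne_zero h0 h9) h7 hy
  refine ⟨x, y, hy0, ?_, ?_, ?_⟩
  · rw [pow_two, ← hy]
    push_cast
    ring
  · push_cast
    rwa [sub_zero]
  · push_cast
    exact h2

/-- the local condition in terms of `x` -/
lemma unmk (h : LocC K 0 (9 * m) (-7 * m) w u) :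
    ∃ x : K, x ≠ 0 ∧ x - 9 * m ≠ 0 ∧ x + 7 * m ≠ 0 ∧
      IsSquare (x * (x - 9 * m) * (x + 7 * m)) ∧ IsSquare (x * w) ∧
      IsSquare ((x - 9 * m) * u) := by
  obtain ⟨x, y, hy, hxy, h1, h2⟩ := h
  push_cast at hxy h1 h2
  have e1 : x - 0 = x := sub_zero x
  have e2 : x - -7 * (m : K) = x + 7 * m := by ring
  rw [e1, e2] at hxy
  rw [e1] at h1
  have h0 : x * (x - 9 * m) * (x + 7 * m) ≠ 0 := by rw [← hxy]; exact pow_ne_zero 2 hy
  exact ⟨x, left_ne_zero_of_mul (left_ne_zero_of_mul h0), right_ne_zero_of_mul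
    (left_ne_zero_of_mul h0), right_ne_zero_of_mul h0, ⟨y, by rw [← hxy, pow_two]⟩, h1, h2⟩

/-- the local condition only depends on the square classes -/
lemma congr (hw : w ≠ 0) (hu : u ≠ 0) (h : LocC K 0 (9 * m) (-7 * m) w u)
    (q1 : IsSquare (((w * w' : ℤ)) : K)) (q2 : IsSquare (((u * u' : ℤ)) : K)) :
    LocC K 0 (9 * m) (-7 * m) w' u' := by
  obtain ⟨x, h0, h9, h7, hs, h1, h2⟩ := unmk h
  have hw' : (w : K) ≠ 0 := by exact_mod_cast hw
  have hu' : (u : K) ≠ 0 := by exact_mod_cast hu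
  push_cast at q1 q2
  refine mk h0 h9 h7 hs ?_ ?_
  · refine sq_of (h1.mul q1) hw' ?_
    ring
  · refine sq_of (h2.mul q2) hu' ?_
    ring

/-- translation by `(0, 0)` -/
lemma tr1 (hm : m ≠ 0) (h : LocC K 0 (9 * m) (-7 * m) w u) :
    LocC K 0 (9 * m) (-7 * m) (-7 * w) (-m * u) := by
  obtain ⟨x, h0, h9, h7, ⟨r, hr⟩, ⟨s, hs⟩, ⟨t, ht⟩⟩ := unmk h
  have hm' : (m : K) ≠ 0 := by exact_mod_cast hm
  have e1 : -(63 * (m : K) ^ 2) / x - 9 * m = -(9 * m * (x + 7 * m)) / x := by
    field_simp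
    ring
  have e2 : -(63 * (m : K) ^ 2) / x + 7 * m = 7 * m * (x - 9 * m) / x := by
    field_simp
    ring
  have n63 : (63 : K) ≠ 0 := by norm_num
  have n9 : (9 : K) ≠ 0 := by norm_num
  have n7 : (7 : K) ≠ 0 := by norm_num
  refine mk (x := -(63 * (m : K) ^ 2) / x) ?_ ?_ ?_ ?_ ?_ ?_
  · exact div_ne_zero (neg_ne_zero.2 (mul_ne_zero n63 (pow_ne_zero 2 hm'))) h0
  · rw [e1]
    exact div_ne_zero (neg_ne_zero.2 (mul_ne_zero (mul_ne_zero n9 hm') h7)) h0
  · rw [e2]
    exact div_ne_zero (mul_ne_zero (mul_ne_zero n7 hm') h9) h0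
  · rw [e1, e2]
    refine ⟨63 * m ^ 2 * r / x ^ 2, ?_⟩
    have : -(63 * (m : K) ^ 2) / x * (-(9 * m * (x + 7 * m)) / x) * (7 * m * (x - 9 * m) / x) =
      (63 * m ^ 2) ^ 2 * (x * (x - 9 * m) * (x + 7 * m)) / x ^ 4 := by
      field_simp
      ring
    rw [this, hr]
    field_simp
  · push_cast
    refine ⟨21 * m * s / x, ?_⟩
    have : -(63 * (m : K) ^ 2) / x * (-7 * (w : K)) = (21 * m) ^ 2 * (x * w) / x ^ 2 := by
      field_simp
      ring
    rw [this, hs]
    field_simp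
  · rw [e1]
    push_cast
    refine ⟨3 * m * r * t / (x * (x - 9 * m)), ?_⟩
    have : -(9 * (m : K) * (x + 7 * m)) / x * (-m * u) =
      (3 * m) ^ 2 * (x * (x - 9 * m) * (x + 7 * m)) * ((x - 9 * m) * u) /
        (x * (x - 9 * m)) ^ 2 := by
      field_simp
      ring
    rw [this, hr, ht]
    field_simp

/-- translation by `(9 m, 0)` -/
lemma tr2 (hm : m ≠ 0) (h : LocC K 0 (9 * m) (-7 * m) w u) :
    LocC K 0 (9 * m) (-7 * m) (m * w) u := by
  obtain ⟨x, h0, h9, h7, ⟨r, hr⟩, ⟨s, hs⟩, ⟨t, ht⟩⟩ := unmk h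
  have hm' : (m : K) ≠ 0 := by exact_mod_cast hm
  have n9 : (9 : K) ≠ 0 := by norm_num
  have n144 : (144 : K) ≠ 0 := by norm_num
  have n16 : (16 : K) ≠ 0 := by norm_num
  have e1 : 9 * (m : K) * (x + 7 * m) / (x - 9 * m) - 9 * m = 144 * m ^ 2 / (x - 9 * m) := by
    field_simp
    ring
  have e2 : 9 * (m : K) * (x + 7 * m) / (x - 9 * m) + 7 * m = 16 * m * x / (x - 9 * m) := by
    field_simp
    ring
  refine mk (x := 9 * (m : K) * (x + 7 * m) / (x - 9 * m)) ?_ ?_ ?_ ?_ ?_ ?_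
  · exact div_ne_zero (mul_ne_zero (mul_ne_zero n9 hm') h7) h9
  · rw [e1]
    exact div_ne_zero (mul_ne_zero n144 (pow_ne_zero 2 hm')) h9
  · rw [e2]
    exact div_ne_zero (mul_ne_zero (mul_ne_zero n16 hm') h0) h9
  · rw [e1, e2]
    refine ⟨144 * m ^ 2 * r / (x - 9 * m) ^ 2, ?_⟩
    have : 9 * (m : K) * (x + 7 * m) / (x - 9 * m) * (144 * m ^ 2 / (x - 9 * m)) *
        (16 * m * x / (x - 9 * m)) =
      (144 * m ^ 2) ^ 2 * (x * (x - 9 * m) * (x + 7 * m)) / (x - 9 * m) ^ 4 := by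
      field_simp
      ring
    rw [this, hr]
    field_simp
  · push_cast
    refine ⟨3 * m * r * s / (x * (x - 9 * m)), ?_⟩
    have : 9 * (m : K) * (x + 7 * m) / (x - 9 * m) * (m * w) =
      (3 * m) ^ 2 * (x * (x - 9 * m) * (x + 7 * m)) * (x * w) / (x * (x - 9 * m)) ^ 2 := by
      field_simp
      ring
    rw [this, hr, hs]
    field_simp
  · rw [e1]
    refine ⟨12 * m * t / (x - 9 * m), ?_⟩
    have : 144 * (m : K) ^ 2 / (x - 9 * m) * (u : K) =
      (12 * m) ^ 2 * ((x - 9 * m) * u) / (x - 9 * m) ^ 2 := by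
      field_simp
      ring
    rw [this, ht]
    field_simp

/-- the classes of the 2-torsion points, with exponents -/
def TC (K : Type) [Field K] (m w u : ℤ) (α β : ZMod 2) : Prop :=
  IsSquare (((w * m ^ α.val * (-7) ^ β.val : ℤ)) : K) ∧
    IsSquare (((u * (-m) ^ β.val : ℤ)) : K)

lemma z2 (a : ZMod 2) : a = 0 ∨ a = 1 := by
  revert a
  decide

lemma val0 : (0 : ZMod 2).val = 0 := rfl
lemma val1 : (1 : ZMod 2).val = 1 := rfl

/-- square classes of torsion points -/
theorem of_TC (hm : m ≠ 0) (h1 : LocC K 0 (9 * m) (-7 * m) 1 1) {α β : ZMod 2}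
    (h : TC K m w u α β) : LocC K 0 (9 * m) (-7 * m) w u := by
  obtain ⟨a, b⟩ := h
  rcases z2 α with rfl | rfl <;> rcases z2 β with rfl | rfl <;>
    simp only [val0, val1, pow_zero, pow_one, mul_one] at a b
  · exact congr one_ne_zero one_ne_zero h1 (by rwa [one_mul]) (by rwa [one_mul])
  · refine congr (by norm_num) (mul_ne_zero (neg_ne_zero.2 hm) one_ne_zero) (tr1 hm h1) ?_ ?_
    · have e : -7 * 1 * w = w * -7 := by ring
      rw [e]
      exact a
    · have e : -m * 1 * u = u * -m := by ring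
      rw [e]
      exact b
  · refine congr (mul_ne_zero hm one_ne_zero) one_ne_zero (tr2 hm h1) ?_ ?_
    · have e : m * 1 * w = w * m := by ring
      rw [e]
      exact a
    · rwa [one_mul]
  · refine congr (mul_ne_zero hm (by norm_num)) (mul_ne_zero (neg_ne_zero.2 hm) one_ne_zero)
      (tr2 hm (tr1 hm h1)) ?_ ?_
    · have e : m * (-7 * 1) * w = w * m * -7 := by ring
      rw [e]
      exact a
    · have e : -m * 1 * u = u * -m := by ring
      rw [e]
      exact b

end

/-- the trivial class -/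
lemma one_p (p : ℕ) [Fact p.Prime] (m : ℤ) : LocC ℚ_[p] 0 (9 * m) (-7 * m) 1 1 := by
  obtain ⟨x, y, hy, hxy, h1, h2, -⟩ := Pool.Agent.TH841.SH.pt_pad p 0 (9 * m) (-7 * m)
  refine ⟨x, y, hy, hxy, ?_, ?_⟩
  · rw [Int.cast_one, mul_one]
    exact h1
  · rw [Int.cast_one, mul_one]
    exact h2

/-- the trivial class at the real place -/
lemma one_real (m : ℤ) : LocC ℝ 0 (9 * m) (-7 * m) 1 1 := by
  obtain ⟨x, y, hy, hxy, h1, h2, -⟩ := Pool.Agent.TH841.SH.pt_real 0 (9 * m) (-7 * m)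
  refine ⟨x, y, hy, hxy, ?_, ?_⟩
  · rw [Int.cast_one, mul_one]
    exact h1
  · rw [Int.cast_one, mul_one]
    exact h2

section

variable {p : ℕ} [hp : Fact p.Prime]

/-- products of classes -/
theorem mulC {m w u w' u' : ℤ} (hm : m ≠ 0) (h : LocC ℚ_[p] 0 (9 * m) (-7 * m) w u)
    (h' : LocC ℚ_[p] 0 (9 * m) (-7 * m) w' u') :
    LocC ℚ_[p] 0 (9 * m) (-7 * m) (w * w') (u * u') :=
  locC_mul (by omega) (by omega) (by omega) h h'

/-- **The good primes.** -/
theorem good (hp2 : p ≠ 2) (hp3 : p ≠ 3) (hp7 : p ≠ 7) {m d1 d2 : ℤ} (hpm : ¬ (p : ℤ) ∣ m)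
    (h1 : ¬ (p : ℤ) ∣ d1) (h2 : ¬ (p : ℤ) ∣ d2) : LocC ℚ_[p] 0 (9 * m) (-7 * m) d1 d2 := by
  have hpr : Prime (p : ℤ) := Nat.prime_iff_prime_int.1 hp.out
  have hz : ∀ n : ℤ, ¬ (p : ℤ) ∣ n → ((n : ℤ) : ZMod p) ≠ 0 := fun n hn h =>
    hn ((ZMod.intCast_zmod_eq_zero_iff_dvd n p).1 h)
  have hzd : ∀ n : ℤ, ((n : ℤ) : ZMod p) ≠ 0 → ¬ (p : ℤ) ∣ n := fun n hn h =>
    hn ((ZMod.intCast_zmod_eq_zero_iff_dvd n p).2 h)
  have hmul : ∀ x y : ℤ, ¬ (p : ℤ) ∣ x → ¬ (p : ℤ) ∣ y → ¬ (p : ℤ) ∣ x * y := fun x y hx hy h => by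
    rcases hpr.dvd_or_dvd h with h3 | h3
    · exact hx h3
    · exact hy h3
  have hm0 : m ≠ 0 := by
    rintro rfl
    exact hpm (dvd_zero _)
  have n2 : ¬ (p : ℤ) ∣ 2 := not_dvd_of_prime Nat.prime_two hp2
  have n3 : ¬ (p : ℤ) ∣ 3 := by
    have := not_dvd_of_prime (p := p) Nat.prime_three hp3
    exact_mod_cast this
  have n7 : ¬ (p : ℤ) ∣ 7 := by
    have := not_dvd_of_prime (p := p) (by norm_num : Nat.Prime 7) hp7
    exact_mod_cast this
  have n4 : ¬ (p : ℤ) ∣ 4 := by
    have := hmul 2 2 n2 n2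
    norm_num at this
    exact this
  have n16 : ¬ (p : ℤ) ∣ 16 := by
    have := hmul 4 4 n4 n4
    norm_num at this
    exact this
  have n9 : ¬ (p : ℤ) ∣ 9 := by
    have := hmul 3 3 n3 n3
    norm_num at this
    exact this
  have n1 : ¬ (p : ℤ) ∣ -1 := by
    rw [dvd_neg]
    intro h
    have h3 : p ∣ 1 := by exact_mod_cast h
    exact hp.out.one_lt.ne' (Nat.dvd_one.1 h3)
  set χ := quadraticChar (ZMod p) with hχ
  have dich : ∀ n : ℤ, ¬ (p : ℤ) ∣ n → χ (n : ZMod p) = 1 ∨ χ (n : ZMod p) = -1 := fun n hn =>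
    quadraticChar_dichotomy (hz n hn)
  have self : ∀ n : ℤ, ¬ (p : ℤ) ∣ n → χ (n : ZMod p) * χ (n : ZMod p) = 1 := by
    intro n hn
    rcases dich n hn with h | h <;> rw [h] <;> norm_num
  have cm : ∀ x y : ℤ, χ ((x * y : ℤ) : ZMod p) = χ (x : ZMod p) * χ (y : ZMod p) := by
    intro x y
    push_cast
    rw [map_mul]
  have s9 : χ ((9 : ℤ) : ZMod p) = 1 := by
    have := self 3 n3
    rw [← cm] at this
    norm_num at this
    exact_mod_cast this
  have s16 : χ ((16 : ℤ) : ZMod p) = 1 := by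
    have := self 4 n4
    rw [← cm] at this
    norm_num at this
    exact_mod_cast this
  by_cases hne : χ (d1 : ZMod p) = 1 ∧ χ (d2 : ZMod p) = 1
  · exact of_TC (α := 0) (β := 0) hm0 (one_p p m) ⟨by
      simpa only [val0, pow_zero, mul_one] using sqp hp2 h1 hne.1, by
      simpa only [val0, pow_zero, mul_one] using sqp hp2 h2 hne.2⟩
  · have i9 : ¬ (p : ℤ) ∣ -(9 * m) := by rw [dvd_neg]; exact hmul _ _ n9 hpm
    have i7 : ¬ (p : ℤ) ∣ 7 * m := hmul _ _ n7 hpm
    have im : ¬ (p : ℤ) ∣ -m := by rwa [dvd_neg]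
    have i77 : ¬ (p : ℤ) ∣ -7 := by rwa [dvd_neg]
    obtain ⟨x, hx⟩ := exists_class hp2 (a := ((-(9 * m) : ℤ) : ZMod p))
      (b := ((7 * m : ℤ) : ZMod p)) (hz _ i9) (hz _ i7) (by
        intro h
        apply hmul 16 m n16 hpm
        rw [← ZMod.intCast_zmod_eq_zero_iff_dvd]
        push_cast at h ⊢
        linear_combination -h) (dich d1 h1) (dich d2 h2) hne
    have f1 := left_ne_zero_of_mul (left_ne_zero_of_mul hx)
    have f2 := right_ne_zero_of_mul (left_ne_zero_of_mul hx)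
    have f3 := right_ne_zero_of_mul hx
    -- the factors which do not vanish
    have conv : ∀ (e : ℤ) (y : ZMod p), (e = 1 ∨ e = -1) → y ≠ 0 → 1 + e * χ y ≠ 0 → χ y = e := by
      intro e y he hy h
      rcases quadraticChar_dichotomy hy with k | k
      · rcases he with rfl | rfl
        · exact k
        · exfalso
          apply h
          rw [k]
          norm_num
      · rcases he with rfl | rfl
        · exfalso
          apply h
          rw [k]
          norm_num
        · exact k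
    have he1 := dich d1 h1
    have he2 := dich d2 h2
    have he12 : χ (d1 : ZMod p) * χ (d2 : ZMod p) = 1 ∨ χ (d1 : ZMod p) * χ (d2 : ZMod p) = -1 := by
      rcases he1 with k | k <;> rcases he2 with k' | k' <;> rw [k, k'] <;> norm_num
    have t1 := self d1 h1
    have t2 := self d2 h2
    have e9 : χ ((-(9 * m) : ℤ) : ZMod p) = χ ((-m : ℤ) : ZMod p) := by
      have e : -(9 * m) = 9 * -m := by ring
      rw [e, cm, s9, one_mul]
    have e7 : χ ((7 * m : ℤ) : ZMod p) = χ ((-7 : ℤ) : ZMod p) * χ ((-m : ℤ) : ZMod p) := by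
      rw [← cm]
      congr 2
      ring
    by_cases x0 : x = 0
    · rw [x0, zero_add] at f2 f3
      have k2 := conv _ _ he2 (hz _ i9) f2
      have k3 := conv _ _ he12 (hz _ i7) f3
      rw [e9] at k2
      rw [e7, k2] at k3
      have k4 : χ ((-7 : ℤ) : ZMod p) = χ (d1 : ZMod p) := by
        linear_combination χ (d2 : ZMod p) * k3 + (χ (d1 : ZMod p) - χ ((-7 : ℤ) : ZMod p)) * t2
      refine of_TC (α := 0) (β := 1) hm0 (one_p p m) ⟨?_, ?_⟩
      · simp only [val0, val1, pow_zero, pow_one, mul_one]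
        exact sqp hp2 (hmul _ _ h1 i77) (by rw [← hχ, cm, k4]; exact t1)
      · simp only [val1, pow_one]
        exact sqp hp2 (hmul _ _ h2 im) (by rw [← hχ, cm, k2]; exact t2)
    · by_cases x1 : x + ((-(9 * m) : ℤ) : ZMod p) = 0
      · have hxm : x = ((9 * m : ℤ) : ZMod p) := by
          push_cast at x1 ⊢
          linear_combination x1
        have k1 := conv _ _ he1 x0 f1
        have hb : x + ((7 * m : ℤ) : ZMod p) = ((16 * m : ℤ) : ZMod p) := by
          rw [hxm]; push_cast; ring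
        have k3 := conv _ _ he12 (by
          rw [hb]
          exact hz _ (hmul _ _ n16 hpm)) f3
        rw [hxm, cm, s9, one_mul] at k1
        rw [hb, cm, s16, one_mul, k1] at k3
        have k4 : χ (d2 : ZMod p) = 1 := by
          linear_combination (-χ (d1 : ZMod p)) * k3 + (1 - χ (d2 : ZMod p)) * t1
        refine of_TC (α := 1) (β := 0) hm0 (one_p p m) ⟨?_, ?_⟩
        · simp only [val0, val1, pow_zero, pow_one, mul_one]
          exact sqp hp2 (hmul _ _ h1 hpm) (by rw [← hχ, cm, k1]; exact t1)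
        · simp only [val0, pow_zero, mul_one]
          exact sqp hp2 h2 k4
      · by_cases x2 : x + ((7 * m : ℤ) : ZMod p) = 0
        · have hxm : x = ((-7 * m : ℤ) : ZMod p) := by
            push_cast at x2 ⊢
            linear_combination x2
          have k1 := conv _ _ he1 x0 f1
          have k2 := conv _ _ he2 x1 f2
          have hb : x + ((-(9 * m) : ℤ) : ZMod p) = ((16 * -m : ℤ) : ZMod p) := by
            rw [hxm]; push_cast; ring
          rw [hxm] at k1
          rw [hb, cm, s16, one_mul] at k2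
          refine of_TC (α := 1) (β := 1) hm0 (one_p p m) ⟨?_, ?_⟩
          · simp only [val1, pow_one]
            exact sqp hp2 (hmul _ _ (hmul _ _ h1 hpm) i77) (by
              have e : d1 * m * -7 = d1 * (-7 * m) := by ring
              rw [← hχ, e, cm, k1]
              exact t1)
          · simp only [val1, pow_one]
            exact sqp hp2 (hmul _ _ h2 im) (by rw [← hχ, cm, k2]; exact t2)
        · have k1 := conv _ _ he1 x0 f1
          have k2 := conv _ _ he2 x1 f2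
          have k3 := conv _ _ he12 x2 f3
          obtain ⟨v, hv⟩ : ∃ v : ℤ, (v : ZMod p) = x := ⟨(x.val : ℤ), by simp⟩
          have e1 : ((v - 9 * m : ℤ) : ZMod p) = x + ((-(9 * m) : ℤ) : ZMod p) := by
            push_cast; rw [hv]; ring
          have e2 : ((v + 7 * m : ℤ) : ZMod p) = x + ((7 * m : ℤ) : ZMod p) := by
            push_cast; rw [hv]
          have z0 : ¬ (p : ℤ) ∣ v := hzd _ (by rw [hv]; exact x0)
          have z1 : ¬ (p : ℤ) ∣ v - 9 * m := hzd _ (by rw [e1]; exact x1)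
          have z2 : ¬ (p : ℤ) ∣ v + 7 * m := hzd _ (by rw [e2]; exact x2)
          have nz : ∀ n : ℤ, ¬ (p : ℤ) ∣ n → (n : ℚ_[p]) ≠ 0 := by
            intro n hn h0
            apply hn
            have : n = 0 := by exact_mod_cast h0
            rw [this]
            exact dvd_zero _
          refine mk (x := (v : ℚ_[p])) (nz _ z0) ?_ ?_ ?_ ?_ ?_
          · have := nz _ z1
            push_cast at this
            exact this
          · have := nz _ z2
            push_cast at this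
            exact this
          · have := sqp hp2 (n := v * (v - 9 * m) * (v + 7 * m)) (hmul _ _ (hmul _ _ z0 z1) z2) (by
              rw [← hχ, cm, cm, e1, e2, hv, k1, k2, k3]
              linear_combination χ (d2 : ZMod p) * χ (d2 : ZMod p) * t1 + t2)
            push_cast at this
            exact this
          · have := sqp hp2 (n := v * d1) (hmul _ _ z0 h1) (by
              rw [← hχ, cm, hv, k1]
              exact t1)
            push_cast at this
            exact this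
          · have := sqp hp2 (n := (v - 9 * m) * d2) (hmul _ _ z1 h2) (by
              rw [← hχ, cm, e1, k2]
              exact t2)
            push_cast at this
            exact this

end

end Pool.Agent.N809.D21
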