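import Pool.Agent.N809.D21.Nod
import Pool.Agent.N875.P17.Cn1

/-!
# The local images at `2`: constructions
-/

set_option autoImplicit false

open Finset

namespace Pool.Agent.N809.D21

open Pool.Agent.N875.X15
open Pool.Agent.N875.P17
open Pool.Agent.TH841.SH (LocC SelG)

lemma odd8 {a : ℤ} (h : a % 2 = 1) : a % 8 = 1 ∨ a % 8 = 3 ∨ a % 8 = 5 ∨ a % 8 = 7 := by omega

lemma sq8 {a : ℤ} (h : a % 2 = 1) : (a * a) % 8 = 1 := by
  rcases odd8 h with h | h | h | h <;> rw [mod_mul h h] <;> norm_num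

lemma c8 {m a b c d : ℤ} (h : LocC ℚ_[2] 0 (9 * m) (-7 * m) a b) (ha : a ≠ 0) (hb : b ≠ 0)
    (h1 : (a * c) % 8 = 1) (h2 : (b * d) % 8 = 1) : LocC ℚ_[2] 0 (9 * m) (-7 * m) c d :=
  congr ha hb h (sq_int h1) (sq_int h2)

/-- the class `(1, 5)` -/
lemma pt2a {m : ℤ} (hm : m % 2 = 1) : LocC ℚ_[2] 0 (9 * m) (-7 * m) 1 5 := by
  have n4 : (4 : ℚ_[2]) ≠ 0 := by norm_num
  have h1 : (1 - 36 * m) % 8 = 5 := by omega
  have h2 : (1 + 28 * m) % 8 = 5 := by omega
  have e1 : (1 : ℚ_[2]) / 4 - 9 * m = ((1 - 36 * m : ℤ) : ℚ_[2]) / 4 := by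
    push_cast
    field_simp
    ring
  have e2 : (1 : ℚ_[2]) / 4 + 7 * m = ((1 + 28 * m : ℤ) : ℚ_[2]) / 4 := by
    push_cast
    field_simp
    ring
  refine mk (x := (1 : ℚ_[2]) / 4) (div_ne_zero one_ne_zero n4) ?_ ?_ ?_ ?_ ?_
  · rw [e1]
    exact div_ne_zero (nz2 (by omega)) n4
  · rw [e2]
    exact div_ne_zero (nz2 (by omega)) n4
  · rw [e1, e2]
    have h3 : ((1 - 36 * m) * (1 + 28 * m)) % 8 = 1 := by
      rw [mod_mul h1 h2]
      norm_num
    refine sq2 (z := 1 / 8) h3 ?_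
    push_cast
    ring
  · refine ⟨1 / 2, ?_⟩
    push_cast
    ring
  · rw [e1]
    have h3 : ((1 - 36 * m) * 5) % 8 = 1 := by omega
    refine sq2 (z := 1 / 2) h3 ?_
    push_cast
    ring

/-- the class `(1, 1 - 9 m)` -/
lemma pt2b {m : ℤ} (h4 : m % 4 ≠ 1) : LocC ℚ_[2] 0 (9 * m) (-7 * m) 1 (1 - 9 * m) := by
  have e1 : (1 : ℚ_[2]) - 9 * m = ((1 - 9 * m : ℤ) : ℚ_[2]) := by push_cast; ring
  have e2 : (1 : ℚ_[2]) + 7 * m = ((1 + 7 * m : ℤ) : ℚ_[2]) := by push_cast; ring
  have a1 : (1 - 9 * m : ℤ) ≠ 0 := by omega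
  have a2 : (1 + 7 * m : ℤ) ≠ 0 := by omega
  have hs : IsSquare (((1 - 9 * m : ℤ) : ℚ_[2]) * ((1 + 7 * m : ℤ) : ℚ_[2])) := by
    by_cases h2 : m % 2 = 0
    · have h3 : ((1 - 9 * m) * (1 + 7 * m)) % 8 = 1 := by
        have : (1 + 7 * m) % 8 = (1 - 9 * m) % 8 := by omega
        rw [Int.mul_emod, this, ← Int.mul_emod]
        exact sq8 (by omega)
      have := sq_int h3
      push_cast at this ⊢
      exact this
    · obtain ⟨n, hn⟩ : ∃ n, 1 - 9 * m = 2 * n := ⟨(1 - 9 * m) / 2, by omega⟩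
      have hk : 1 + 7 * m = 2 * (n + 8 * m) := by omega
      have h3 : (n * (n + 8 * m)) % 8 = 1 := by
        have : (n + 8 * m) % 8 = n % 8 := by omega
        rw [Int.mul_emod, this, ← Int.mul_emod]
        exact sq8 (by omega)
      rw [hn, hk]
      refine sq2 (z := 2) h3 ?_
      push_cast
      ring
  refine mk (x := (1 : ℚ_[2])) one_ne_zero ?_ ?_ ?_ ?_ ?_
  · rw [e1]
    exact_mod_cast a1
  · rw [e2]
    exact_mod_cast a2
  · rw [e1, e2, one_mul]
    exact hs
  · refine ⟨1, ?_⟩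
    push_cast
    ring
  · rw [e1]
    exact IsSquare.mul_self _

/-- the class `(-3 m, -12 m)` -/
lemma pt2c {m : ℤ} (h8 : m % 8 = 1) : LocC ℚ_[2] 0 (9 * m) (-7 * m) (-3 * m) (-12 * m) := by
  have hm0 : m ≠ 0 := by omega
  have hm' : (m : ℚ_[2]) ≠ 0 := by exact_mod_cast hm0
  have e1 : -3 * (m : ℚ_[2]) - 9 * m = -12 * m := by ring
  have e2 : -3 * (m : ℚ_[2]) + 7 * m = 4 * m := by ring
  refine mk (x := -3 * (m : ℚ_[2])) (mul_ne_zero (by norm_num) hm') ?_ ?_ ?_ ?_ ?_
  · rw [e1]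
    exact mul_ne_zero (by norm_num) hm'
  · rw [e2]
    exact mul_ne_zero (by norm_num) hm'
  · rw [e1, e2]
    refine sq2 (z := 12 * m) h8 ?_
    ring
  · push_cast
    exact IsSquare.mul_self _
  · rw [e1]
    push_cast
    exact IsSquare.mul_self _

/-- the classes `(1, u)`, `u` odd -/
lemma two_1u {m u : ℤ} (h4 : m % 4 = 1) (hu : u % 2 = 1) :
    LocC ℚ_[2] 0 (9 * m) (-7 * m) 1 u := by
  have hm0 : m ≠ 0 := by omega
  by_cases h : u % 4 = 1
  · rcases (by omega : u % 8 = 1 ∨ u % 8 = 5) with k | k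
    · exact c8 (one_p 2 m) one_ne_zero one_ne_zero (by norm_num) (by rw [one_mul]; exact k)
    · exact c8 (pt2a (by omega)) one_ne_zero (by norm_num) (by norm_num) (by omega)
  · -- `- m u` is `1 mod 4`
    have h5 : ((-m) * u) % 4 = 1 := by
      rw [mod_mul (by omega : (-m) % 4 = 3) (by omega : u % 4 = 3)]
      norm_num
    rcases (by omega : ((-m) * u) % 8 = 1 ∨ ((-m) * u) % 8 = 5) with k | k
    · refine c8 (tr1 hm0 (one_p 2 m)) (by norm_num) (mul_ne_zero (neg_ne_zero.2 hm0) one_ne_zero)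
        (by norm_num) ?_
      rw [mul_one]
      exact k
    · refine c8 (tr1 hm0 (pt2a (by omega))) (by norm_num)
        (mul_ne_zero (neg_ne_zero.2 hm0) (by norm_num)) (by norm_num) ?_
      have e : -m * 5 * u = (-m * u) * 5 := by ring
      rw [e, mod_mul k (by norm_num : (5 : ℤ) % 8 = 5)]
      norm_num

/-- **`m ≡ 1 mod 4`** -/
theorem two_14 {m w u : ℤ} (h4 : m % 4 = 1) (hw : w % 4 = 1) (hu : u % 2 = 1) :
    LocC ℚ_[2] 0 (9 * m) (-7 * m) w u := by
  have hm0 : m ≠ 0 := by omega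
  have hu0 : u ≠ 0 := by omega
  rcases (by omega : w % 8 = 1 ∨ w % 8 = 5) with h | h
  · exact c8 (two_1u h4 hu) one_ne_zero hu0 (by rw [one_mul]; exact h) (sq8 hu)
  · rcases (by omega : m % 8 = 1 ∨ m % 8 = 5) with k | k
    · -- the point `- 3 m`
      have hodd : (-3 * m * u) % 2 = 1 := by
        rw [mod_mul (by omega : (-3 * m) % 2 = 1) hu]
        norm_num
      have h1 := mulC hm0 (pt2c k) (two_1u h4 hodd)
      refine congr ?_ ?_ h1 (sq_int ?_) ?_
      · exact mul_ne_zero (mul_ne_zero (by norm_num) hm0) one_ne_zero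
      · exact mul_ne_zero (mul_ne_zero (by norm_num) hm0)
          (mul_ne_zero (mul_ne_zero (by norm_num) hm0) hu0)
      · rw [mul_one, mod_mul (by omega : (-3 * m) % 8 = 5) h]
        norm_num
      · refine ⟨6 * m * u, ?_⟩
        push_cast
        ring
    · refine c8 (tr2 hm0 (two_1u h4 hu)) (mul_ne_zero hm0 one_ne_zero) hu0 ?_ (sq8 hu)
      rw [mul_one, mod_mul k h]
      norm_num

lemma z10 : ¬ ((1 : ZMod 2) = 0) := by decide

/-- the classes `(1, u)` in the ramified case, `u` odd -/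
lemma two_odd {c o u : ℤ} (hc : c = -1 ∨ c = 2 ∨ c = -2) (ho : o % 4 = 1) (hu : u % 2 = 1)
    (h : hz c u = 0) : LocC ℚ_[2] 0 (9 * (c * o)) (-7 * (c * o)) 1 u := by
  have h0 : u % 8 = 1 → LocC ℚ_[2] 0 (9 * (c * o)) (-7 * (c * o)) 1 u := fun hu8 =>
    c8 (one_p 2 (c * o)) one_ne_zero one_ne_zero (by norm_num) (by rw [one_mul]; exact hu8)
  unfold hz at h
  rcases hc with rfl | rfl | rfl
  · rw [if_pos rfl] at h
    have h4 : u % 4 = 1 := by
      by_contra hcon
      rw [if_neg hcon] at h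
      exact z10 h
    rcases (by omega : u % 8 = 1 ∨ u % 8 = 5) with h8 | h8
    · exact h0 h8
    · exact c8 (pt2a (by omega)) one_ne_zero (by norm_num) (by norm_num) (by omega)
  · rw [if_neg (by norm_num), if_pos rfl] at h
    have h4 : u % 8 = 1 ∨ u % 8 = 7 := by
      by_contra hcon
      rw [if_neg hcon] at h
      exact z10 h
    rcases h4 with h8 | h8
    · exact h0 h8
    · refine c8 (pt2b (by omega)) one_ne_zero (by omega) (by norm_num) ?_
      rw [mod_mul (by omega : (1 - 9 * (2 * o)) % 8 = 7) h8]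
      norm_num
  · rw [if_neg (by norm_num), if_neg (by norm_num)] at h
    have h4 : u % 8 = 1 ∨ u % 8 = 3 := by
      by_contra hcon
      rw [if_neg hcon] at h
      exact z10 h
    rcases h4 with h8 | h8
    · exact h0 h8
    · refine c8 (pt2b (by omega)) one_ne_zero (by omega) (by norm_num) ?_
      rw [mod_mul (by omega : (1 - 9 * (-2 * o)) % 8 = 3) h8]
      norm_num

/-- the classes `(1, 2 u)` in the ramified case, `u` odd -/
lemma two_even {c o u : ℤ} (hc : c = -1 ∨ c = 2 ∨ c = -2) (ho : o % 4 = 1) (hu : u % 2 = 1)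
    (h : hz c u + oz o = 0) : LocC ℚ_[2] 0 (9 * (c * o)) (-7 * (c * o)) 1 (2 * u) := by
  have hu0 : u ≠ 0 := by omega
  have ho0 : o ≠ 0 := by omega
  have hoo : o % 2 = 1 := by omega
  have hm0 : c * o ≠ 0 := by
    refine mul_ne_zero ?_ ho0
    rcases hc with rfl | rfl | rfl <;> norm_num
  have zo : oz o = hz c o ∨ c = -1 := by
    rcases eq_or_ne c (-1) with h1 | h1
    · exact Or.inr h1
    · left
      rw [hz_oz hc ho, if_neg h1]
  rcases hc with rfl | hc
  · -- `c = -1`: the classes of `1 - 9 m` and `5 (1 - 9 m)`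
    have hz1 : hz (-1) u = if u % 4 = 1 then 0 else 1 := if_pos rfl
    rw [hz1] at h
    unfold oz at h
    obtain ⟨n, hn⟩ : ∃ n, 1 + 9 * o = 2 * n := ⟨(1 + 9 * o) / 2, by omega⟩
    have e9 : 1 - 9 * (-1 * o) = 2 * n := by omega
    have h1 := pt2b (m := -1 * o) (by omega)
    rw [e9] at h1
    have hn2 : n % 2 = 1 := by omega
    have hn0 : n ≠ 0 := by omega
    have hnu : (n * u) % 4 = 1 := by
      by_cases h5 : o % 8 = 1
      · rw [if_pos h5, add_zero] at h
        have h6 : u % 4 = 1 := by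
          by_contra hcon
          rw [if_neg hcon] at h
          exact z10 h
        rw [mod_mul (by omega : n % 4 = 1) h6]
        norm_num
      · rw [if_neg h5] at h
        have h6 : u % 4 = 3 := by
          by_contra hcon
          rw [if_pos (by omega), zero_add] at h
          exact z10 h
        rw [mod_mul (by omega : n % 4 = 3) h6]
        norm_num
    rcases (by omega : (n * u) % 8 = 1 ∨ (n * u) % 8 = 5) with k | k
    · refine congr one_ne_zero (mul_ne_zero (by norm_num) hn0) h1 ⟨1, by norm_num⟩ ?_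
      refine sq2 (z := 2) k ?_
      push_cast
      ring
    · have h2 := mulC hm0 h1 (pt2a (m := -1 * o) (by omega))
      rw [mul_one] at h2
      refine congr one_ne_zero (mul_ne_zero (mul_ne_zero (by norm_num) hn0) (by norm_num)) h2
        ⟨1, by norm_num⟩ ?_
      have k5 : (n * u * 5) % 8 = 1 := by
        rw [mod_mul k (by norm_num : (5 : ℤ) % 8 = 5)]
        norm_num
      refine sq2 (z := 2) k5 ?_
      push_cast
      ring
  · -- `c = ± 2`: the translation by the point `(0, 0)`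
    have hc' : c = -1 ∨ c = 2 ∨ c = -2 := Or.inr hc
    have hc1 : c ≠ -1 := by rcases hc with rfl | rfl <;> norm_num
    obtain ⟨e, he, hce⟩ : ∃ e : ℤ, (e = 1 ∨ e = -1) ∧ c = 2 * e := by
      rcases hc with rfl | rfl
      · exact ⟨1, Or.inl rfl, rfl⟩
      · exact ⟨-1, Or.inr rfl, rfl⟩
    -- `v = - e o u`
    have he2 : e % 2 = 1 := by rcases he with rfl | rfl <;> norm_num
    have hv2 : (-e * (o * u)) % 2 = 1 := by
      rw [mod_mul (by omega : (-e) % 2 = 1) (mod_mul hoo hu)]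
      norm_num
    have hve : hz c (-e) = 0 := by
      rcases he with rfl | rfl
      · rw [hce]
        unfold hz
        norm_num
      · rw [hce]
        unfold hz
        norm_num
    have hzv : hz c (-e * (o * u)) = 0 := by
      have hou : (o * u) % 2 = 1 := by rw [mod_mul hoo hu]; norm_num
      rw [hz_mul hc' (by omega) hou, hz_mul hc' hoo hu, hve, zero_add, add_comm]
      rcases zo with h1 | h1
      · rwa [← h1]
      · exact absurd h1 hc1
    have h1 := tr1 hm0 (two_odd hc' ho hv2 hzv)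
    have he0 : e ≠ 0 := by rcases he with rfl | rfl <;> norm_num
    refine congr (by norm_num) (mul_ne_zero (neg_ne_zero.2 hm0)
      (mul_ne_zero (neg_ne_zero.2 he0) (mul_ne_zero ho0 hu0))) h1 (sq_int (by norm_num)) ?_
    refine ⟨2 * e * o * u, ?_⟩
    rw [hce]
    push_cast
    ring

/-- **The ramified case** -/
theorem two_ram {m c o w u : ℤ} {k : ZMod 2} (hm : m = c * o)
    (hc : c = -1 ∨ c = 2 ∨ c = -2) (ho : o % 4 = 1) (hu : u % 2 = 1)
    (h1 : IsSquare (w : ℚ_[2]) ∨ IsSquare (((m * w : ℤ)) : ℚ_[2]))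
    (h2 : hz c u + k * oz o = 0) : LocC ℚ_[2] 0 (9 * m) (-7 * m) w (2 ^ k.val * u) := by
  subst hm
  have hm0 : c * o ≠ 0 := by
    refine mul_ne_zero ?_ (by omega)
    rcases hc with rfl | rfl | rfl <;> norm_num
  have hu0 : u ≠ 0 := by omega
  have hk0 : (2 : ℤ) ^ k.val * u ≠ 0 := mul_ne_zero (pow_ne_zero _ (by norm_num)) hu0
  have h3 : LocC ℚ_[2] 0 (9 * (c * o)) (-7 * (c * o)) 1 (2 ^ k.val * u) := by
    rcases z2 k with rfl | rfl
    · rw [val0, pow_zero, one_mul]
      exact two_odd hc ho hu (by rwa [zero_mul, add_zero] at h2)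
    · rw [val1, pow_one]
      exact two_even hc ho hu (by rwa [one_mul] at h2)
  rcases h1 with h1 | h1
  · exact congr one_ne_zero hk0 h3 (by rwa [one_mul]) (by push_cast; exact IsSquare.mul_self _)
  · refine congr (mul_ne_zero hm0 one_ne_zero) hk0 (tr2 hm0 h3) ?_
      (by push_cast; exact IsSquare.mul_self _)
    rwa [mul_one]

end Pool.Agent.N809.D21
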