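import Pool.Agent.N809.D21.Lin
import Pool.Agent.N809.D21.Su2

/-!
# The prime `2`: additive functions and the equations
-/

set_option autoImplicit false

open Finset

namespace Pool.Agent.N809.D21

open Pool.Agent.N875.X15
open Pool.Agent.N875.P17
open Pool.Agent.Y667.RP (mod_of_sq)
open Pool.Agent.N809.PQ (ra3 ra7 ps7 al7 Lm7 Lm7_two ra_m3 ra_m7 prime_PR dvd_PR PR_of_dvd C3 C7
  Sol21 Sg21)
open Pool.Agent.TH841.SH (LocC SelG)

/-- the symbol `(c, n')_2` of the odd part `n'` of `n` -/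
def H (c n : ℤ) : ZMod 2 := hz c (n / 2 ^ padicValInt 2 n)

lemma dec2 {n : ℤ} (hn : n ≠ 0) : ∃ n' : ℤ, n = 2 ^ padicValInt 2 n * n' ∧ n' % 2 = 1 := by
  obtain ⟨n', h1, h2⟩ := dec (p := 2) hn
  refine ⟨n', by exact_mod_cast h1, ?_⟩
  have h3 : ¬ (2 : ℤ) ∣ n' := by exact_mod_cast h2
  omega

lemma pvi2 {n n' : ℤ} {k : ℕ} (h : n = 2 ^ k * n') (hn' : n' % 2 = 1) : padicValInt 2 n = k :=
  pvi (p := 2) (by exact_mod_cast h) (by
    intro h3
    have : (2 : ℤ) ∣ n' := by exact_mod_cast h3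
    omega)

lemma H_of {c n n' : ℤ} {k : ℕ} (h : n = 2 ^ k * n') (hn' : n' % 2 = 1) : H c n = hz c n' := by
  unfold H
  rw [pvi2 h hn', h, Int.mul_ediv_cancel_left _ (pow_ne_zero _ (by norm_num))]

lemma H_odd {c n : ℤ} (hn : n % 2 = 1) : H c n = hz c n :=
  H_of (k := 0) (by rw [pow_zero, one_mul]) hn

lemma H_hom {c : ℤ} (hc : c = -1 ∨ c = 2 ∨ c = -2) : Hom (H c) := by
  intro a b ha hb
  obtain ⟨a', h1, h2⟩ := dec2 ha
  obtain ⟨b', h3, h4⟩ := dec2 hb
  have h5 : a * b = 2 ^ (padicValInt 2 a + padicValInt 2 b) * (a' * b') := by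
    rw [pow_add]
    calc a * b = (2 ^ (padicValInt 2 a) * a') * (2 ^ (padicValInt 2 b) * b') := by
          rw [← h1, ← h3]
      _ = _ := by ring
  have h6 : (a' * b') % 2 = 1 := by rw [mod_mul h2 h4]; norm_num
  rw [H_of h5 h6, H_of h1 h2, H_of h3 h4, hz_mul hc h2 h4]

lemma hm1 : (-1 : ℤ) = -1 ∨ (-1 : ℤ) = 2 ∨ (-1 : ℤ) = -2 := Or.inl rfl
lemma h22 : (2 : ℤ) = -1 ∨ (2 : ℤ) = 2 ∨ (2 : ℤ) = -2 := Or.inr (Or.inl rfl)

lemma hz_m1 (n : ℤ) : hz (-1) n = if n % 4 = 1 then 0 else 1 := if_pos rfl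

lemma hz_2 (n : ℤ) : hz 2 n = if n % 8 = 1 ∨ n % 8 = 7 then 0 else 1 := by
  unfold hz
  rw [if_neg (by norm_num), if_pos rfl]

lemma vz2_odd {n : ℤ} (hn : n % 2 = 1) : vz 2 n = 0 := vz_unit (p := 2) (by
  intro h3
  have : (2 : ℤ) ∣ n := by exact_mod_cast h3
  omega)

/-- squares at `2` -/
theorem sq2_iff {n : ℤ} (hn : n ≠ 0) :
    IsSquare (n : ℚ_[2]) ↔ vz 2 n = 0 ∧ H (-1) n = 0 ∧ H 2 n = 0 := by
  obtain ⟨n', h1, h2⟩ := dec2 hn
  have hn' : (n : ℚ_[2]) ≠ 0 := by exact_mod_cast hn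
  have key : vz 2 n = 0 → (IsSquare (n : ℚ_[2]) ↔ n' % 8 = 1) := by
    intro h
    rw [vz_even (p := 2), val_pvi (p := 2)] at h
    obtain ⟨r, hr⟩ := h
    have hr0 : 0 ≤ r := by omega
    obtain ⟨k, rfl⟩ := Int.eq_ofNat_of_zero_le hr0
    have hk : padicValInt 2 n = k + k := by exact_mod_cast hr
    have e : (n : ℚ_[2]) = ((2 : ℚ_[2]) ^ k * (2 : ℚ_[2]) ^ k) * (n' : ℚ_[2]) := by
      have h3 : n = ((2 : ℤ) ^ k * (2 : ℤ) ^ k) * n' := by
        rw [← pow_add, ← hk]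
        exact h1
      have h4 := congrArg (Int.cast : ℤ → ℚ_[2]) h3
      push_cast at h4
      exact h4
    have hk0 : (2 : ℚ_[2]) ^ k ≠ 0 := pow_ne_zero _ two_ne_zero
    rw [e]
    constructor
    · intro h
      exact mod_of_sq (by omega) (sq_cancel (mul_ne_zero hk0 hk0) (IsSquare.mul_self _) h)
    · exact fun h => (IsSquare.mul_self _).mul (sq_int h)
  have key2 : (H (-1) n = 0 ∧ H 2 n = 0) ↔ n' % 8 = 1 := by
    rw [H_of h1 h2, H_of h1 h2, hz_m1, hz_2]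
    constructor
    · rintro ⟨a, b⟩
      have a' : n' % 4 = 1 := by
        by_contra hcon
        rw [if_neg hcon] at a
        exact z10 a
      have b' : n' % 8 = 1 ∨ n' % 8 = 7 := by
        by_contra hcon
        rw [if_neg hcon] at b
        exact z10 b
      omega
    · intro h
      rw [if_pos (by omega), if_pos (Or.inl h)]
      exact ⟨rfl, rfl⟩
  constructor
  · intro h
    have h0 : vz 2 n = 0 := (vz_even (p := 2)).2 (even_val hn' h)
    exact ⟨h0, key2.2 ((key h0).1 h)⟩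
  · rintro ⟨h3, h4⟩
    exact (key h3).2 (key2.1 h4)

section

variable {m : ℤ} {x y : ℕ → ZMod 2} {s a c : ZMod 2}

lemma odd_sgp {q : ℕ} (hq : q.Prime) (hq2 : q ≠ 2) : sgp q % 2 = 1 := by
  have := sgp_mod hq hq2
  omega

lemma odd_q {q : ℕ} (hq : q.Prime) (hq2 : q ≠ 2) : ((q : ℕ) : ℤ) % 2 = 1 := by
  have : q % 2 = 1 := hq.eq_two_or_odd.resolve_left hq2
  omega

/-- the values at the prime discriminants -/
lemma H_ps (hs : Squarefree m) {q : ℕ} (hq : q ∈ PR m) (hq2 : q ≠ 2) :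
    vz 2 (ps m q) = 0 ∧ H (-1) (ps m q) = 0 ∧ H 2 (ps m q) = ra 2 (ps m q) := by
  have hqp := prime_PR hs hq
  have h4 := sgp_mod hqp hq2
  rw [ps_odd hq2]
  refine ⟨vz2_odd (by omega), ?_, ?_⟩
  · rw [H_odd (by omega), hz_m1, if_pos h4]
  · rw [H_odd (by omega), ra_two, hz_oz h22 h4, if_neg (by norm_num)]

lemma ps2_cases (hs : Squarefree m) (h2 : 2 ∈ PR m) :
    ps m 2 = -1 ∨ ps m 2 = 2 ∨ ps m 2 = -2 := by
  rw [ps_two]
  obtain ⟨a1, a2⟩ := d2_spec hs
  have ho := oe_mod m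
  rcases a2 with ⟨-, a | a⟩ | ⟨-, a | a⟩
  · exfalso
    rw [a, one_mul] at a1
    have := (two_mem_PR hs.ne_zero).1 h2
    omega
  · exact Or.inl a
  · exact Or.inr (Or.inl a)
  · exact Or.inr (Or.inr a)

lemma v_m1 : vz 2 (-1) = 0 := vz2_odd (by norm_num)
lemma v_2 : vz 2 2 = 1 := vz_p (p := 2)
lemma v_m2 : vz 2 (-2) = 1 := by
  rw [vz_neg (p := 2) (by norm_num)]
  exact v_2
lemma f_1 (c : ℤ) : H c 1 = 0 := by rw [H_odd (by norm_num), hz_one]
lemma f_m1 : H (-1) (-1) = 1 := by rw [H_odd (by norm_num), hz_m1]; rfl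
lemma f_2 (c : ℤ) : H c 2 = 0 := by
  rw [H_of (k := 1) (n' := 1) (by norm_num) (by norm_num), hz_one]
lemma f_m2 : H (-1) (-2) = 1 := by
  rw [H_of (k := 1) (n' := -1) (by norm_num) (by norm_num), hz_m1]
  rfl
lemma t_m1 : H 2 (-1) = 0 := by rw [H_odd (by norm_num), hz_2]; rfl
lemma t_m2 : H 2 (-2) = 0 := by
  rw [H_of (k := 1) (n' := -1) (by norm_num) (by norm_num), hz_2]
  rfl

/-- `ps m 2` is not `1 mod 4` -/
lemma H_ps2 (hs : Squarefree m) (h2 : 2 ∈ PR m) :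
    H 2 (ps m 2) = 0 ∧ ∀ t : ZMod 2, vz 2 (ps m 2) * t = 0 → H (-1) (ps m 2) * t = 0 → t = 0 := by
  rcases ps2_cases hs h2 with h | h | h <;> rw [h]
  · refine ⟨t_m1, fun t _ h => ?_⟩
    rwa [f_m1, one_mul] at h
  · refine ⟨f_2 2, fun t h _ => ?_⟩
    rwa [v_2, one_mul] at h
  · refine ⟨t_m2, fun t h _ => ?_⟩
    rwa [v_m2, one_mul] at h

lemma sum_ps2 {F : ℤ → ZMod 2} (h0 : ∀ q ∈ PR m, q ≠ 2 → F (ps m q) = 0)
    (h2 : 2 ∈ PR m) : ∑ q ∈ PR m, F (ps m q) * y q = F (ps m 2) * y 2 := by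
  rw [← Finset.add_sum_erase _ _ h2, Finset.sum_eq_zero, add_zero]
  intro q hq
  rw [h0 q (Finset.mem_of_mem_erase hq) (Finset.ne_of_mem_erase hq), zero_mul]

lemma sum_ps2' {F : ℤ → ZMod 2} (h0 : ∀ q ∈ PR m, q ≠ 2 → F (ps m q) = 0)
    (h2 : 2 ∉ PR m) : ∑ q ∈ PR m, F (ps m q) * y q = 0 := by
  refine Finset.sum_eq_zero fun q hq => ?_
  rw [h0 q hq (by rintro rfl; exact h2 hq), zero_mul]

lemma F_m (hs : Squarefree m) {F : ℤ → ZMod 2} (hF : Hom F) : F m = ∑ q ∈ PR m, F (ps m q) := by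
  have h1 := hF.prod1 (PR m) (ps m) fun q hq => ps_ne hs hq
  rwa [prod_PR hs] at h1

/-- the first two functions on `W` -/
theorem W_two (hs : Squarefree m) (h2 : 2 ∈ PR m) :
    vz 2 (Wp m y a c) = vz 2 (ps m 2) * y 2 ∧ H (-1) (Wp m y a c) = H (-1) (ps m 2) * y 2 := by
  constructor
  · rw [F_W hs (vz_hom (p := 2)), sum_ps2 (fun q hq hq2 => (H_ps hs hq hq2).1) h2,
      vz2_odd (by norm_num), vz2_odd (by norm_num)]
    ring
  · rw [F_W hs (H_hom hm1), sum_ps2 (fun q hq hq2 => (H_ps hs hq hq2).2.1) h2,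
      H_odd (by norm_num), H_odd (by norm_num), hz_m1, hz_m1]
    norm_num

theorem W_two' (hs : Squarefree m) (h2 : 2 ∉ PR m) :
    vz 2 (Wp m y a c) = 0 ∧ H (-1) (Wp m y a c) = 0 := by
  constructor
  · rw [F_W hs (vz_hom (p := 2)), sum_ps2' (fun q hq hq2 => (H_ps hs hq hq2).1) h2,
      vz2_odd (by norm_num), vz2_odd (by norm_num)]
    ring
  · rw [F_W hs (H_hom hm1), sum_ps2' (fun q hq hq2 => (H_ps hs hq hq2).2.1) h2,
      H_odd (by norm_num), H_odd (by norm_num), hz_m1, hz_m1]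
    norm_num

theorem m_two (hs : Squarefree m) (h2 : 2 ∈ PR m) :
    vz 2 m = vz 2 (ps m 2) ∧ H (-1) m = H (-1) (ps m 2) := by
  constructor
  · have h1 := F_m hs (vz_hom (p := 2))
    have h3 := sum_ps2 (m := m) (y := fun _ => 1) (fun q hq hq2 => (H_ps hs hq hq2).1) h2
    simp only [mul_one] at h3
    rw [h1, h3]
  · have h1 := F_m hs (H_hom hm1)
    have h3 := sum_ps2 (m := m) (y := fun _ => 1) (fun q hq hq2 => (H_ps hs hq hq2).2.1) h2
    simp only [mul_one] at h3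
    rw [h1, h3]

/-- **The row of `2`.** -/
theorem row2_eq (hs : Squarefree m) (h2 : 2 ∈ PR m) :
    H 2 (Wp m y a c) + H 2 m * y 2 =
      Lm m 2 7 * x 2 + ∑ q ∈ PR m, Lm m 2 q * y q + a * ra 2 (-3) + c * Lm m 2 7 := by
  have e0 := (H_ps2 hs h2).1
  rw [F_W hs (H_hom h22), F_m hs (H_hom h22), Lm7_two, ← Finset.add_sum_erase _ _ h2,
    ← Finset.add_sum_erase _ (fun q => H 2 (ps m q)) h2,
    ← Finset.add_sum_erase _ (fun q => Lm m 2 q * y q) h2, e0]
  have e1 : ∑ q ∈ (PR m).erase 2, H 2 (ps m q) * y q = ∑ q ∈ (PR m).erase 2, Lm m 2 q * y q := by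
    refine Finset.sum_congr rfl fun q hq => ?_
    have hq2 := Finset.ne_of_mem_erase hq
    have e : Lm m 2 q = ra 2 (ps m q) := if_neg hq2.symm
    rw [e, (H_ps hs (Finset.mem_of_mem_erase hq) hq2).2.2]
  have e2 : ∑ q ∈ (PR m).erase 2, H 2 (ps m q) = Lm m 2 2 := by
    have e : Lm m 2 2 = ∑ r ∈ (PR m).erase 2, ra 2 (ps m r) := if_pos rfl
    rw [e]
    refine Finset.sum_congr rfl fun q hq => ?_
    rw [(H_ps hs (Finset.mem_of_mem_erase hq) (Finset.ne_of_mem_erase hq)).2.2]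
  have e3 : H 2 (-3) = 1 := by
    rw [H_odd (by norm_num), hz_2]
    norm_num
  have e4 : H 2 (-7) = 0 := by
    rw [H_odd (by norm_num), hz_2]
    norm_num
  have e5 : ra 2 (-3) = 1 := by
    rw [ra_two]
    unfold oz
    norm_num
  rw [e1, e2, e3, e4, e5]
  ring

/-- squares at `2` and the row -/
theorem row2_sq (hs : Squarefree m) (h2 : 2 ∈ PR m) :
    (IsSquare ((Wp m y a c : ℤ) : ℚ_[2]) ∨ IsSquare (((m * Wp m y a c : ℤ)) : ℚ_[2])) ↔
      Lm m 2 7 * x 2 + ∑ q ∈ PR m, Lm m 2 q * y q + a * ra 2 (-3) + c * Lm m 2 7 = 0 := by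
  have hW := Wp_ne (m := m) (y := y) (a := a) (c := c) hs
  have hm0 := hs.ne_zero
  obtain ⟨w1, w2⟩ := W_two (m := m) (y := y) (a := a) (c := c) hs h2
  obtain ⟨m1, m2⟩ := m_two hs h2
  obtain ⟨-, q⟩ := H_ps2 hs h2
  rw [← row2_eq (x := x) hs h2, sq2_iff hW, sq2_iff (mul_ne_zero hm0 hW),
    vz_hom (p := 2) _ _ hm0 hW, H_hom hm1 _ _ hm0 hW, H_hom h22 _ _ hm0 hW, w1, w2, m1, m2]
  constructor
  · rintro (⟨a1, a2, a3⟩ | ⟨a1, a2, a3⟩)
    · rw [q _ a1 a2, a3]
      ring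
    · have h3 := q (1 + y 2) (by linear_combination a1) (by linear_combination a2)
      have h4 : y 2 = 1 := by linear_combination h3 - h20
      rw [h4]
      linear_combination a3
  · intro h
    rcases z2 (y 2) with h3 | h3
    · left
      rw [h3] at h ⊢
      exact ⟨by ring, by ring, by linear_combination h⟩
    · right
      rw [h3] at h ⊢
      exact ⟨by linear_combination vz 2 (ps m 2) * h20,
        by linear_combination H (-1) (ps m 2) * h20, by linear_combination h⟩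

/-- **The column of `2`.** -/
theorem col2_eq (hs : Squarefree m) (h2 : 2 ∈ PR m) :
    H (ps m 2) (Up m x s a) + x 2 * oz (oe m) =
      ∑ p ∈ PR m, Lm m p 2 * x p + s * al m 2 + a * ra 3 (ps m 2) := by
  have hc := ps2_cases hs h2
  rw [F_U hs (H_hom hc), ← Finset.add_sum_erase _ _ h2,
    ← Finset.add_sum_erase _ (fun p => Lm m p 2 * x p) h2]
  have e1 : ∑ q ∈ (PR m).erase 2, H (ps m 2) ((q : ℕ) : ℤ) * x q =
      ∑ q ∈ (PR m).erase 2, Lm m q 2 * x q := by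
    refine Finset.sum_congr rfl fun q hq => ?_
    have hq2 := Finset.ne_of_mem_erase hq
    have hqp := prime_PR hs (Finset.mem_of_mem_erase hq)
    have e : Lm m q 2 = ra q (ps m 2) := if_neg hq2
    rw [e, H_odd (odd_q hqp hq2), ra_hz hc hqp hq2]
  have e2 : Lm m 2 2 = oz (oe m) := by
    have e : Lm m 2 2 = ∑ r ∈ (PR m).erase 2, ra 2 (ps m r) := if_pos rfl
    rw [e, ← ra_two, oe, ← PR_erase hs.ne_zero, ← ra_prod Nat.prime_two]
    · exact Finset.sum_congr rfl fun q hq => by rw [ps_odd (Finset.ne_of_mem_erase hq)]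
    · intro q hq
      rw [gd_two]
      exact sgp_mod (prime_PR hs (Finset.mem_of_mem_erase hq)) (Finset.ne_of_mem_erase hq)
  have e3 : H (ps m 2) ((2 : ℕ) : ℤ) = 0 := f_2 _
  have e4 : H (ps m 2) (-1) = al m 2 := by
    have e : al m 2 = if ps m 2 < 0 then 1 else 0 := rfl
    have h1 := hz_neg hc (u := 1) (by norm_num)
    rw [hz_one, zero_add] at h1
    rw [H_odd (by norm_num), e, ← h1]
  have e5 : H (ps m 2) 3 = ra 3 (ps m 2) := by
    rw [H_odd (by norm_num), ra_hz hc Nat.prime_three (by norm_num)]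
    rfl
  rw [e1, e2, e3, e4, e5]
  ring

/-- **The local condition at `2`** -/
theorem suff2 (hs : Squarefree m)
    (r2 : 2 ∈ PR m → Lm m 2 7 * x 2 + ∑ q ∈ PR m, Lm m 2 q * y q + a * ra 2 (-3) +
      c * Lm m 2 7 = 0)
    (c2 : 2 ∈ PR m → ∑ p ∈ PR m, Lm m p 2 * x p + s * al m 2 + a * ra 3 (ps m 2) = 0) :
    LocC ℚ_[2] 0 (9 * m) (-7 * m) (Wp m y a c) (Up m x s a) := by
  have hm0 := hs.ne_zero
  have hW := Wp_ne (m := m) (y := y) (a := a) (c := c) hs
  have oddP : ∀ T : Finset ℕ, (∀ p ∈ T, p ∈ PR m ∧ p ≠ 2) →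
      (∏ p ∈ T, ((p : ℕ) : ℤ) ^ (x p).val) % 2 = 1 := by
    intro T hT
    classical
    induction T using Finset.induction_on with
    | empty => rfl
    | insert b t hb ih =>
      rw [Finset.prod_insert hb]
      have h1 := hT b (Finset.mem_insert_self _ _)
      have h3 := odd_q (prime_PR hs h1.1) h1.2
      have h4 : ((b : ℤ) ^ (x b).val) % 2 = 1 := by
        rcases z2 (x b) with h | h <;> rw [h]
        · rfl
        · rw [val1, pow_one, h3]
      rw [mod_mul h4 (ih fun p hp => hT p (Finset.mem_insert_of_mem hp))]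
      norm_num
  have odd0 : ((-1 : ℤ) ^ s.val * 3 ^ a.val) % 2 = 1 := by
    rcases z2 s with h | h <;> rcases z2 a with h' | h' <;> rw [h, h'] <;> rfl
  by_cases h4 : m % 4 = 1
  · have h2P : 2 ∉ PR m := fun h => (two_mem_PR hm0).1 h h4
    refine two_14 h4 ?_ ?_
    · obtain ⟨w1, w2⟩ := W_two' (m := m) (y := y) (a := a) (c := c) hs h2P
      obtain ⟨n', h1, h3⟩ := dec2 hW
      have h5 : Wp m y a c % 2 = 1 := by
        by_contra hcon
        -- `W` is odd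
        have h6 : ∀ T : Finset ℕ, (∀ p ∈ T, p ∈ PR m ∧ p ≠ 2) →
            (∏ p ∈ T, ps m p ^ (y p).val) % 2 = 1 := by
          intro T hT
          classical
          induction T using Finset.induction_on with
          | empty => rfl
          | insert b t hb ih =>
            rw [Finset.prod_insert hb]
            have h1 := hT b (Finset.mem_insert_self _ _)
            have h3 := odd_sgp (prime_PR hs h1.1) h1.2
            have h4 : (ps m b ^ (y b).val) % 2 = 1 := by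
              rw [ps_odd h1.2]
              rcases z2 (y b) with h | h <;> rw [h]
              · rw [val0, pow_zero]
                rfl
              · rw [val1, pow_one, h3]
            rw [mod_mul h4 (ih fun p hp => hT p (Finset.mem_insert_of_mem hp))]
            norm_num
        apply hcon
        unfold Wp
        have h7 : ((-3 : ℤ) ^ a.val * (-7) ^ c.val) % 2 = 1 := by
          rcases z2 a with h | h <;> rcases z2 c with h' | h' <;> rw [h, h'] <;> rfl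
        rw [mod_mul h7 (h6 (PR m) fun p hp => ⟨hp, by rintro rfl; exact h2P hp⟩)]
        norm_num
      rw [H_odd h5, hz_m1] at w2
      by_contra hcon
      rw [if_neg hcon] at w2
      exact z10 w2
    · unfold Up
      rw [mod_mul odd0 (oddP (PR m) fun p hp => ⟨hp, by rintro rfl; exact h2P hp⟩)]
      norm_num
  · have h2P : 2 ∈ PR m := (two_mem_PR hm0).2 h4
    have hc := ps2_cases hs h2P
    have hmo : m = ps m 2 * oe m := by rw [ps_two]; exact (d2_spec hs).1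
    set u : ℤ := (-1) ^ s.val * 3 ^ a.val * ∏ p ∈ (PR m).erase 2, ((p : ℕ) : ℤ) ^ (x p).val with hu
    have hu2 : u % 2 = 1 := by
      rw [hu, mod_mul odd0 (oddP ((PR m).erase 2) fun p hp =>
        ⟨Finset.mem_of_mem_erase hp, Finset.ne_of_mem_erase hp⟩)]
      norm_num
    have hU : Up m x s a = 2 ^ (x 2).val * u := by
      unfold Up
      rw [← Finset.mul_prod_erase _ _ h2P, hu]
      push_cast
      ring
    have hcol := c2 h2P
    rw [← col2_eq hs h2P, hU, H_of rfl hu2] at hcol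
    rw [hU]
    exact two_ram hmo hc (oe_mod m) hu2 ((row2_sq (x := x) hs h2P).2 (r2 h2P)) hcol

end

end Pool.Agent.N809.D21
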