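import Pool.Agent.N809.D21.Gl

/-!
# **All quadratic twists of the curves `X_0(21)`**: `Fin2` and the symmetric system
-/

set_option autoImplicit false

open Finset

namespace Pool.Agent.N809.D21

open Pool.Agent.N875.X15 hiding Em EQm T4 T4_card T4_two nonsing isR WS Em_Δ EQm_Δ_ne vrS
open Pool.Agent.N875.P17 (ra_two oz al Lm hz sq_of row_sum prod_sign)
open Pool.Agent.N809.PQ (ra3 ra7 ps7 al7 Lm7 Lm7_two ra_m3 ra_m7 prime_PR dvd_PR PR_of_dvd C3 C7
  Sol21 Sg21 sum_ra_ps w21 sg21_parity)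
open Pool.Agent.TH841.SH (LocC SelG)

section

variable {m : ℤ} {x y : ℕ → ZMod 2} {s a c : ZMod 2}

/-- the sum of the signs -/
lemma sum_al (hs : Squarefree m) : ∑ q ∈ PR m, al m q = if m < 0 then 1 else 0 := by
  have h1 := F_m hs sgn_hom
  exact h1.symm

/-- the sum of the columns -/
lemma col_total (hs : Squarefree m) (s0 : m < 0 → s = 0) (a0 : ¬ C3 m → a = 0) :
    ∑ q ∈ PR m, (∑ p ∈ PR m, Lm m p q * x p + s * al m q + a * ra 3 (ps m q)) = 0 := by
  rw [Finset.sum_add_distrib, Finset.sum_add_distrib, Finset.sum_comm, ← Finset.mul_sum,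
    ← Finset.mul_sum, sum_al hs]
  have h1 : ∑ p ∈ PR m, ∑ q ∈ PR m, Lm m p q * x p = 0 := by
    refine Finset.sum_eq_zero fun p hp => ?_
    rw [← Finset.sum_mul, row_sum hp, zero_mul]
  have h2 : s * (if m < 0 then 1 else 0 : ZMod 2) = 0 := by
    by_cases h : m < 0
    · rw [s0 h, zero_mul]
    · rw [if_neg h, mul_zero]
  have h3 : a * ∑ q ∈ PR m, ra 3 (ps m q) = 0 := by
    by_cases h : C3 m
    · have h4 : ¬ (3 : ℤ) ∣ m := by unfold C3 at h; omega
      rw [sum_ra_ps hs Nat.prime_three (out3 hs h4), ra3, if_pos (show m % 3 = 1 from h), mul_zero]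
    · rw [a0 h, zero_mul]
  rw [h1, h2, h3]
  ring

/-- **The classes in the Selmer group are solutions.** -/
theorem sol_of_loc (hs : Squarefree m) (a0 : ¬ C3 m → a = 0) (c0 : (7 : ℤ) ∣ m → c = 0)
    (sw : Squarefree (Wp m y a c))
    (hR : LocC ℝ 0 (9 * m) (-7 * m) (Wp m y a c) (Up m x s a))
    (hp : ∀ (p : ℕ) [Fact p.Prime],
      LocC ℚ_[p] 0 (9 * m) (-7 * m) (Wp m y a c) (Up m x s a)) : Sol21 m x y s a c := by
  have hm0 := hs.ne_zero
  have hW := Wp_ne (m := m) (y := y) (a := a) (c := c) hs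
  have hU := Up_ne (m := m) (x := x) (s := s) (a := a) hs
  obtain ⟨r1, r2⟩ := (real_iff hm0 hW hU).1 hR
  have s0 : m < 0 → s = 0 := fun h => by
    have := (sgn_zero hU).2 (r2 h)
    rwa [sgn_U hs] at this
  have colodd : ∀ q ∈ PR m, q ≠ 2 →
      ∑ p ∈ PR m, Lm m p q * x p + s * al m q + a * ra 3 (ps m q) = 0 := by
    intro q hqP hq2
    have : Fact q.Prime := ⟨prime_PR hs hqP⟩
    have h1 := ((ram_iff hq2 hs (dvd_PR hs hqP hq2) hW hU).1 (hp q)).1
    rwa [col_eq hs hq2 hqP a0] at h1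
  exact {
    s0 := s0
    a0 := a0
    c0 := c0
    row := by
      intro p hpP
      by_cases hp2 : p = 2
      · subst hp2
        have h4 := (two_mem_PR hm0).1 hpP
        refine (row2_sq (x := x) hs hpP).1 ?_
        rcases nec2_w hs sw (hp 2) with h1 | h1
        · exact h1
        · omega
      · have : Fact p.Prime := ⟨prime_PR hs hpP⟩
        have h1 := ((ram_iff hp2 hs (dvd_PR hs hpP hp2) hW hU).1 (hp p)).2
        rwa [row_eq hs hp2 hpP a0 c0] at h1
    col := by
      intro q hqP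
      by_cases hq2 : q = 2
      · subst hq2
        have h1 := col_total (x := x) hs s0 a0
        rw [← Finset.add_sum_erase _ _ hqP, Finset.sum_eq_zero (s := (PR m).erase 2) (fun q hq =>
          colodd q (Finset.mem_of_mem_erase hq) (Finset.ne_of_mem_erase hq)), add_zero] at h1
        exact h1
      · exact colodd q hqP hq2
    sgn := fun hm => by
      have h1 := (sgn_zero (mul_ne_zero hW hU)).2 (r1 hm)
      rw [sgn_hom _ _ hW hU, sgn_W hs, sgn_U hs] at h1
      linear_combination h1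
    at3 := fun h => by
      have h3 : ¬ (3 : ℤ) ∣ m := by unfold C3 at h; omega
      have h1 := ((three_s h hW hU).1 (hp 3)).2
      rwa [at3_eq hs h3] at h1
    at7 := fun h7 => by
      by_cases hC : C7 m
      · have h1 := ((seven_s hC hW hU).1 (hp 7)).2
        rw [at7_eq hs h7] at h1
        rw [if_pos hC, add_zero]
        exact h1
      · have h1 := ((seven_n (by unfold C7 at hC; omega) hW hU).1 (hp 7)).2
        rw [at7_eq hs h7, vz_W_out (p := 7) hs (by norm_num) (out7 hs h7), if_neg (by norm_num),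
          if_pos rfl, zero_add] at h1
        rw [if_neg hC]
        linear_combination h1 + c * h20 }

end

/-- **`Sg21` implies `Fin2`.** -/
theorem fin2_of_sg {m : ℤ} (hs : Squarefree m) (hS : Sg21 m) : Fin2 (EQm m) := by
  classical
  let f : ZMod 2 × ZMod 2 → ℤ × ℤ := fun t =>
    (Wp m (fun q => t.2 + if q = 7 then t.1 else 0) 0 (if (7 : ℤ) ∣ m then 0 else t.1),
      Up m (fun p => if (p : ℤ) ∣ m then t.1 else 0) (if 0 < m then t.1 else 0) 0)
  have hsub : SelG 0 (9 * m) (-7 * m) ⊆ Set.range f := by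
    rintro ⟨w, u⟩ h
    obtain ⟨x, y, s, a, c, h1, h2, a0, c0⟩ := exists_WU hs h
    obtain ⟨hw, hu, hR, hp⟩ := h
    simp only at hw hu hR hp
    subst h1 h2
    have hsol := sol_of_loc hs a0 c0 hw hR hp
    obtain ⟨k1, α, β, k2, k3, k4, k5⟩ := hS x y s a c hsol
    refine ⟨(α, β), ?_⟩
    subst k1 k2 k3
    show (Wp m (fun q => β + if q = 7 then α else 0) 0 (if (7 : ℤ) ∣ m then 0 else α),
      Up m (fun p => if (p : ℤ) ∣ m then α else 0) (if 0 < m then α else 0) 0) = _
    unfold Wp Up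
    congr 1
    · congr 1
      exact Finset.prod_congr rfl fun q hq => by rw [k5 q hq]
    · congr 1
      exact Finset.prod_congr rfl fun q hq => by rw [k4 q hq]
  have hfr : (Set.range f).Finite := Set.finite_range f
  refine fin2_of_sel hs (hfr.subset hsub) ?_
  refine (Set.ncard_le_ncard hsub hfr).trans ?_
  rw [← Set.image_univ]
  refine (Set.ncard_image_le Set.finite_univ).trans ?_
  rw [Set.ncard_univ, Nat.card_eq_fintype_card]
  rfl

/-- **All the twists** of the curves of conductor `21`: rank zero and `Ш[2] = 0` if and only if the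
symmetric system has only the trivial solutions. -/
theorem fin2_iff {m : ℤ} (hs : Squarefree m) (h1 : m ≠ 1) : Fin2 (WS m) ↔ Sg21 m :=
  (fin2_S hs.ne_zero).trans ⟨sg_of_fin2 hs h1, fin2_of_sg hs⟩

/-- **Parity**: rank zero and `Ш[2] = 0` implies that the root number is `+ 1`. -/
theorem parity {m : ℤ} (hs : Squarefree m) (h1 : m ≠ 1) (hf : Fin2 (WS m)) : w21 m = 1 :=
  sg21_parity hs h1 ((fin2_iff hs h1).1 hf)

end Pool.Agent.N809.D21
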