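import Pool.Agent.N809.D21.Cls

/-!
# The local images in terms of the additive functions: odd primes and the real place
-/

set_option autoImplicit false

open Finset

namespace Pool.Agent.N809.D21

open Pool.Agent.N875.X15
open Pool.Agent.N875.P17
open Pool.Agent.N809.PQ (ra3 ra7)
open Pool.Agent.TH841.SH (LocC SelG)

lemma h20 : (2 : ZMod 2) = 0 := rfl

section

variable {p : ℕ} [hp : Fact p.Prime]

lemma vz_m {m : ℤ} (hm : Squarefree m) (h : (p : ℤ) ∣ m) : vz p m = 1 :=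
  vz_odd.2 (by rw [val_one h hm]; exact odd_one)

lemma congr_z (hp2 : p ≠ 2) {m w u w' u' : ℤ} (hw' : w' ≠ 0) (hu' : u' ≠ 0) (hw : w ≠ 0)
    (hu : u ≠ 0) (h : LocC ℚ_[p] 0 (9 * m) (-7 * m) w' u') (e1 : vz p w' = vz p w)
    (e2 : rz p w' = rz p w) (e3 : vz p u' = vz p u) (e4 : rz p u' = rz p u) :
    LocC ℚ_[p] 0 (9 * m) (-7 * m) w u := by
  refine congr hw' hu' h ?_ ?_
  · rw [sq_iff hp2 (mul_ne_zero hw' hw), vz_hom _ _ hw' hw, rz_hom hp2 _ _ hw' hw, e1, e2]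
    exact ⟨two_zmod _, two_zmod _⟩
  · rw [sq_iff hp2 (mul_ne_zero hu' hu), vz_hom _ _ hu' hu, rz_hom hp2 _ _ hu' hu, e3, e4]
    exact ⟨two_zmod _, two_zmod _⟩

/-- **The odd primes dividing `m`.** -/
theorem ram_iff (hp2 : p ≠ 2) {m w u : ℤ} (hm : Squarefree m) (hpm : (p : ℤ) ∣ m) (hw : w ≠ 0)
    (hu : u ≠ 0) : LocC ℚ_[p] 0 (9 * m) (-7 * m) w u ↔
      rz p u + vz p u * rz p (-m) = 0 ∧
      rz p w + (vz p w + vz p (-7) * vz p u) * rz p m + vz p u * rz p (-7) = 0 := by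
  have hm0 := hm.ne_zero
  have hv := vz_m hm hpm
  constructor
  · intro h
    obtain ⟨α, β, hT⟩ := ram hp2 hm hpm h
    obtain ⟨⟨a1, a2⟩, b1, b2⟩ := (TC_iff hp2 hm0 hw hu α β).1 hT
    rw [hv] at a1 b1
    have hβ : β = vz p u := by linear_combination b1 - vz p u * h20
    subst hβ
    have hα : α = vz p w + vz p (-7) * vz p u := by
      linear_combination a1 - (vz p w + vz p (-7) * vz p u) * h20
    subst hα
    exact ⟨by linear_combination b2, by linear_combination a2⟩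
  · rintro ⟨b2, a2⟩
    refine of_TC (α := vz p w + vz p (-7) * vz p u) (β := vz p u) hm0 (one_p p m)
      ((TC_iff hp2 hm0 hw hu _ _).2 ⟨⟨?_, ?_⟩, ?_, ?_⟩)
    · rw [hv]
      linear_combination (vz p w + vz p (-7) * vz p u) * h20
    · linear_combination a2
    · rw [hv]
      linear_combination vz p u * h20
    · linear_combination b2

/-- the good primes -/
theorem good_z (hp2 : p ≠ 2) (hp3 : p ≠ 3) (hp7 : p ≠ 7) {m w u : ℤ} (hpm : ¬ (p : ℤ) ∣ m)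
    (hw : w ≠ 0) (hu : u ≠ 0) (h1 : vz p w = 0) (h2 : vz p u = 0) :
    LocC ℚ_[p] 0 (9 * m) (-7 * m) w u := by
  obtain ⟨w', a1, a2⟩ := dec (p := p) hw
  obtain ⟨u', b1, b2⟩ := dec (p := p) hu
  have hw' : w' ≠ 0 := by rintro rfl; simp at a2
  have hu' : u' ≠ 0 := by rintro rfl; simp at b2
  refine congr_z hp2 hw' hu' hw hu (good hp2 hp3 hp7 hpm a2 b2) ?_ ?_ ?_ ?_
  · rw [vz_unit a2, h1]
  · rw [rz_unit a2, rz_of a1 a2]
  · rw [vz_unit b2, h2]
  · rw [rz_unit b2, rz_of b1 b2]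

lemma sqi (hp2 : p ≠ 2) {n : ℤ} (hn : ¬ (p : ℤ) ∣ n) (h : ra p n = 0) : IsSquare (n : ℚ_[p]) :=
  (ra_iff ((gd_odd hp2 _).2 hn)).1 h

end

/-! ### the prime `3` -/

lemma c3 : ((3 : ℕ) : ℤ) = 3 := rfl
lemma c7 : ((7 : ℕ) : ℤ) = 7 := rfl

lemma v3_7 : vz 3 (-7) = 0 := vz_unit (p := 3) (by norm_num)
lemma r3_7 : rz 3 (-7) = 1 := by
  rw [rz_unit (p := 3) (by norm_num), ra3]
  norm_num

lemma ne3 {n : ℤ} (h : n % 3 = 1 ∨ n % 3 = 2) : ¬ ((3 : ℕ) : ℤ) ∣ n := by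
  rw [c3]
  omega

lemma ne7 {n : ℤ} (h : ¬ (7 : ℤ) ∣ n) : ¬ ((7 : ℕ) : ℤ) ∣ n := h

lemma r3_1 {n : ℤ} (h : n % 3 = 1) : rz 3 n = 0 := by
  rw [rz_unit (p := 3) (ne3 (Or.inl h)), ra3, if_pos h]

lemma r3_2 {n : ℤ} (h : n % 3 = 2) : rz 3 n = 1 := by
  rw [rz_unit (p := 3) (ne3 (Or.inr h)), ra3, if_neg (by omega)]

lemma v3_u {n : ℤ} (h : n % 3 = 1 ∨ n % 3 = 2) : vz 3 n = 0 := vz_unit (p := 3) (ne3 h)

lemma s3 {n : ℤ} (h : n % 3 = 1) : IsSquare (n : ℚ_[3]) :=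
  sqi (p := 3) (by norm_num) (ne3 (Or.inl h)) (by rw [ra3, if_pos h])

lemma nz3 {n : ℤ} (h : n % 3 = 1 ∨ n % 3 = 2) : (n : ℚ_[3]) ≠ 0 := by
  have : n ≠ 0 := by rintro rfl; norm_num at h
  exact_mod_cast this

lemma pt3s {m : ℤ} (h3 : m % 3 = 1) : LocC ℚ_[3] 0 (9 * m) (-7 * m) 3 3 := by
  have n3 : (3 : ℚ_[3]) ≠ 0 := by norm_num
  have e1 : (3 : ℚ_[3]) - 9 * m = 3 * ((1 - 3 * m : ℤ) : ℚ_[3]) := by push_cast; ring
  have e2 : (3 : ℚ_[3]) + 7 * m = ((3 + 7 * m : ℤ) : ℚ_[3]) := by push_cast; ring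
  have s1 := s3 (n := 1 - 3 * m) (by omega)
  have s2 := s3 (n := 3 + 7 * m) (by omega)
  refine mk (x := (3 : ℚ_[3])) n3 ?_ ?_ ?_ ?_ ?_
  · rw [e1]
    exact mul_ne_zero n3 (nz3 (by omega))
  · rw [e2]
    exact nz3 (by omega)
  · rw [e1, e2]
    have e : (3 : ℚ_[3]) * (3 * ((1 - 3 * m : ℤ) : ℚ_[3])) * ((3 + 7 * m : ℤ) : ℚ_[3]) =
      (3 * 3) * ((1 - 3 * m : ℤ) : ℚ_[3]) * ((3 + 7 * m : ℤ) : ℚ_[3]) := by ring
    rw [e]
    exact ((IsSquare.mul_self _).mul s1).mul s2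
  · refine ⟨3, ?_⟩
    push_cast
    ring
  · rw [e1]
    have e : 3 * ((1 - 3 * m : ℤ) : ℚ_[3]) * ((3 : ℤ) : ℚ_[3]) =
      (3 * 3) * ((1 - 3 * m : ℤ) : ℚ_[3]) := by push_cast; ring
    rw [e]
    exact (IsSquare.mul_self _).mul s1

/-- **The prime `3`, split.** -/
theorem three_s {m w u : ℤ} (h3 : m % 3 = 1) (hw : w ≠ 0) (hu : u ≠ 0) :
    LocC ℚ_[3] 0 (9 * m) (-7 * m) w u ↔ vz 3 w + vz 3 u = 0 ∧ rz 3 w + rz 3 u = 0 := by
  have hm0 : m ≠ 0 := by omega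
  have hp2 : (3 : ℕ) ≠ 2 := by norm_num
  constructor
  · intro h
    have h1 := (sq_iff (p := 3) hp2 (mul_ne_zero hw hu)).1 (at3s h3 h)
    rwa [vz_hom (p := 3) _ _ hw hu, rz_hom (p := 3) hp2 _ _ hw hu] at h1
  · rintro ⟨h1, h2⟩
    have e1 : vz 3 u = vz 3 w := by linear_combination h1 - vz 3 w * h20
    have e2 : rz 3 u = rz 3 w := by linear_combination h2 - rz 3 w * h20
    -- the first class
    have key : ∀ {w' u' : ℤ}, w' ≠ 0 → u' ≠ 0 → LocC ℚ_[3] 0 (9 * m) (-7 * m) w' u' →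
        vz 3 w' = vz 3 w → vz 3 u' = vz 3 w → rz 3 w' = 0 → rz 3 u' = 0 →
        LocC ℚ_[3] 0 (9 * m) (-7 * m) w u := by
      intro w' u' hw' hu' h a1 a2 a3 a4
      have hm1 : (-m) % 3 = 2 := by omega
      rcases z2 (rz 3 w) with hr | hr
      · exact congr_z (p := 3) hp2 hw' hu' hw hu h a1 (by rw [a3, hr]) (by rw [a2, e1])
          (by rw [a4, e2, hr])
      · refine congr_z (p := 3) hp2 (mul_ne_zero (by norm_num) hw')
          (mul_ne_zero (neg_ne_zero.2 hm0) hu') hw hu (tr1 hm0 h) ?_ ?_ ?_ ?_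
        · rw [vz_hom (p := 3) _ _ (by norm_num) hw', v3_7, zero_add, a1]
        · rw [rz_hom (p := 3) hp2 _ _ (by norm_num) hw', r3_7, a3, hr, add_zero]
        · rw [vz_hom (p := 3) _ _ (neg_ne_zero.2 hm0) hu', v3_u (Or.inr hm1), zero_add, a2, e1]
        · rw [rz_hom (p := 3) hp2 _ _ (neg_ne_zero.2 hm0) hu', r3_2 hm1, a4, e2, hr, add_zero]
    rcases z2 (vz 3 w) with hv | hv
    · exact key one_ne_zero one_ne_zero (one_p 3 m) (by rw [hv, v3_u (Or.inl rfl)])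
        (by rw [hv, v3_u (Or.inl rfl)]) (r3_1 rfl) (r3_1 rfl)
    · have v33 : vz 3 3 = 1 := vz_p (p := 3)
      have r33 : rz 3 3 = 0 := rz_p (p := 3)
      exact key (by norm_num) (by norm_num) (pt3s h3) (by rw [hv, v33]) (by rw [hv, v33]) r33 r33

lemma pt3n {m : ℤ} (h3 : m % 3 = 2) : LocC ℚ_[3] 0 (9 * m) (-7 * m) 2 2 := by
  have n2 : (2 : ℚ_[3]) ≠ 0 := by norm_num
  have e1 : (2 : ℚ_[3]) - 9 * m = ((2 - 9 * m : ℤ) : ℚ_[3]) := by push_cast; ring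
  have e2 : (2 : ℚ_[3]) + 7 * m = ((2 + 7 * m : ℤ) : ℚ_[3]) := by push_cast; ring
  have s1 := s3 (n := (2 - 9 * m) * 2) (by omega)
  have s2 := s3 (n := 2 + 7 * m) (by omega)
  refine mk (x := (2 : ℚ_[3])) n2 ?_ ?_ ?_ ?_ ?_
  · rw [e1]
    exact nz3 (by omega)
  · rw [e2]
    exact nz3 (by omega)
  · rw [e2]
    have e : (2 : ℚ_[3]) * (2 - 9 * m) * ((2 + 7 * m : ℤ) : ℚ_[3]) =
      (((2 - 9 * m) * 2 : ℤ) : ℚ_[3]) * ((2 + 7 * m : ℤ) : ℚ_[3]) := by push_cast; ring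
    rw [e]
    exact s1.mul s2
  · refine ⟨2, ?_⟩
    push_cast
    ring
  · rw [e1]
    push_cast at s1 ⊢
    exact s1

/-- **The prime `3`, nonsplit.** -/
theorem three_n {m w u : ℤ} (h3 : m % 3 = 2) (hw : w ≠ 0) (hu : u ≠ 0) (h1 : vz 3 w = 0)
    (h2 : vz 3 u = 0) : LocC ℚ_[3] 0 (9 * m) (-7 * m) w u := by
  have hm0 : m ≠ 0 := by omega
  have hp2 : (3 : ℕ) ≠ 2 := by norm_num
  have key : ∀ {w' u' : ℤ}, w' ≠ 0 → u' ≠ 0 → LocC ℚ_[3] 0 (9 * m) (-7 * m) w' u' →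
      vz 3 w' = 0 → vz 3 u' = 0 → rz 3 w' = rz 3 u → rz 3 u' = rz 3 u →
      LocC ℚ_[3] 0 (9 * m) (-7 * m) w u := by
    intro w' u' hw' hu' h a1 a2 a3 a4
    rcases z2 (rz 3 w + rz 3 u) with hr | hr
    · have hr' : rz 3 w = rz 3 u := by linear_combination hr - rz 3 u * h20
      exact congr_z (p := 3) hp2 hw' hu' hw hu h (by rw [a1, h1]) (by rw [a3, hr'])
        (by rw [a2, h2]) a4
    · refine congr_z (p := 3) hp2 (mul_ne_zero hm0 hw') hu' hw hu (tr2 hm0 h) ?_ ?_ ?_ a4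
      · rw [vz_hom (p := 3) _ _ hm0 hw', v3_u (Or.inr h3), zero_add, a1, h1]
      · rw [rz_hom (p := 3) hp2 _ _ hm0 hw', r3_2 h3, a3]
        linear_combination -hr + rz 3 u * h20
      · rw [a2, h2]
  rcases z2 (rz 3 u) with hr | hr
  · exact key one_ne_zero one_ne_zero (one_p 3 m) (v3_u (Or.inl rfl)) (v3_u (Or.inl rfl))
      (by rw [hr, r3_1 rfl]) (by rw [hr, r3_1 rfl])
  · exact key (by norm_num) (by norm_num) (pt3n h3) (v3_u (Or.inr rfl)) (v3_u (Or.inr rfl))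
      (by rw [hr, r3_2 rfl]) (by rw [hr, r3_2 rfl])

/-! ### the prime `7` -/

lemma v7_7 : vz 7 (-7) = 1 := by
  have := vz_p (p := 7)
  rw [← vz_neg (p := 7) (by norm_num)] at this
  exact this

lemma r7_7 : rz 7 (-7) = 1 := by
  have e : (-7 : ℤ) = (-1) * ((7 : ℕ) : ℤ) := by norm_num
  rw [e, rz_hom (p := 7) (by norm_num) _ _ (by norm_num) (by norm_num), rz_p (p := 7), add_zero,
    rz_unit (p := 7) (by norm_num), ra7]
  norm_num

lemma r7u {n : ℤ} (h : ¬ (7 : ℤ) ∣ n) : rz 7 n = ra 7 n := rz_unit (p := 7) h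

lemma v7u {n : ℤ} (h : ¬ (7 : ℤ) ∣ n) : vz 7 n = 0 := vz_unit (p := 7) h

/-- **The prime `7`, split.** -/
theorem seven_s {m w u : ℤ} (h7 : m % 7 = 3 ∨ m % 7 = 5 ∨ m % 7 = 6) (hw : w ≠ 0) (hu : u ≠ 0) :
    LocC ℚ_[7] 0 (9 * m) (-7 * m) w u ↔ vz 7 u = 0 ∧ rz 7 u = 0 := by
  have hm0 : m ≠ 0 := by omega
  have hp2 : (7 : ℕ) ≠ 2 := by norm_num
  have hd : ¬ (7 : ℤ) ∣ m := by omega
  have hd' : ¬ (7 : ℤ) ∣ -m := by omega
  have r1 : rz 7 m = 1 := by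
    rw [r7u hd, ra7, if_neg (by omega)]
  have r2 : rz 7 (-m) = 0 := by
    rw [r7u hd', ra7, if_pos (by omega)]
  constructor
  · intro h
    rcases at7 hd hw h with ⟨h1, -⟩ | ⟨h1, -⟩
    · exact (sq_iff (p := 7) hp2 hu).1 h1
    · have h2 := (sq_iff (p := 7) hp2 (mul_ne_zero hu (neg_ne_zero.2 hm0))).1 h1
      rwa [vz_hom (p := 7) _ _ hu (neg_ne_zero.2 hm0), rz_hom (p := 7) hp2 _ _ hu
        (neg_ne_zero.2 hm0), v7u hd', r2, add_zero, add_zero] at h2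
  · rintro ⟨h1, h2⟩
    refine of_TC (α := rz 7 w + vz 7 w) (β := vz 7 w) hm0 (one_p 7 m)
      ((TC_iff (p := 7) hp2 hm0 hw hu _ _).2 ⟨⟨?_, ?_⟩, ?_, ?_⟩)
    · rw [v7u hd, v7_7]
      linear_combination vz 7 w * h20
    · rw [r1, r7_7]
      linear_combination (rz 7 w + vz 7 w) * h20
    · rw [v7u hd, h1]
      ring
    · rw [r2, h2]
      ring

lemma pt7 {m : ℤ} (h7 : m % 7 = 1 ∨ m % 7 = 2 ∨ m % 7 = 4) :
    LocC ℚ_[7] 0 (9 * m) (-7 * m) (3 * m) (-6 * m) := by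
  have hm0 : m ≠ 0 := by omega
  have hm' : (m : ℚ_[7]) ≠ 0 := by exact_mod_cast hm0
  have s1 : IsSquare (((-5 * m : ℤ)) : ℚ_[7]) := sqi (p := 7) (by norm_num)
    (by rw [c7]; omega) (by rw [ra7, if_pos (by omega)])
  have e1 : 3 * (m : ℚ_[7]) - 9 * m = -6 * m := by ring
  have e2 : 3 * (m : ℚ_[7]) + 7 * m = 10 * m := by ring
  refine mk (x := 3 * (m : ℚ_[7])) (mul_ne_zero (by norm_num) hm') ?_ ?_ ?_ ?_ ?_
  · rw [e1]
    exact mul_ne_zero (by norm_num) hm'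
  · rw [e2]
    exact mul_ne_zero (by norm_num) hm'
  · rw [e1, e2]
    have e : 3 * (m : ℚ_[7]) * (-6 * m) * (10 * m) = (6 * m * (6 * m)) *
      (((-5 * m : ℤ)) : ℚ_[7]) := by push_cast; ring
    rw [e]
    exact (IsSquare.mul_self _).mul s1
  · push_cast
    exact IsSquare.mul_self _
  · rw [e1]
    push_cast
    exact IsSquare.mul_self _

/-- **The prime `7`, nonsplit.** -/
theorem seven_n {m w u : ℤ} (h7 : m % 7 = 1 ∨ m % 7 = 2 ∨ m % 7 = 4) (hw : w ≠ 0) (hu : u ≠ 0) :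
    LocC ℚ_[7] 0 (9 * m) (-7 * m) w u ↔ vz 7 u = 0 ∧ rz 7 u = vz 7 w := by
  have hm0 : m ≠ 0 := by omega
  have hm1 : -m ≠ 0 := neg_ne_zero.2 hm0
  have hp2 : (7 : ℕ) ≠ 2 := by norm_num
  have hd : ¬ (7 : ℤ) ∣ m := by omega
  have hd' : ¬ (7 : ℤ) ∣ -m := by omega
  have r1 : rz 7 m = 0 := by
    rw [r7u hd, ra7, if_pos (by omega)]
  have r2 : rz 7 (-m) = 1 := by
    rw [r7u hd', ra7, if_neg (by omega)]
  constructor
  · intro h
    rcases at7 hd hw h with ⟨h1, h3⟩ | ⟨h1, h3⟩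
    · have h2 := (sq_iff (p := 7) hp2 hu).1 h1
      exact ⟨h2.1, by rw [h2.2, vz_even.2 h3]⟩
    · have h2 := (sq_iff (p := 7) hp2 (mul_ne_zero hu hm1)).1 h1
      rw [vz_hom (p := 7) _ _ hu hm1, rz_hom (p := 7) hp2 _ _ hu hm1, v7u hd', r2, add_zero] at h2
      refine ⟨h2.1, ?_⟩
      have h4 : ¬ IsSquare (((-m : ℤ)) : ℚ_[7]) := by
        intro h5
        have h6 := ((sq_iff (p := 7) hp2 hm1).1 h5).2
        rw [r2] at h6
        exact absurd h6 (by decide)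
      have h5 := vz_odd.2 (h3 h4)
      rw [h5]
      linear_combination h2.2 - h20
  · rintro ⟨h1, h2⟩
    -- the class after the translation
    have key : ∀ {w' u' : ℤ}, w' ≠ 0 → u' ≠ 0 → LocC ℚ_[7] 0 (9 * m) (-7 * m) w' u' →
        vz 7 w' = 0 → vz 7 u' = 0 → rz 7 w' = rz 7 w + vz 7 w → rz 7 u' = 0 →
        LocC ℚ_[7] 0 (9 * m) (-7 * m) w u := by
      intro w' u' hw' hu' h a1 a2 a3 a4
      rcases z2 (vz 7 w) with hr | hr
      · exact congr_z (p := 7) hp2 hw' hu' hw hu h (by rw [a1, hr]) (by rw [a3, hr, add_zero])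
          (by rw [a2, h1]) (by rw [a4, h2, hr])
      · refine congr_z (p := 7) hp2 (mul_ne_zero (by norm_num) hw') (mul_ne_zero hm1 hu') hw hu
          (tr1 hm0 h) ?_ ?_ ?_ ?_
        · rw [vz_hom (p := 7) _ _ (by norm_num) hw', v7_7, a1, hr, add_zero]
        · rw [rz_hom (p := 7) hp2 _ _ (by norm_num) hw', r7_7, a3, hr]
          linear_combination h20
        · rw [vz_hom (p := 7) _ _ hm1 hu', v7u hd', zero_add, a2, h1]
        · rw [rz_hom (p := 7) hp2 _ _ hm1 hu', r2, a4, h2, hr, add_zero]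
    have o1 : ¬ (7 : ℤ) ∣ 1 := by norm_num
    have o2 : ¬ (7 : ℤ) ∣ 3 * m := by omega
    have o3 : ¬ (7 : ℤ) ∣ -6 * m := by omega
    have r0 : rz 7 1 = 0 := by rw [r7u o1, ra7]; norm_num
    rcases z2 (rz 7 w + vz 7 w) with hr | hr
    · exact key one_ne_zero one_ne_zero (one_p 7 m) (v7u o1) (v7u o1) (by rw [hr, r0]) r0
    · exact key (mul_ne_zero (by norm_num) hm0) (mul_ne_zero (by norm_num) hm0) (pt7 h7) (v7u o2)
        (v7u o3) (by rw [hr, r7u o2, ra7, if_neg (by omega)])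
        (by rw [r7u o3, ra7, if_pos (by omega)])

/-! ### the real place -/

lemma sgn_pos {x : ℝ} {d : ℤ} (hx : x ≠ 0) (hd : d ≠ 0) (h : IsSquare (x * d)) :
    0 < x * d := by
  obtain ⟨r, hr⟩ := h
  have hd' : (d : ℝ) ≠ 0 := by exact_mod_cast hd
  refine lt_of_le_of_ne ?_ (mul_ne_zero hx hd').symm
  rw [hr]
  exact mul_self_nonneg r

/-- **The real place.** -/
theorem real_iff {m w u : ℤ} (hm : m ≠ 0) (hw : w ≠ 0) (hu : u ≠ 0) :
    LocC ℝ 0 (9 * m) (-7 * m) w u ↔ (0 < m → 0 < w * u) ∧ (m < 0 → 0 < u) := by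
  constructor
  · intro h
    obtain ⟨x, h0, h9, h7, hs, h1, h2⟩ := unmk h
    have k1 := sgn_pos h0 hw h1
    have k2 := sgn_pos h9 hu h2
    have k3 : 0 < x * (x - 9 * m) * (x + 7 * m) := by
      obtain ⟨r, hr⟩ := hs
      refine lt_of_le_of_ne ?_ (mul_ne_zero (mul_ne_zero h0 h9) h7).symm
      rw [hr]
      exact mul_self_nonneg r
    constructor
    · intro hm0
      have hm' : (0 : ℝ) < m := by exact_mod_cast hm0
      have k4 : 0 < x + 7 * m := by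
        by_contra hcon
        push Not at hcon
        have c1 : x < 0 := by linarith
        have c2 : x - 9 * m < 0 := by linarith
        have : 0 < x * (x - 9 * m) := mul_pos_of_neg_of_neg c1 c2
        have : x * (x - 9 * m) * (x + 7 * m) ≤ 0 := mul_nonpos_of_nonneg_of_nonpos this.le hcon
        linarith
      have k5 : 0 < x * (x - 9 * m) := (mul_pos_iff_of_pos_right k4).1 k3
      have k6 : 0 < (x * w) * ((x - 9 * m) * u) := mul_pos k1 k2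
      have e : (x * w) * ((x - 9 * m) * u) = (x * (x - 9 * m)) * (w * u : ℝ) := by ring
      rw [e] at k6
      have k7 := (mul_pos_iff_of_pos_left k5).1 k6
      exact_mod_cast k7
    · intro hm0
      have hm' : (m : ℝ) < 0 := by exact_mod_cast hm0
      have k4 : 0 < x - 9 * m := by
        by_contra hcon
        push Not at hcon
        have c1 : x < 0 := by linarith
        have c2 : x + 7 * m < 0 := by linarith
        have h5 : 0 ≤ x * (x - 9 * m) := mul_nonneg_of_nonpos_of_nonpos c1.le hcon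
        have : x * (x - 9 * m) * (x + 7 * m) ≤ 0 := mul_nonpos_of_nonneg_of_nonpos h5 c2.le
        linarith
      have k7 := (mul_pos_iff_of_pos_left k4).1 k2
      exact_mod_cast k7
  · rintro ⟨h1, h2⟩
    have sqr : ∀ n : ℤ, 0 < n → IsSquare (n : ℝ) := fun n hn =>
      ⟨√(n : ℝ), (Real.mul_self_sqrt (by exact_mod_cast hn.le)).symm⟩
    rcases lt_or_gt_of_ne hm with h | h
    · have hu' := h2 h
      rcases lt_or_gt_of_ne hw with h3 | h3
      · refine of_TC (α := 1) (β := 0) hm (one_real m) ⟨sqr _ ?_, sqr _ ?_⟩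
        · simp only [val0, val1, pow_zero, pow_one, mul_one]
          exact mul_pos_of_neg_of_neg h3 h
        · simp only [val0, pow_zero, mul_one]
          exact hu'
      · refine of_TC (α := 0) (β := 0) hm (one_real m) ⟨sqr _ ?_, sqr _ ?_⟩
        · simp only [val0, pow_zero, mul_one]
          exact h3
        · simp only [val0, pow_zero, mul_one]
          exact hu'
    · have hwu := h1 h
      rcases lt_or_gt_of_ne hw with h3 | h3
      · have h4 : u < 0 := by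
          by_contra hcon
          have : w * u ≤ 0 := mul_nonpos_of_nonpos_of_nonneg h3.le (by omega)
          omega
        refine of_TC (α := 0) (β := 1) hm (one_real m) ⟨sqr _ ?_, sqr _ ?_⟩
        · simp only [val0, val1, pow_zero, pow_one, mul_one]
          exact mul_pos_of_neg_of_neg h3 (by norm_num)
        · simp only [val1, pow_one]
          exact mul_pos_of_neg_of_neg h4 (by omega)
      · have h4 : 0 < u := (mul_pos_iff_of_pos_left h3).1 hwu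
        refine of_TC (α := 0) (β := 0) hm (one_real m) ⟨sqr _ ?_, sqr _ ?_⟩
        · simp only [val0, pow_zero, mul_one]
          exact h3
        · simp only [val0, pow_zero, mul_one]
          exact h4

end Pool.Agent.N809.D21
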